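import Pool.Agent.U508.ST.LowM
import Pool.Agent.TH508.LT.Fin2
import Pool.Agent.H982R3.Plain
import Pool.Agent.Y981.QB.Fin4

set_option autoImplicit false

/-! Many bridges with many steps near to a vertical line. -/

namespace Pool.Agent.U508.ST

open H978R2.Hex Pool.Agent.W818.TD Filter
open scoped ENNReal Topology

/-- the bounds for a graph which has coordinates in one of the word models -/
theorem bounds [L : H982.Lat] {Adj : ℤ × ℤ → ℤ × ℤ → Prop} {φ : ℤ × ℤ → ℤ × ℤ}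
    {R : ℕ → ℤ × ℤ → Prop} (H : H982.Coord Adj φ R) (a : ℕ → ℕ)
    (ha : ∀ n : ℕ, a n = Set.ncard {f : Fin (n + 1) → ℤ × ℤ |
            f 0 = 0 ∧ Function.Injective f ∧
            ∀ i : Fin n, Adj (f i.castSucc) (f i.succ)}) (μ : ℝ)
    (hμ : μ = (⨅ n : {n : ℕ // 1 ≤ n}, ((a n.1 : ℝ) ^ ((1 : ℝ) / (n.1 : ℝ))))) :
    ∃ K : ℝ, 0 ≤ K ∧ ∀ n : ℕ, 2 ≤ n → (a n : ℝ) ≤ μ ^ n * Real.exp (K * (Real.log n) ^ 2) := by
  have ha' : ∀ n, a n = (H982.walks Adj n).ncard := ha
  have hμ' : μ = H982.mu := by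
    rw [hμ, ← H982.mu_eq_iInf H]
    congr 1
    funext n
    rw [ha']
  obtain ⟨K, hK0, hK⟩ := Pool.Agent.TH508.LT.cr'_upper2
  refine ⟨K, hK0, fun n hn => ?_⟩
  rw [hμ', ha', H982.ncard_walks H]
  exact hK n hn

theorem mu_eq : (⨅ n : {n : ℕ // 1 ≤ n}, (((saws n.1).ncard : ℝ) ^ ((1 : ℝ) / (n.1 : ℝ)))) = mu0 := by
  refine le_antisymm connective_le ?_
  have : Nonempty {n : ℕ // 1 ≤ n} := ⟨⟨1, le_refl 1⟩⟩
  refine le_ciInf fun n => ?_
  have h3 : (mu0 ^ n.1) ^ ((1 : ℝ) / (n.1 : ℝ)) ≤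
      (Set.ncard (saws n.1) : ℝ) ^ ((1 : ℝ) / (n.1 : ℝ)) :=
    Real.rpow_le_rpow (pow_pos mu0_pos _).le (saws_ge n.1) (by positivity)
  have hn : n.1 ≠ 0 := by
    have := n.2
    omega
  rwa [one_div, Real.pow_rpow_inv_natCast mu0_pos.le hn, ← one_div] at h3

theorem saws_upper : ∃ K : ℝ, 0 ≤ K ∧ ∀ n : ℕ, 2 ≤ n →
    ((saws n).ncard : ℝ) ≤ mu0 ^ n * Real.exp (K * (Real.log n) ^ 2) := by
  have h := bounds (L := H982P.hexL) H982P.coord_hex (fun n => (saws n).ncard)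
    (fun n => rfl) _ rfl
  rw [mu_eq] at h
  exact h

theorem norm_ge (v : V) : (3 * ((v.1 - v.2 : ℤ) : ℝ)) / 4 ≤ ‖pos v - pos 0‖ := by
  have h0 : pos 0 = 0 := pos_zero
  rw [h0, sub_zero]
  have h3 : Real.sqrt 3 * Real.sqrt 3 = 3 := Real.mul_self_sqrt (by norm_num)
  have hpar : (0 : ℤ) ≤ (v.1 + v.2) % 2 := by omega
  have hpar' : (0 : ℝ) ≤ (((v.1 + v.2) % 2 : ℤ) : ℝ) := by exact_mod_cast hpar
  have h1 : (Real.sqrt 3 * (pos v).re - (pos v).im) / 2 =
      (3 * ((v.1 : ℝ) - v.2) + (((v.1 + v.2) % 2 : ℤ) : ℝ)) / 4 := by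
    unfold pos ht
    simp only
    push_cast
    linear_combination ((v.1 : ℝ) / 4) * h3
  have h2 : (Real.sqrt 3 * (pos v).re - (pos v).im) / 2 ≤ ‖pos v‖ := by
    apply le_of_sq_le_sq _ (norm_nonneg _)
    rw [← Complex.normSq_eq_norm_sq, Complex.normSq_apply]
    nlinarith [sq_nonneg ((pos v).re + Real.sqrt 3 * (pos v).im)]
  push_cast
  linarith

theorem BL_short {c C : ℝ} (h : ∀ n : ℕ, 16 ≤ n →
      Pool.Agent.Y981.QB.prob n (fun ω => (n : ℝ) ^ (1 - c / Real.log (Real.log n)) ≤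
        Pool.Agent.Y981.QB.diam ω) ≤ C * Real.exp (-(n : ℝ) ^ (4 / 5 : ℝ)))
    {T N : ℕ} {W : ℤ} (hN : 16 ≤ N) (hNT : (N : ℝ) ^ (1 - c / Real.log (Real.log N)) ≤ T) :
    ((BL T W N).ncard : ℝ) ≤ C * Real.exp (-(N : ℝ) ^ (4 / 5 : ℝ)) * (saws N).ncard := by
  have h1 := h N hN
  have hpos : (0 : ℝ) < (saws N).ncard := saws_pos N
  unfold Pool.Agent.Y981.QB.prob at h1
  rw [div_le_iff₀ hpos] at h1
  refine le_trans ?_ h1
  have hsub : BL T W N ⊆ (fun f : Fin (N + 1) → V => List.ofFn f) '' {ω ∈ saws N |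
      (N : ℝ) ^ (1 - c / Real.log (Real.log N)) ≤ Pool.Agent.Y981.QB.diam ω} := by
    intro β hβ
    have h2 := BL_sub T W N hβ
    rw [SA_eq] at h2
    obtain ⟨ω, hω, rfl⟩ := h2
    refine ⟨ω, ⟨hω, ?_⟩, rfl⟩
    have h3 := Pool.Agent.Y981.QB.le_diam ω (Fin.last N) 0
    have h4 : ω 0 = 0 := hω.1
    rw [h4] at h3
    have h5 := norm_ge (ω (Fin.last N))
    have h6 : la (List.ofFn ω) = ω (Fin.last N) := by
      rw [la_eq (by simp), List.getLast_eq_getElem, List.getElem_ofFn]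
      congr 1
      apply Fin.ext
      simp
    have h7 := hβ.1.2.1
    unfold hl at h7
    simp only at h7
    rw [h6] at h7
    rw [h7] at h5
    push_cast at h5
    have hT : (0 : ℝ) ≤ T := Nat.cast_nonneg _
    linarith
  have hfin : {ω ∈ saws N |
      (N : ℝ) ^ (1 - c / Real.log (Real.log N)) ≤ Pool.Agent.Y981.QB.diam ω}.Finite :=
    (saws_finite N).subset fun ω hω => hω.1
  have h8 := Set.ncard_le_ncard hsub (hfin.image _)
  exact_mod_cast h8.trans (Set.ncard_image_le hfin)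

/-- eventual inequalities -/
theorem ev1 (C K : ℝ) (hC : 0 < C) (hK : 0 ≤ K) : ∀ᶠ T : ℕ in atTop,
    (T : ℝ) ^ 2 * (C * Real.exp (4 * K * Real.log T ^ 2 - (T : ℝ) ^ (4 / 5 : ℝ))) ≤
      1 / (16 * (T : ℝ)) := by
  have h1 : ∀ᶠ x : ℝ in atTop, (|Real.log (16 * C)| + 3 + 4 * K) * Real.log x ^ (2 : ℝ) ≤
      x ^ (4 / 5 : ℝ) := by
    have h2 := (isLittleO_log_rpow_rpow_atTop (s := 4 / 5) 2 (by norm_num)).bound
      (show 0 < 1 / (|Real.log (16 * C)| + 3 + 4 * K) by positivity)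
    filter_upwards [h2, eventually_ge_atTop 1] with x hx hx1
    have hl := Real.log_nonneg hx1
    rw [Real.norm_of_nonneg (Real.rpow_nonneg hl _),
      Real.norm_of_nonneg (Real.rpow_nonneg (by linarith) _)] at hx
    have h3 : 0 < |Real.log (16 * C)| + 3 + 4 * K := by positivity
    calc _ ≤ (|Real.log (16 * C)| + 3 + 4 * K) *
        (1 / (|Real.log (16 * C)| + 3 + 4 * K) * x ^ (4 / 5 : ℝ)) := by gcongr
      _ = _ := by field_simp
  have h4 := tendsto_natCast_atTop_atTop.eventually h1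
  filter_upwards [h4, eventually_ge_atTop 3] with T hT hT3
  have hT0 : (0 : ℝ) < T := by positivity
  have hlog1 : 1 ≤ Real.log T := by
    have h5 : (3 : ℝ) ≤ T := by exact_mod_cast hT3
    have := Real.exp_one_lt_d9
    rw [Real.le_log_iff_exp_le hT0]
    linarith
  rw [Real.rpow_ofNat] at hT
  have hl2 : 1 ≤ Real.log T ^ 2 := one_le_pow₀ hlog1
  have hl3 : Real.log T ≤ Real.log T ^ 2 := by nlinarith
  have h6 : Real.log (16 * C) + 3 * Real.log T + 4 * K * Real.log T ^ 2 ≤ (T : ℝ) ^ (4 / 5 : ℝ) := by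
    refine le_trans ?_ hT
    have a1 := le_abs_self (Real.log (16 * C))
    have a2 : |Real.log (16 * C)| ≤ |Real.log (16 * C)| * Real.log T ^ 2 :=
      le_mul_of_one_le_right (abs_nonneg _) hl2
    nlinarith
  have h7 : (T : ℝ) ^ 3 * (16 * C) * Real.exp (4 * K * Real.log T ^ 2 - (T : ℝ) ^ (4 / 5 : ℝ)) ≤ 1 := by
    have e : (T : ℝ) ^ 3 * (16 * C) = Real.exp (3 * Real.log T + Real.log (16 * C)) := by
      rw [Real.exp_add, Real.exp_log (by positivity)]
      congr 1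
      have : 3 * Real.log (T : ℝ) = Real.log ((T : ℝ) ^ 3) := by rw [Real.log_pow]; norm_num
      rw [this, Real.exp_log (by positivity)]
    rw [e, ← Real.exp_add]
    apply Real.exp_le_one_iff.2
    linarith
  rw [le_div_iff₀ (by positivity)]
  calc _ = (T : ℝ) ^ 3 * (16 * C) * Real.exp (4 * K * Real.log T ^ 2 - (T : ℝ) ^ (4 / 5 : ℝ)) := by ring
    _ ≤ 1 := h7

/-- the exponent of the number of steps -/
theorem ev2 (c : ℝ) (hc : 0 < c) (hc1 : c ≤ 1) : ∀ᶠ T : ℕ in atTop, ∀ N : ℕ, T ≤ N →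
    (N : ℝ) < (T : ℝ) ^ (1 + c / 2 / Real.log (Real.log T)) →
      (N : ℝ) ≤ (T : ℝ) ^ 2 ∧ (N : ℝ) ^ (1 - c / Real.log (Real.log N)) ≤ T := by
  filter_upwards [eventually_ge_atTop ⌈Real.exp (Real.exp 2)⌉₊] with T hT N hTN hN
  have hTr : Real.exp (Real.exp 2) ≤ T := (Nat.le_ceil _).trans (by exact_mod_cast hT)
  have hT0 : (0 : ℝ) < T := (Real.exp_pos _).trans_le hTr
  have hl : Real.exp 2 ≤ Real.log T := by
    rw [Real.le_log_iff_exp_le hT0]
    exact hTr
  have hl0 : 0 < Real.log T := (Real.exp_pos _).trans_le hl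
  have hll : 2 ≤ Real.log (Real.log T) := by
    rw [Real.le_log_iff_exp_le hl0]
    exact hl
  have he2 : 2 ≤ Real.exp 2 := by
    have := Real.add_one_le_exp (2 : ℝ)
    linarith
  have hT1 : 1 ≤ (T : ℝ) := by
    have := Real.add_one_le_exp (Real.exp 2)
    linarith [Real.exp_pos 2]
  have hNT : (T : ℝ) ≤ N := by exact_mod_cast hTN
  have hN0 : (0 : ℝ) < N := hT0.trans_le hNT
  have h1 : c / 2 / Real.log (Real.log T) ≤ 1 := by
    rw [div_le_one (by linarith)]
    linarith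
  have h2 : (N : ℝ) ≤ (T : ℝ) ^ 2 := by
    refine hN.le.trans ?_
    rw [← Real.rpow_two]
    exact Real.rpow_le_rpow_of_exponent_le hT1 (by linarith)
  refine ⟨h2, ?_⟩
  have hlN : Real.log T ≤ Real.log N := Real.log_le_log hT0 hNT
  have hlN2 : Real.log N ≤ (1 + c / 2 / Real.log (Real.log T)) * Real.log T := by
    have := Real.log_le_log hN0 hN.le
    rwa [Real.log_rpow hT0] at this
  have hllN : Real.log (Real.log N) ≤ 2 * Real.log (Real.log T) := by
    have h3 : Real.log N ≤ Real.log T ^ 2 := by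
      have : Real.log N ≤ 2 * Real.log T := by nlinarith
      nlinarith
    have h4 := Real.log_le_log (hl0.trans_le hlN) h3
    rw [Real.log_pow] at h4
    exact_mod_cast h4
  have hllN0 : 2 ≤ Real.log (Real.log N) := hll.trans (Real.log_le_log hl0 hlN)
  have h5 : c / 2 / Real.log (Real.log T) ≤ c / Real.log (Real.log N) := by
    rw [div_div]
    apply div_le_div_of_nonneg_left hc.le (by linarith)
    linarith
  have h6 : c / Real.log (Real.log N) ≤ 1 := by
    rw [div_le_one (by linarith)]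
    linarith
  set a := c / 2 / Real.log (Real.log T) with ha
  have ha0 : 0 ≤ a := by rw [ha]; positivity
  rw [← Real.log_le_log_iff (Real.rpow_pos_of_pos hN0 _) hT0, Real.log_rpow hN0]
  calc (1 - c / Real.log (Real.log N)) * Real.log N ≤ (1 - a) * Real.log N := by
        apply mul_le_mul_of_nonneg_right _ (hl0.le.trans hlN)
        linarith
    _ ≤ (1 - a) * ((1 + a) * Real.log T) := by
        apply mul_le_mul_of_nonneg_left hlN2
        linarith
    _ ≤ Real.log T := by nlinarith [mul_nonneg (mul_nonneg ha0 ha0) hl0.le]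

/-- **many bridges** -/
theorem exists_AA : ∃ c : ℝ, 0 < c ∧ c ≤ 1 ∧ ∀ᶠ T : ℕ in atTop, ∀ W : ℤ,
    256 * Real.log T * T + 3 ≤ W → ∀ X : ℕ, W * (2 * T + 1) ≤ X →
      ∃ ε : ℤ, (ε = 1 ∨ ε = -1) ∧ ∃ N : ℕ, N < X ∧
        (T : ℝ) ^ (1 + c / Real.log (Real.log T)) ≤ N ∧
        mu0 ^ N / (32 * T * X) ≤ ((AA ε W N).ncard : ℝ) := by
  obtain ⟨c, C, hc, hc1, hC, -, h1, -⟩ := Pool.Agent.Y981.QB.fin2
  obtain ⟨K, hK, hup⟩ := saws_upper
  refine ⟨c / 2, by positivity, by linarith, ?_⟩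
  filter_upwards [ev1 C K hC hK, ev2 c hc hc1, eventually_ge_atTop 16] with T e1 e2 hT W hW X hX
  have hT0 : (0 : ℝ) < T := by positivity
  have hlogT : 0 ≤ Real.log T := Real.log_nonneg (by exact_mod_cast (by omega : 1 ≤ T))
  have hW1 : 1 ≤ W := by
    have : (1 : ℝ) ≤ W := by
      have : 0 ≤ 256 * Real.log T * T := by positivity
      linarith
    exact_mod_cast this
  have hm := mu0_pos
  have hmi := inv_pos.2 hm
  have hmass := (crossings (by omega : 2 ≤ T) hW).trans (BB_sum hW1 hX)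
  rw [ENNReal.ofReal_le_ofReal_iff (Finset.sum_nonneg fun N _ => by positivity)] at hmass
  set a := (T : ℝ) ^ (1 + c / 2 / Real.log (Real.log T)) with ha
  -- few steps
  have hshort : ∑ N ∈ (Finset.Ico (2 * T) X).filter (fun N : ℕ => (N : ℝ) < a),
      ((BL T W N).ncard : ℝ) * (mu0⁻¹) ^ N ≤ 1 / (16 * T) := by
    have hterm : ∀ N ∈ (Finset.Ico (2 * T) X).filter (fun N : ℕ => (N : ℝ) < a),
        ((BL T W N).ncard : ℝ) * (mu0⁻¹) ^ N ≤
          C * Real.exp (4 * K * Real.log T ^ 2 - (T : ℝ) ^ (4 / 5 : ℝ)) := by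
      intro N hN
      rw [Finset.mem_filter, Finset.mem_Ico] at hN
      obtain ⟨h2, h3⟩ := e2 N (by omega) hN.2
      have h4 := BL_short h1 (T := T) (W := W) (N := N) (by omega) h3
      have h5 := hup N (by omega)
      have hx := xc_pow N
      have hN0 : (0 : ℝ) < N := by
        have : 0 < N := by omega
        exact_mod_cast this
      have hTN : (T : ℝ) ≤ N := by
        have : T ≤ N := by omega
        exact_mod_cast this
      have hlN : Real.log N ^ 2 ≤ 4 * Real.log T ^ 2 := by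
        have a1 := Real.log_le_log hN0 h2
        rw [Real.log_pow] at a1
        push_cast at a1
        have a2 : 0 ≤ Real.log N := Real.log_nonneg (by
          have : 1 ≤ N := by omega
          exact_mod_cast this)
        nlinarith
      have h6 : (T : ℝ) ^ (4 / 5 : ℝ) ≤ (N : ℝ) ^ (4 / 5 : ℝ) :=
        Real.rpow_le_rpow hT0.le hTN (by norm_num)
      calc ((BL T W N).ncard : ℝ) * (mu0⁻¹) ^ N
          ≤ (C * Real.exp (-(N : ℝ) ^ (4 / 5 : ℝ)) *
            (mu0 ^ N * Real.exp (K * (Real.log N) ^ 2))) * (mu0⁻¹) ^ N := by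
            gcongr
            exact h4.trans (by gcongr)
        _ = C * (Real.exp (-(N : ℝ) ^ (4 / 5 : ℝ)) * Real.exp (K * (Real.log N) ^ 2)) *
            ((mu0⁻¹) ^ N * mu0 ^ N) := by ring
        _ = C * Real.exp (-(N : ℝ) ^ (4 / 5 : ℝ) + K * (Real.log N) ^ 2) := by
            rw [hx, mul_one, ← Real.exp_add]
        _ ≤ _ := by
            apply mul_le_mul_of_nonneg_left _ hC.le
            apply Real.exp_le_exp.2
            nlinarith
    refine (Finset.sum_le_sum hterm).trans ?_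
    rw [Finset.sum_const, nsmul_eq_mul]
    refine le_trans ?_ e1
    apply mul_le_mul_of_nonneg_right _ (by positivity)
    have hcard : ((Finset.Ico (2 * T) X).filter (fun N : ℕ => (N : ℝ) < a)) ⊆
        Finset.Ico 1 (T ^ 2 + 1) := by
      intro N hN
      rw [Finset.mem_filter, Finset.mem_Ico] at hN
      obtain ⟨h2, -⟩ := e2 N (by omega) hN.2
      have h3 : N ≤ T ^ 2 := by exact_mod_cast h2
      rw [Finset.mem_Ico]
      omega
    have := Finset.card_le_card hcard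
    rw [Nat.card_Ico] at this
    have h4 : ((Finset.Ico (2 * T) X).filter (fun N : ℕ => (N : ℝ) < a)).card ≤ T ^ 2 := by omega
    exact_mod_cast h4
  have hlong : 1 / (16 * T) ≤ ∑ N ∈ (Finset.Ico (2 * T) X).filter (fun N : ℕ => ¬ (N : ℝ) < a),
      ((BL T W N).ncard : ℝ) * (mu0⁻¹) ^ N := by
    rw [← Finset.sum_filter_add_sum_filter_not _ (fun N : ℕ => (N : ℝ) < a)] at hmass
    have e : 1 / (8 * (T : ℝ)) = 1 / (16 * T) + 1 / (16 * T) := by
      field_simp
      norm_num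
    linarith
  -- one good number of steps
  obtain ⟨N, hN, hNb⟩ : ∃ N ∈ (Finset.Ico (2 * T) X).filter (fun N : ℕ => ¬ (N : ℝ) < a),
      1 / (16 * T * X) ≤ ((BL T W N).ncard : ℝ) * (mu0⁻¹) ^ N := by
    by_contra hno0
    have hno : ∀ N ∈ (Finset.Ico (2 * T) X).filter (fun N : ℕ => ¬ (N : ℝ) < a),
        ((BL T W N).ncard : ℝ) * (mu0⁻¹) ^ N < 1 / (16 * T * X) :=
      fun N hN => not_le.1 (fun h => hno0 ⟨N, hN, h⟩)
    have hX0 : 0 < X := by
      by_contra h0
      have : X = 0 := by omega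
      subst this
      simp at hlong
      have : 0 < (T : ℝ)⁻¹ * 16⁻¹ := by positivity
      linarith
    have hX0' : (0 : ℝ) < X := by exact_mod_cast hX0
    have hne : ((Finset.Ico (2 * T) X).filter (fun N : ℕ => ¬ (N : ℝ) < a)).Nonempty := by
      by_contra h0
      rw [Finset.not_nonempty_iff_eq_empty] at h0
      rw [h0, Finset.sum_empty] at hlong
      have : 0 < 1 / (16 * (T : ℝ)) := by positivity
      linarith
    have h2 := Finset.sum_lt_sum_of_nonempty hne hno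
    rw [Finset.sum_const, nsmul_eq_mul] at h2
    have h3 : (((Finset.Ico (2 * T) X).filter (fun N : ℕ => ¬ (N : ℝ) < a)).card : ℝ) ≤ X := by
      have := Finset.card_le_card (Finset.filter_subset (fun N : ℕ => ¬ (N : ℝ) < a)
        (Finset.Ico (2 * T) X))
      rw [Nat.card_Ico] at this
      have h4 : ((Finset.Ico (2 * T) X).filter (fun N : ℕ => ¬ (N : ℝ) < a)).card ≤ X := by omega
      exact_mod_cast h4
    have h4 : (((Finset.Ico (2 * T) X).filter (fun N : ℕ => ¬ (N : ℝ) < a)).card : ℝ) *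
        (1 / (16 * T * X)) ≤ 1 / (16 * T) := by
      calc _ ≤ (X : ℝ) * (1 / (16 * T * X)) := by gcongr
        _ = _ := by field_simp
    linarith
  rw [Finset.mem_filter, Finset.mem_Ico, not_lt] at hN
  have hb : mu0 ^ N / (16 * T * X) ≤ (BL T W N).ncard := by
    have hx := xc_pow N
    have := mul_le_mul_of_nonneg_right hNb (pow_pos hm N).le
    calc mu0 ^ N / (16 * T * X) = 1 / (16 * T * X) * mu0 ^ N := by ring
      _ ≤ _ := this
      _ = ((BL T W N).ncard : ℝ) * ((mu0⁻¹) ^ N * mu0 ^ N) := by ring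
      _ = _ := by rw [hx, mul_one]
  have hs : ((BL T W N).ncard : ℝ) ≤ (AA 1 W N).ncard + (AA (-1) W N).ncard := by
    exact_mod_cast BL_AA T W N
  have e5 : mu0 ^ N / (32 * T * X) = 1 / 2 * (mu0 ^ N / (16 * T * X)) := by
    rw [show (32 : ℝ) * T * X = 2 * (16 * T * X) by ring, ← div_div]
    ring
  rcases le_total ((AA (-1) W N).ncard : ℝ) ((AA 1 W N).ncard : ℝ) with h | h
  · exact ⟨1, Or.inl rfl, N, hN.1.2, hN.2, by rw [e5]; linarith⟩
  · exact ⟨-1, Or.inr rfl, N, hN.1.2, hN.2, by rw [e5]; linarith⟩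

end Pool.Agent.U508.ST
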