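import Pool.Agent.U508.ST.Conv
import Pool.Agent.U508.ST.LowC

set_option autoImplicit false

/-! Lower bound of the growth constant of a strip. -/

namespace Pool.Agent.U508.ST

open H978R2.Hex Pool.Agent.W818.TD Filter
open scoped Topology

theorem CC_walks {W : ℤ} {L N k : ℕ} (hL : 2 * W + 4 ≤ L) :
    (CC W N k).ncard ≤ (walks L (k * N)).ncard := by
  refine Set.ncard_le_ncard_of_injOn (fun γ : List V => fun i : Fin (k * N + 1) =>
    ri (γ.getD i.1 (0, 0)) + (W + 2, W % 2)) ?_ ?_ (walks_finite _ _)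
  · rintro γ ⟨h1, h2, -, h4⟩
    have hget : ∀ i : Fin (k * N + 1), γ.getD i.1 (0, 0) = γ[i.1]'(by have := i.2; omega) := by
      intro i
      exact List.getD_eq_getElem _ _ _
    refine ⟨?_, ?_, ?_, ?_⟩
    · have : γ.getD 0 (0, 0) = (0, 0) := by
        obtain ⟨t, rfl⟩ := h1.cons
        rfl
      simp only [Fin.val_zero, this, Prod.snd_add]
      unfold ri
      simp only
      omega
    · intro i j hij
      simp only at hij
      rw [hget i, hget j] at hij
      have := (h1.nd.getElem_inj_iff).1 (ri_inj (add_right_cancel hij))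
      exact Fin.ext this
    · intro i
      simp only [Fin.val_castSucc, Fin.val_succ]
      have h5 := (List.isChain_iff_getElem.1 h1.ch) i.1 (by have := i.2; omega)
      rw [List.getD_eq_getElem _ _ (by have := i.2; omega),
        List.getD_eq_getElem _ _ (by have := i.2; omega), nbr_adj]
      exact adj_tr (by simp only; omega) (ri_adj h5)
    · intro i
      simp only
      rw [hget i]
      have h6 := h4 _ (List.getElem_mem (l := γ) (n := i.1) (by have := i.2; omega))
      rw [abs_le] at h6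
      unfold lat at h6
      unfold ri
      simp only [Prod.fst_add]
      omega
  · rintro γ ⟨h1, h2, -, -⟩ γ' ⟨h1', h2', -, -⟩ h
    apply List.ext_getElem (by rw [h2, h2'])
    intro i hi hi'
    have h3 := congrFun h ⟨i, by omega⟩
    simp only at h3
    rw [List.getD_eq_getElem _ _ hi, List.getD_eq_getElem _ _ hi'] at h3
    exact ri_inj (add_right_cancel h3)

theorem kappa_ge {L : ℕ} {κ : ℝ}
    (hκ : Tendsto (fun n : ℕ => ((walks L n).ncard : ℝ) ^ ((1 : ℝ) / n)) atTop (𝓝 κ))
    {ε W : ℤ} (hε : ε = 1 ∨ ε = -1) (hW : 0 ≤ W) (hL : 2 * W + 4 ≤ L) {N : ℕ} (hN : 1 ≤ N)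
    {y : ℝ} (hy : 0 < y) (h : mu0 ^ N / y ≤ ((AA ε W N).ncard : ℝ)) :
    mu0 * Real.exp (-(Real.log y / N)) ≤ κ := by
  have hm := mu0_pos
  have hN0 : (0 : ℝ) < N := by exact_mod_cast hN
  set b := mu0 * Real.exp (-(Real.log y / N)) with hb
  have hb0 : 0 < b := by positivity
  have hbN : b ^ N = mu0 ^ N / y := by
    rw [hb, mul_pow, ← Real.exp_nat_mul]
    have : (N : ℝ) * -(Real.log y / N) = -Real.log y := by field_simp
    rw [this, Real.exp_neg, Real.exp_log hy]
    rfl
  have h1 : Tendsto (fun k : ℕ => (k + 1) * N) atTop atTop :=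
    tendsto_atTop_mono (fun k => by
      show k ≤ (k + 1) * N
      nlinarith) tendsto_id
  refine ge_of_tendsto' (hκ.comp h1) fun k => ?_
  simp only [Function.comp_apply]
  have h2 : b ^ ((k + 1) * N) ≤ ((walks L ((k + 1) * N)).ncard : ℝ) := by
    have h3 := (CC_card (W := W) hε hW N (k + 1)).trans (CC_walks hL)
    have h4 : ((AA ε W N).ncard : ℝ) ^ (k + 1) ≤ ((walks L ((k + 1) * N)).ncard : ℝ) := by
      exact_mod_cast h3
    refine le_trans ?_ h4
    rw [mul_comm, pow_mul, hbN]
    exact pow_le_pow_left₀ (by positivity) h _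
  have hne : (k + 1) * N ≠ 0 := by positivity
  calc b = (b ^ ((k + 1) * N)) ^ ((((k + 1) * N : ℕ) : ℝ)⁻¹) :=
        (Real.pow_rpow_inv_natCast hb0.le hne).symm
    _ ≤ _ := by
        rw [one_div]
        exact Real.rpow_le_rpow (by positivity) h2 (by positivity)

/-- the numerical comparison -/
theorem ev3 (c : ℝ) (hc : 0 < c) (hc1 : c ≤ 1) : ∀ᶠ L : ℕ in atTop, ∃ T : ℕ,
    (L : ℝ) / (2048 * Real.log L) ≤ T ∧ 512 * (Real.log T * T) + 12 ≤ L ∧ 2 * T + 1 ≤ L ∧
    4 * Real.log L / (T : ℝ) ^ (1 + c / Real.log (Real.log T)) ≤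
      (L : ℝ) ^ (-1 - c / 4 / Real.log (Real.log L)) := by
  have e1 : ∀ᶠ x : ℝ in atTop, 12 * Real.log x ^ 2 ≤ c / 4 * x := by
    have h2 := (Real.isLittleO_pow_log_id_atTop (n := 2)).bound (show 0 < c / 48 by positivity)
    filter_upwards [h2, eventually_ge_atTop 1] with x hx hx1
    rw [Real.norm_of_nonneg (by positivity), id, Real.norm_of_nonneg (by linarith)] at hx
    linarith
  have e2 : ∀ᶠ x : ℝ in atTop, 2048 * Real.log x ≤ x ^ (1 / 2 : ℝ) := by
    have h2 := (isLittleO_log_rpow_rpow_atTop (s := 1 / 2) 1 (by norm_num)).bound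
      (show (0 : ℝ) < 1 / 2048 by positivity)
    filter_upwards [h2, eventually_ge_atTop 1] with x hx hx1
    have hl := Real.log_nonneg hx1
    rw [Real.rpow_one, Real.norm_of_nonneg hl,
      Real.norm_of_nonneg (Real.rpow_nonneg (by linarith) _)] at hx
    linarith
  have e3 := (tendsto_natCast_atTop_atTop (R := ℝ)).eventually
    (Real.tendsto_log_atTop.eventually e1)
  have e4 := (tendsto_natCast_atTop_atTop (R := ℝ)).eventually e2
  filter_upwards [e3, e4, eventually_ge_atTop ⌈Real.exp (Real.exp 10)⌉₊] with L h1 h2 hL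
  have hLr : Real.exp (Real.exp 10) ≤ L := (Nat.le_ceil _).trans (by exact_mod_cast hL)
  have hL0 : (0 : ℝ) < L := (Real.exp_pos _).trans_le hLr
  have he10 : 11 ≤ Real.exp 10 := by
    have := Real.add_one_le_exp (10 : ℝ)
    linarith
  have hlL : Real.exp 10 ≤ Real.log L := by
    rw [Real.le_log_iff_exp_le hL0]
    exact hLr
  have hlL0 : 0 < Real.log L := by linarith
  have hllL : 10 ≤ Real.log (Real.log L) := by
    rw [Real.le_log_iff_exp_le hlL0]
    exact hlL
  have hsq : (L : ℝ) ^ (1 / 2 : ℝ) * (L : ℝ) ^ (1 / 2 : ℝ) = L := by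
    rw [← Real.rpow_add hL0]
    norm_num
  have hsq0 : 0 < (L : ℝ) ^ (1 / 2 : ℝ) := Real.rpow_pos_of_pos hL0 _
  set y : ℝ := L / (2048 * Real.log L) with hy
  have hy0 : 0 < y := by positivity
  -- sqrt L ≤ y
  have hy1 : (L : ℝ) ^ (1 / 2 : ℝ) ≤ y := by
    rw [hy, le_div_iff₀ (by positivity)]
    calc _ ≤ (L : ℝ) ^ (1 / 2 : ℝ) * (L : ℝ) ^ (1 / 2 : ℝ) := by gcongr
      _ = L := hsq
  have hy2 : 2048 * 11 ≤ y := by
    refine le_trans ?_ (h2.trans hy1)
    nlinarith
  set T : ℕ := ⌊2 * y⌋₊ with hT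
  have hTy : y ≤ T := by
    have := Nat.lt_floor_add_one (2 * y)
    rw [← hT] at this
    linarith
  have hT2 : (T : ℝ) ≤ 2 * y := Nat.floor_le (by positivity)
  have hT0 : (0 : ℝ) < T := hy0.trans_le hTy
  have h2y : 2 * y = L / (1024 * Real.log L) := by rw [hy]; field_simp; norm_num
  have hyL : 2 * y * (1024 * Real.log L) = L := by rw [h2y]; field_simp
  have hTL : (T : ℝ) ≤ L := by
    have : 2 * y * 1 ≤ 2 * y * (1024 * Real.log L) := by
      apply mul_le_mul_of_nonneg_left _ (by positivity)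
      linarith
    linarith
  have hlTL : Real.log T ≤ Real.log L := Real.log_le_log hT0 hTL
  have hlT : 1 / 2 * Real.log L ≤ Real.log T := by
    have h3 := Real.log_le_log hsq0 (hy1.trans hTy)
    rwa [Real.log_rpow hL0] at h3
  have hlT0 : 0 < Real.log T := by linarith
  have hlT1 : 5 ≤ Real.log T := by linarith
  have hllT : 0 < Real.log (Real.log T) := Real.log_pos (by linarith)
  have hllTL : Real.log (Real.log T) ≤ Real.log (Real.log L) := Real.log_le_log hlT0 hlTL
  refine ⟨T, hTy, ?_, ?_, ?_⟩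
  · have h3 : 512 * (Real.log T * T) ≤ L / 2 := by
      calc 512 * (Real.log T * T) ≤ 512 * (Real.log L * (2 * y)) := by gcongr
        _ = (2 * y * (1024 * Real.log L)) / 2 := by ring
        _ = L / 2 := by rw [hyL]
    have : (24 : ℝ) ≤ L := by nlinarith
    linarith
  · have h3 : (2 : ℝ) * T + 1 ≤ L := by
      have : 2 * y * 11264 ≤ 2 * y * (1024 * Real.log L) := by
        apply mul_le_mul_of_nonneg_left _ (by positivity)
        linarith
      linarith
    exact_mod_cast h3
  · -- the exponents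
    have hexp : (T : ℝ) ^ (1 + c / Real.log (Real.log T)) =
        T * Real.exp (c * Real.log T / Real.log (Real.log T)) := by
      rw [Real.rpow_add hT0, Real.rpow_one, Real.rpow_def_of_pos hT0]
      congr 2
      ring
    have hlow : y * Real.exp (c / 2 * Real.log L / Real.log (Real.log L)) ≤
        (T : ℝ) ^ (1 + c / Real.log (Real.log T)) := by
      rw [hexp]
      apply mul_le_mul hTy _ (Real.exp_pos _).le hT0.le
      apply Real.exp_le_exp.2
      rw [div_le_div_iff₀ (by linarith) hllT]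
      have a1 : c / 2 * Real.log L ≤ c * Real.log T := by nlinarith
      exact mul_le_mul a1 hllTL hllT.le (by positivity)
    have hE : 8192 * Real.log L ^ 2 ≤ Real.exp (c / 4 * Real.log L / Real.log (Real.log L)) := by
      have a1 : Real.log (8192 * Real.log L ^ 2) ≤ 12 * Real.log (Real.log L) := by
        rw [Real.log_mul (by norm_num) (by positivity), Real.log_pow]
        have a2 : Real.log 8192 ≤ 10 * Real.log (Real.log L) := by
          have a3 : Real.log 8192 ≤ 13 := by
            have : (8192 : ℝ) = 2 ^ 13 := by norm_num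
            rw [this, Real.log_pow]
            have := Real.log_two_lt_d9
            push_cast
            linarith
          linarith
        push_cast
        linarith
      have a4 : 12 * Real.log (Real.log L) ≤ c / 4 * Real.log L / Real.log (Real.log L) := by
        rw [le_div_iff₀ (by linarith)]
        calc _ = 12 * Real.log (Real.log L) ^ 2 := by ring
          _ ≤ _ := h1
      rw [← Real.log_le_iff_le_exp (by positivity)]
      exact a1.trans a4
    have hR : (L : ℝ) ^ (-1 - c / 4 / Real.log (Real.log L)) =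
        (L : ℝ)⁻¹ * Real.exp (-(c / 4 * Real.log L / Real.log (Real.log L))) := by
      rw [Real.rpow_sub hL0, Real.rpow_neg_one, div_eq_mul_inv, Real.exp_neg]
      congr 2
      rw [Real.rpow_def_of_pos hL0]
      congr 1
      ring
    rw [hR]
    set E := Real.exp (c / 4 * Real.log L / Real.log (Real.log L)) with hEdef
    have hE0 : 0 < E := Real.exp_pos _
    have hE2 : Real.exp (c / 2 * Real.log L / Real.log (Real.log L)) = E * E := by
      rw [hEdef, ← Real.exp_add]
      congr 1
      ring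
    rw [hE2] at hlow
    rw [Real.exp_neg, ← hEdef]
    have hden : 0 < y * (E * E) := by positivity
    calc 4 * Real.log L / (T : ℝ) ^ (1 + c / Real.log (Real.log T))
        ≤ 4 * Real.log L / (y * (E * E)) := div_le_div_of_nonneg_left (by positivity) hden hlow
      _ = (8192 * Real.log L ^ 2) * ((L : ℝ)⁻¹ * (E⁻¹ * E⁻¹)) := by
          rw [hy]
          field_simp
          norm_num
      _ ≤ E * ((L : ℝ)⁻¹ * (E⁻¹ * E⁻¹)) := by gcongr
      _ = _ := by field_simp

/-- **lower bound** -/
theorem kappa_lower : ∃ a : ℝ, 0 < a ∧ ∀ᶠ L : ℕ in atTop, ∀ κ : ℝ,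
    Tendsto (fun n : ℕ => ((walks L n).ncard : ℝ) ^ ((1 : ℝ) / n)) atTop (𝓝 κ) →
      mu0 * Real.exp (-(L : ℝ) ^ (-1 - a / Real.log (Real.log L))) ≤ κ := by
  obtain ⟨c, hc, hc1, hev⟩ := exists_AA
  obtain ⟨T0, hT0⟩ := eventually_atTop.1 hev
  refine ⟨c / 4, by positivity, ?_⟩
  have hbig : ∀ᶠ L : ℕ in atTop, ((max T0 16 : ℕ) : ℝ) ≤ (L : ℝ) / (2048 * Real.log L) := by
    have h2 := (Real.isLittleO_pow_log_id_atTop (n := 1)).bound
      (show 0 < 1 / (2048 * ((max T0 16 : ℕ) : ℝ)) by
        have : (0 : ℝ) < ((max T0 16 : ℕ) : ℝ) := by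
          have : 0 < max T0 16 := by omega
          exact_mod_cast this
        positivity)
    have h3 : ∀ᶠ x : ℝ in atTop, ((max T0 16 : ℕ) : ℝ) ≤ x / (2048 * Real.log x) := by
      filter_upwards [h2, eventually_ge_atTop 3] with x hx hx1
      have hpos : (0 : ℝ) < ((max T0 16 : ℕ) : ℝ) := by
        have : 0 < max T0 16 := by omega
        exact_mod_cast this
      have hl : 0 < Real.log x := Real.log_pos (by linarith)
      rw [pow_one, Real.norm_of_nonneg hl.le, id, Real.norm_of_nonneg (by linarith)] at hx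
      rw [le_div_iff₀ (by positivity)]
      calc _ = Real.log x * (2048 * ((max T0 16 : ℕ) : ℝ)) := by ring
        _ ≤ (1 / (2048 * ((max T0 16 : ℕ) : ℝ)) * x) * (2048 * ((max T0 16 : ℕ) : ℝ)) := by gcongr
        _ = x := by field_simp
    exact (tendsto_natCast_atTop_atTop (R := ℝ)).eventually h3
  filter_upwards [ev3 c hc hc1, hbig, eventually_ge_atTop 32] with L h1 h2 hL32 κ hκ
  obtain ⟨T, hTy, hT1, hT2, hT3⟩ := h1
  have hTT : ((max T0 16 : ℕ) : ℝ) ≤ T := h2.trans hTy
  have hTT' : max T0 16 ≤ T := by exact_mod_cast hTT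
  have hT16 : 16 ≤ T := (le_max_right _ _).trans hTT'
  have hTpos : (0 : ℝ) < T := by
    have : 0 < T := by omega
    exact_mod_cast this
  have hlogT : 0 ≤ Real.log T := Real.log_nonneg (by exact_mod_cast (by omega : 1 ≤ T))
  set W : ℤ := ⌈256 * Real.log T * T⌉ + 3 with hW
  have hW1 : 256 * Real.log T * T + 3 ≤ W := by
    rw [hW]
    push_cast
    linarith [Int.le_ceil (256 * Real.log T * T)]
  have hW2 : (W : ℝ) ≤ 256 * Real.log T * T + 4 := by
    rw [hW]
    push_cast
    linarith [(Int.ceil_lt_add_one (256 * Real.log T * T)).le]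
  have hW0 : 0 ≤ W := by
    have : (0 : ℝ) ≤ W := by
      have : 0 ≤ 256 * Real.log T * T := by positivity
      linarith
    exact_mod_cast this
  have hWL : 2 * W + 4 ≤ L := by
    have : 2 * (W : ℝ) + 4 ≤ L := by linarith
    exact_mod_cast this
  set X : ℕ := (W * (2 * T + 1)).toNat with hX
  have hXn : 0 ≤ W * (2 * (T : ℤ) + 1) := by positivity
  have hX1 : W * (2 * T + 1) ≤ X := by
    rw [hX, Int.toNat_of_nonneg hXn]
  obtain ⟨ε, hε, N, hNX, hN, hAA⟩ := hT0 T ((le_max_left _ _).trans hTT') W hW1 X hX1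
  have hL0 : (0 : ℝ) < L := by positivity
  have hT1' : (1 : ℝ) ≤ T := by exact_mod_cast (by omega : 1 ≤ T)
  have hTp : 1 ≤ (T : ℝ) ^ (1 + c / Real.log (Real.log T)) := by
    apply Real.one_le_rpow hT1'
    have : 0 ≤ c / Real.log (Real.log T) := by
      apply div_nonneg hc.le
      apply Real.log_nonneg
      have h16 : (16 : ℝ) ≤ T := by exact_mod_cast hT16
      rw [Real.le_log_iff_exp_le (by linarith)]
      have := Real.exp_one_lt_d9
      linarith
    linarith
  have hN1 : 1 ≤ N := by
    have : (1 : ℝ) ≤ N := hTp.trans hN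
    exact_mod_cast this
  have hX0 : (0 : ℝ) < X := by
    have : 0 < X := by omega
    exact_mod_cast this
  have hXL : (X : ℝ) ≤ L * L := by
    have h3 : (X : ℤ) = W * (2 * T + 1) := by rw [hX, Int.toNat_of_nonneg hXn]
    have h4 : (X : ℤ) ≤ L * L := by
      rw [h3]
      have h5 : (2 : ℤ) * T + 1 ≤ L := by exact_mod_cast hT2
      have h6 : W ≤ L := by omega
      exact mul_le_mul h6 h5 (by positivity) (by positivity)
    exact_mod_cast h4
  have hTL : (T : ℝ) ≤ L := by
    have : T ≤ L := by omega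
    exact_mod_cast this
  have hy : 32 * (T : ℝ) * X ≤ (L : ℝ) ^ 4 := by
    have h32 : (32 : ℝ) ≤ L := by exact_mod_cast hL32
    calc 32 * (T : ℝ) * X ≤ L * L * (L * L) := by gcongr
      _ = _ := by ring
  have h5 := kappa_ge hκ hε hW0 hWL hN1 (y := 32 * T * X) (by positivity) hAA
  refine le_trans ?_ h5
  apply mul_le_mul_of_nonneg_left _ mu0_pos.le
  apply Real.exp_le_exp.2
  apply neg_le_neg
  refine le_trans ?_ hT3
  have hlog4 : Real.log (32 * T * X) ≤ 4 * Real.log L := by
    have := Real.log_le_log (by positivity) hy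
    rw [Real.log_pow] at this
    exact_mod_cast this
  have hlogL : 0 ≤ 4 * Real.log L := by
    have : (1 : ℝ) ≤ L := by exact_mod_cast (by omega : 1 ≤ L)
    have := Real.log_nonneg this
    linarith
  exact div_le_div₀ hlogL hlog4 (by linarith) hN

end Pool.Agent.U508.ST
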