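import Pool.Agent.U508.ST.Count

set_option autoImplicit false

/-! Mirror images, and long walks in a vertical strip by concatenation of bridges. -/

namespace Pool.Agent.U508.ST

open H978R2.Hex Pool.Agent.W818.TD

/-- the reflection which keeps the levels -/
def sg (v : V) : V := (v.1 - v.2 + (-v.2 - (v.1 - v.2) / 2), -v.2 - (v.1 - v.2) / 2)

theorem sg_lev (v : V) : (sg v).1 - (sg v).2 = v.1 - v.2 := by
  unfold sg
  simp only
  ring

theorem sg_lat (v : V) : lat (sg v) = -lat v + 2 * ((v.1 - v.2) % 2) := by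
  unfold sg lat
  simp only
  omega

theorem sg_sg (v : V) : sg (sg v) = v := by
  unfold sg
  apply Prod.ext
  · simp only
    omega
  · simp only
    omega

theorem sg_inj : Function.Injective sg := fun a b h => by rw [← sg_sg a, h, sg_sg]

theorem adj_sg {p q : V} (h : Adj p q) : Adj (sg p) (sg q) := by
  rw [adj_iff] at *
  unfold sg
  simp only
  omega

/-- mirror image -/
def mir (β : List V) : List V := β.map sg

theorem mir_inj : Function.Injective mir := List.map_injective_iff.2 sg_inj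

theorem la_mir {β : List V} (h : β ≠ []) : la (mir β) = sg (la β) := by
  unfold mir
  rw [la_eq h, la_eq (by simpa using h), List.getLast_map]

theorem mir_EBr {β : List V} (h : EBr β) : EBr (mir β) := by
  have hl' : hl (mir β) = hl β := by
    unfold hl
    rw [la_mir h.ne, sg_lev]
  refine ⟨?_, ?_, h.nd.map sg_inj, ?_, ?_, ?_⟩
  · unfold mir
    rw [List.head?_map, h.hd]
    rfl
  · unfold mir
    rw [List.isChain_map]
    exact h.ch.imp fun {a b} hab => adj_sg hab
  · intro w hw
    unfold mir at hw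
    rw [← List.map_tail, List.mem_map] at hw
    obtain ⟨u, hu, rfl⟩ := hw
    rw [sg_lev]
    exact h.pos u hu
  · intro w hw
    unfold mir at hw
    rw [List.mem_map] at hw
    obtain ⟨u, hu, rfl⟩ := hw
    rw [sg_lev, hl']
    exact h.top u hu
  · rw [hl']
    exact h.ev

/-- bridges with `N` steps near to the vertical line, displacement of sign `ε` -/
def AA (ε W : ℤ) (N : ℕ) : Set (List V) :=
  {β | EBr β ∧ β.length = N + 1 ∧ (∀ v ∈ β, |lat v| ≤ W) ∧ 0 ≤ ε * lat (la β)}

/-- concatenated bridges -/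
def CC (W : ℤ) (N k : ℕ) : Set (List V) :=
  {γ | EBr γ ∧ γ.length = k * N + 1 ∧ |lat (la γ)| ≤ W ∧ ∀ v ∈ γ, |lat v| ≤ 2 * W + 2}

theorem CC_sub (W : ℤ) (N k : ℕ) : CC W N k ⊆ SA (k * N) :=
  fun _ h => ⟨⟨h.2.1, h.1.ch, h.1.nd⟩, h.1.hd⟩

theorem AA_sub (ε W : ℤ) (N : ℕ) : AA ε W N ⊆ SA N :=
  fun _ h => ⟨⟨h.2.1, h.1.ch, h.1.nd⟩, h.1.hd⟩

open Classical in
/-- one step -/
noncomputable def flp (ε : ℤ) (p : V) (β : List V) : List V := if 0 < ε * lat p then mir β else β

theorem flp_inj (ε : ℤ) (p : V) : Function.Injective (flp ε p) := by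
  intro β β' h
  unfold flp at h
  split_ifs at h with h1
  · exact mir_inj h
  · exact h

theorem flp_EBr {ε : ℤ} {p : V} {β : List V} (h : EBr β) : EBr (flp ε p β) := by
  unfold flp
  split_ifs
  · exact mir_EBr h
  · exact h

theorem flp_len {ε : ℤ} {p : V} {β : List V} : (flp ε p β).length = β.length := by
  unfold flp
  split_ifs
  · unfold mir; rw [List.length_map]
  · rfl

theorem step_mem {ε W : ℤ} (hε : ε = 1 ∨ ε = -1) {N k : ℕ} {γ β : List V} (hγ : γ ∈ CC W N k)
    (hβ : β ∈ AA ε W N) : cat γ (flp ε (la γ) β) ∈ CC W N (k + 1) := by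
  obtain ⟨g1, g2, g3, g4⟩ := hγ
  obtain ⟨b1, b2, b3, b4⟩ := hβ
  have hE := flp_EBr (ε := ε) (p := la γ) b1
  have hlatla : |lat (la β)| ≤ W := b3 _ (la_mem b1.ne)
  have hev := b1.la_even
  rw [abs_le] at g3 hlatla
  refine ⟨cat_EBr g1 hE, ?_, ?_, ?_⟩
  · rw [cat_length hE.ne, g2, flp_len, b2]
    ring_nf
    omega
  · rw [la_cat hE]
    have e : lat (la (flp ε (la γ) β) + la γ) = lat (la (flp ε (la γ) β)) + lat (la γ) := by
      unfold lat
      simp only [Prod.fst_add, Prod.snd_add]
      ring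
    rw [e]
    unfold flp
    split_ifs with h
    · rw [la_mir b1.ne, sg_lat, abs_le]
      rcases hε with rfl | rfl <;> omega
    · rw [abs_le]
      rcases hε with rfl | rfl <;> omega
  · intro v hv
    unfold cat at hv
    rw [List.mem_append] at hv
    rcases hv with hv | hv
    · exact g4 v hv
    · rw [mem_tr] at hv
      have hv' := List.mem_of_mem_tail hv
      have e : lat v = lat (v - la γ) + lat (la γ) := by
        unfold lat
        simp only [Prod.fst_sub, Prod.snd_sub]
        ring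
      rw [e]
      unfold flp at hv'
      split_ifs at hv' with h
      · unfold mir at hv'
        rw [List.mem_map] at hv'
        obtain ⟨u, hu, hu2⟩ := hv'
        rw [← hu2, sg_lat]
        have h5 := b3 u hu
        rw [abs_le] at h5 ⊢
        rcases hε with rfl | rfl <;> omega
      · have h5 := b3 _ hv'
        rw [abs_le] at h5 ⊢
        rcases hε with rfl | rfl <;> omega

theorem step_inj {ε W : ℤ} {N k : ℕ} : Set.InjOn
    (fun q : List V × List V => cat q.1 (flp ε (la q.1) q.2)) (CC W N k ×ˢ AA ε W N) := by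
  rintro ⟨γ, β⟩ ⟨hγ, hβ⟩ ⟨γ', β'⟩ ⟨hγ', hβ'⟩ h
  simp only at h hγ hβ hγ' hβ'
  unfold cat at h
  have hlen : γ.length = γ'.length := by rw [hγ.2.1, hγ'.2.1]
  obtain ⟨e1, e2⟩ := List.append_inj h hlen
  subst e1
  have e3 : (flp ε (la γ) β).tail = (flp ε (la γ) β').tail := by
    unfold tr at e2
    exact List.map_injective_iff.2 (fun a b hab => by simpa using hab) e2
  obtain ⟨t, ht⟩ := (flp_EBr (ε := ε) (p := la γ) hβ.1).cons
  obtain ⟨t', ht'⟩ := (flp_EBr (ε := ε) (p := la γ) hβ'.1).cons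
  rw [ht, ht'] at e3
  simp only [List.tail_cons] at e3
  have e4 : flp ε (la γ) β = flp ε (la γ) β' := by rw [ht, ht', e3]
  rw [flp_inj _ _ e4]

theorem CC_card {ε W : ℤ} (hε : ε = 1 ∨ ε = -1) (hW : 0 ≤ W) (N k : ℕ) :
    (AA ε W N).ncard ^ k ≤ (CC W N k).ncard := by
  induction k with
  | zero =>
    rw [pow_zero]
    have h : [((0, 0) : V)] ∈ CC W N 0 := by
      refine ⟨EBr_triv, by simp, ?_, ?_⟩
      · simp [la, lat, hW]
      · intro v hv
        rw [List.mem_singleton.1 hv]
        simp [lat]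
        omega
    exact Nat.one_le_iff_ne_zero.2 (Set.ncard_ne_zero_of_mem h
      ((SA_finite _).subset (CC_sub W N 0)))
  | succ k ih =>
    calc (AA ε W N).ncard ^ (k + 1) = (AA ε W N).ncard ^ k * (AA ε W N).ncard := pow_succ _ _
      _ ≤ (CC W N k).ncard * (AA ε W N).ncard := Nat.mul_le_mul_right _ ih
      _ = (CC W N k ×ˢ AA ε W N).ncard := (Set.ncard_prod).symm
      _ ≤ (CC W N (k + 1)).ncard := by
        apply Set.ncard_le_ncard_of_injOn _ _ (step_inj (ε := ε))
          ((SA_finite _).subset (CC_sub W N (k + 1)))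
        rintro ⟨γ, β⟩ ⟨hγ, hβ⟩
        exact step_mem hε hγ hβ

end Pool.Agent.U508.ST
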