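import Pool.Agent.U508.ST.Count2
import Pool.Agent.U508.ST.Mir

set_option autoImplicit false

/-! The strips in the brick-wall coordinates with horizontal rows, submultiplicativity. -/

namespace Pool.Agent.U508.ST

open H978R2.Hex Pool.Agent.W818.TD Filter
open scoped Topology

/-- adjacency -/
def Nbr (p q : ℤ × ℤ) : Prop :=
  (p.2 = q.2 ∧ (p.1 - q.1 = 1 ∨ q.1 - p.1 = 1)) ∨
    (p.1 = q.1 ∧ ((q.2 = p.2 + 1 ∧ Even (p.1 + p.2)) ∨ (p.2 = q.2 + 1 ∧ Even (q.1 + q.2))))

/-- the walks with `n` steps in the strip of width `L`, starting in the rows `0` and `1` -/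
def walks (L n : ℕ) : Set (Fin (n + 1) → ℤ × ℤ) :=
  {ω | ((ω 0).2 = 0 ∨ (ω 0).2 = 1) ∧ Function.Injective ω ∧
    (∀ i : Fin n, Nbr (ω i.castSucc) (ω i.succ)) ∧ ∀ i, 0 ≤ (ω i).1 ∧ (ω i).1 < L}

theorem nbr_iff {p q : ℤ × ℤ} : Nbr p q ↔
    (p.2 = q.2 ∧ (p.1 - q.1 = 1 ∨ q.1 - p.1 = 1)) ∨
    (p.1 = q.1 ∧ ((q.2 = p.2 + 1 ∧ (p.1 + p.2) % 2 = 0) ∨ (p.2 = q.2 + 1 ∧ (q.1 + q.2) % 2 = 0))) := by
  unfold Nbr
  rw [Int.even_iff, Int.even_iff]

/-- change of coordinates -/
def ri (p : ℤ × ℤ) : V := ((p.1 + p.2) / 2 + p.2, (p.1 + p.2 + 1) / 2 - p.2)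

theorem ri_ri (p : ℤ × ℤ) : ri (ri p) = p := by
  unfold ri
  apply Prod.ext
  · simp only
    omega
  · simp only
    omega

theorem ri_inj : Function.Injective ri := fun a b h => by rw [← ri_ri a, h, ri_ri]

theorem nbr_adj {p q : ℤ × ℤ} : Nbr p q ↔ Adj p q := by
  rw [nbr_iff, adj_iff]
  omega

theorem ri_adj {p q : V} (h : Adj p q) : Adj (ri p) (ri q) := by
  rw [adj_iff] at *
  unfold ri
  simp only
  rcases h with h | h | h | h
  · have e1 : q.1 = p.1 + 1 := by omega
    have e2 : q.2 = p.2 := by omega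
    rw [e1, e2]
    omega
  · have e1 : q.1 = p.1 - 1 := by omega
    have e2 : q.2 = p.2 := by omega
    rw [e1, e2]
    omega
  · have e1 : q.1 = p.1 := by omega
    have e2 : q.2 = p.2 + 1 := by omega
    rw [e1, e2]
    omega
  · have e1 : p.1 = q.1 := by omega
    have e2 : p.2 = q.2 + 1 := by omega
    rw [e1, e2]
    omega

theorem walks_finite (L n : ℕ) : (walks L n).Finite := by
  have hsub : walks L n ⊆ Set.pi Set.univ (fun _ : Fin (n + 1) =>
      Set.Icc ((0 : ℤ), -(n : ℤ) - 1) ((L : ℤ), (n : ℤ) + 1)) := by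
    rintro ω ⟨h0, -, h2, h3⟩ i -
    have key : ∀ t (ht : t < n + 1), |(ω ⟨t, ht⟩).2| ≤ (t : ℤ) + 1 := by
      intro t
      induction t with
      | zero =>
        intro ht
        have : (⟨0, ht⟩ : Fin (n + 1)) = 0 := rfl
        rw [this, abs_le]
        push_cast
        omega
      | succ t ih =>
        intro ht
        have h4 := h2 ⟨t, by omega⟩
        have h5 := ih (by omega)
        rw [nbr_iff] at h4
        simp only [Fin.castSucc_mk, Fin.succ_mk] at h4
        rw [abs_le] at h5 ⊢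
        push_cast
        omega
    have h6 := key i.1 i.2
    have h7 := h3 i
    have h8 := i.2
    rw [abs_le] at h6
    simp only [Fin.eta] at h6
    rw [Set.mem_Icc, Prod.le_def, Prod.le_def]
    simp only
    omega
  exact (Set.Finite.pi' fun _ => Set.finite_Icc _ _).subset (by
    intro ω hω i
    exact hsub hω i (Set.mem_univ _))

theorem submul (L n m : ℕ) : (walks L (n + m)).ncard ≤ (walks L n).ncard * (walks L m).ncard := by
  rw [← Set.ncard_prod]
  have hfin : (walks L n ×ˢ walks L m).Finite := (walks_finite L n).prod (walks_finite L m)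
  let f : (Fin (n + m + 1) → ℤ × ℤ) → (Fin (n + 1) → ℤ × ℤ) × (Fin (m + 1) → ℤ × ℤ) := fun ω =>
    (fun i => ω ⟨i.1, by omega⟩,
      fun i => ω ⟨n + i.1, by omega⟩ - (0, 2 * ((ω ⟨n, by omega⟩).2 / 2)))
  refine Set.ncard_le_ncard_of_injOn f ?_ ?_ hfin
  · rintro ω ⟨h0, h1, h2, h3⟩
    refine ⟨⟨?_, ?_, ?_, ?_⟩, ⟨?_, ?_, ?_, ?_⟩⟩
    · exact h0
    · intro i j hij
      have := h1 hij
      simp only [Fin.mk.injEq] at this
      exact Fin.ext this
    · intro i
      exact h2 ⟨i.1, by omega⟩
    · intro i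
      exact h3 _
    · simp only [f, Fin.val_zero, add_zero, Prod.snd_sub]
      omega
    · intro i j hij
      simp only [f] at hij
      have := h1 (sub_left_injective hij)
      simp only [Fin.mk.injEq] at this
      exact Fin.ext (by omega)
    · intro i
      have h4 := h2 ⟨n + i.1, by omega⟩
      simp only [f]
      simp only [Fin.castSucc_mk, Fin.succ_mk] at h4
      rw [nbr_iff] at h4 ⊢
      simp only [Prod.fst_sub, Prod.snd_sub, Fin.val_castSucc, Fin.val_succ, sub_zero]
      have e : n + i.1 + 1 = n + (i.1 + 1) := by omega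
      simp only [e] at h4
      omega
    · intro i
      have h4 := h3 ⟨n + i.1, by omega⟩
      simp only [f, Prod.fst_sub, sub_zero]
      exact h4
  · rintro ω - ω' - h
    simp only [f, Prod.mk.injEq] at h
    obtain ⟨ha, hb⟩ := h
    have hn : ω ⟨n, by omega⟩ = ω' ⟨n, by omega⟩ := congrFun ha ⟨n, by omega⟩
    funext i
    rcases Nat.lt_or_ge i.1 (n + 1) with hi | hi
    · exact congrFun ha ⟨i.1, hi⟩
    · have h5 := congrFun hb ⟨i.1 - n, by omega⟩
      simp only at h5
      rw [hn] at h5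
      have h6 := sub_left_injective h5
      have e : n + (i.1 - n) = i.1 := by omega
      simp only [e] at h6
      exact h6

/-- existence of the limit -/
theorem exists_lim (L : ℕ) : ∃ κ : ℝ, 0 ≤ κ ∧
    Tendsto (fun n : ℕ => ((walks L n).ncard : ℝ) ^ ((1 : ℝ) / n)) atTop (𝓝 κ) ∧
    ∀ n : ℕ, 1 ≤ n → κ ^ n ≤ (walks L n).ncard := by
  by_cases h : ∃ n0, (walks L n0).ncard = 0
  · obtain ⟨n0, h0⟩ := h
    refine ⟨0, le_rfl, ?_, ?_⟩
    · apply tendsto_const_nhds.congr'
      filter_upwards [eventually_ge_atTop (n0 + 1)] with n hn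
      have h1 := submul L n0 (n - n0)
      have e : n0 + (n - n0) = n := by omega
      rw [e, h0, zero_mul] at h1
      have h2 : (walks L n).ncard = 0 := by omega
      have hn0 : (0 : ℝ) < n := by
        have : 0 < n := by omega
        exact_mod_cast this
      rw [h2, Nat.cast_zero, Real.zero_rpow (by positivity)]
    · intro n hn
      rw [zero_pow (by omega)]
      exact Nat.cast_nonneg _
  · push Not at h
    have hpos : ∀ n, (1 : ℝ) ≤ (walks L n).ncard := fun n => by
      exact_mod_cast Nat.one_le_iff_ne_zero.2 (h n)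
    have hsub : Subadditive (fun n => Real.log ((walks L n).ncard : ℝ)) := by
      intro n m
      simp only
      have a1 : (0 : ℝ) < (walks L n).ncard := by linarith [hpos n]
      have a2 : (0 : ℝ) < (walks L m).ncard := by linarith [hpos m]
      rw [← Real.log_mul a1.ne' a2.ne']
      apply Real.log_le_log (by linarith [hpos (n + m)])
      exact_mod_cast submul L n m
    have hbdd : BddBelow (Set.range fun n : ℕ => Real.log ((walks L n).ncard : ℝ) / n) := by
      refine ⟨0, ?_⟩
      rintro _ ⟨n, rfl⟩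
      exact div_nonneg (Real.log_nonneg (hpos n)) (Nat.cast_nonneg _)
    refine ⟨Real.exp hsub.lim, (Real.exp_pos _).le, ?_, ?_⟩
    · have h1 := (Real.continuous_exp.tendsto _).comp (hsub.tendsto_lim hbdd)
      refine h1.congr fun n => ?_
      simp only [Function.comp_apply]
      rw [Real.rpow_def_of_pos (by linarith [hpos n])]
      congr 1
      ring
    · intro n hn
      have h1 := hsub.lim_le_div hbdd (n := n) (by omega)
      have hn0 : (0 : ℝ) < n := by exact_mod_cast hn
      rw [le_div_iff₀ hn0] at h1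
      rw [← Real.exp_nat_mul, ← Real.exp_log (show (0 : ℝ) < (walks L n).ncard by linarith [hpos n])]
      apply Real.exp_le_exp.2
      linarith

end Pool.Agent.U508.ST
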