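import Pool.Agent.U508.ST.Dec
import Pool.Agent.H978R2.Hex.Rn

set_option autoImplicit false

/-! The number of walks in a vertical strip. -/

namespace Pool.Agent.U508.ST

open H978R2.Hex Pool.Agent.W818.TD
open scoped ENNReal

theorem SA_eq (n : ℕ) : SA n = (fun f : Fin (n + 1) → V => List.ofFn f) '' saws n := by
  ext w
  constructor
  · rintro ⟨h, h0⟩
    have hl := h.len
    refine ⟨fun i => w[i.1]'(by omega), ⟨?_, ?_, ?_⟩, ?_⟩
    · match w, h0 with
      | a :: t, h0 =>
        simp only [List.head?_cons, Option.some.injEq] at h0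
        show a = 0
        rw [h0]
        rfl
    · intro i j hij
      have := (h.nd.getElem_inj_iff).1 hij
      exact Fin.ext this
    · intro i
      exact (List.isChain_iff_getElem.1 h.ch) i.1 (by have := i.2; omega)
    · apply List.ext_getElem
      · simp [hl]
      · intro i h1 h2
        simp only [List.getElem_ofFn]
  · rintro ⟨f, ⟨h0, h1, h2⟩, rfl⟩
    refine ⟨⟨by simp, ?_, List.nodup_ofFn.2 h1⟩, ?_⟩
    · rw [List.isChain_iff_getElem]
      intro i hi
      simp only [List.length_ofFn] at hi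
      simp only [List.getElem_ofFn]
      exact h2 ⟨i, by omega⟩
    · simp only [List.ofFn_succ, List.head?_cons, h0]
      rfl

theorem SA_finite (n : ℕ) : (SA n).Finite := by
  rw [SA_eq]
  exact (saws_finite n).image _

theorem SA_ncard (n : ℕ) : (SA n).ncard = (saws n).ncard := by
  rw [SA_eq]
  exact Set.ncard_image_of_injective _ List.ofFn_injective

theorem BN_sub (s : ℤ) (k : ℕ) (H : ℤ) : BN s k H ⊆ SA k :=
  fun _ hβ => ⟨⟨hβ.2.1, hβ.1.ch, hβ.1.nd⟩, hβ.1.hd⟩

theorem BN_finite (s : ℤ) (k : ℕ) (H : ℤ) : (BN s k H).Finite := (SA_finite k).subset (BN_sub s k H)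

/-- height of a bridge is at most its length -/
theorem hl_le {β : List V} (h : β.IsChain Adj) (h0 : β.head? = some (0, 0)) : hl β ≤ (β.length : ℤ) - 1 := by
  have hne : β ≠ [] := by
    rintro rfl
    simp at h0
  have key : ∀ t (ht : t < β.length), lev β[t] ≤ t := by
    intro t
    induction t with
    | zero =>
      intro ht
      match β, h0 with
      | a :: l, h0 =>
        simp only [List.head?_cons, Option.some.injEq] at h0
        simp [h0, lev]
    | succ t ih =>
      intro ht
      have h1 := adj_lev ((List.isChain_iff_getElem.1 h) t ht)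
      have h2 := ih (by omega)
      rw [abs_le] at h1
      push_cast
      omega
  have hpos := List.length_pos_of_ne_nil hne
  have := key (β.length - 1) (by omega)
  unfold hl
  rw [la_eq hne, List.getLast_eq_getElem]
  unfold lev at this
  omega

theorem xc_pow (k : ℕ) : (mu0⁻¹) ^ k * mu0 ^ k = 1 := by
  rw [← mul_pow, inv_mul_cancel₀ mu0_pos.ne', one_pow]

/-- the critical mass of narrow bridges -/
theorem BN_mass {s : ℤ} (hs : 1 ≤ s) (k N : ℕ) (hN : 1 ≤ N) :
    ((BN s k (2 + 16 * s * N)).ncard : ℝ) ≤ mu0 ^ k * ((k + 1) * (4 * (1 / 2) ^ N)) := by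
  classical
  set H : ℤ := 2 + 16 * s * N with hH
  set F := (BN_finite s k H).toFinset with hF
  have hFm : ∀ β, β ∈ F ↔ β ∈ BN s k H := by
    intro β
    rw [hF, Set.Finite.mem_toFinset]
  have hsN : 0 ≤ s * (N : ℤ) := by positivity
  have e16 : 16 * s * (N : ℤ) = 16 * (s * N) := by ring
  have h1 : ∑ β ∈ F, Wt β ≤ ∑ h ∈ Finset.Icc (0 : ℤ) k, ENNReal.ofReal ((1 / 2) ^ N * 4) := by
    have hsplit : ∑ β ∈ F, Wt β = ∑ h ∈ Finset.Icc (0 : ℤ) k, ∑ β ∈ F with hl β = h, Wt β := by
      rw [Finset.sum_fiberwise_of_maps_to]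
      intro β hβ
      rw [hFm] at hβ
      have h2 := hl_le hβ.1.ch hβ.1.hd
      rw [hβ.2.1] at h2
      have h3 := hβ.2.2.1
      rw [Finset.mem_Icc]
      push_cast at h2
      omega
    rw [hsplit]
    refine Finset.sum_le_sum fun h _ => ?_
    by_cases hex : ∃ β ∈ F, hl β = h
    · obtain ⟨β0, hβ0, hβh⟩ := hex
      rw [hFm] at hβ0
      have hev := hβ0.1.ev
      rw [hβh] at hev
      have hge := hβ0.2.2.1
      rw [hβh] at hge
      set e : ℤ := h - H with he
      have hnar := M_narrow s hs N hN e (by omega) (by omega) 2 (by norm_num) (by norm_num)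
      refine le_trans (le_M _ (S := {β | EBr β ∧ hl β = 2 + 16 * s * N + e ∧
        Nar s e (e + 16 * s * N) β}) ?_) (hnar.trans ?_)
      · intro β hβ
        rw [Finset.mem_filter, hFm] at hβ
        refine ⟨hβ.1.1, by omega, ?_⟩
        intro v hv v' hv' _ _ _ _
        exact hβ.1.2.2.2 v hv v' hv'
      · calc _ ≤ ENNReal.ofReal ((1 / 2) ^ N * 4) * 1 := by
              gcongr
              exact M_le_one 2
          _ = _ := mul_one _
    · have : F.filter (fun β => hl β = h) = ∅ := by
        rw [Finset.filter_eq_empty_iff]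
        intro β hβ hh
        exact hex ⟨β, hβ, hh⟩
      rw [this, Finset.sum_empty]
      exact zero_le
  have h2 : ∑ β ∈ F, Wt β = ENNReal.ofReal ((F.card : ℝ) * (mu0⁻¹) ^ k) := by
    have : ∀ β ∈ F, Wt β = ENNReal.ofReal ((mu0⁻¹) ^ k) := by
      intro β hβ
      rw [hFm] at hβ
      unfold Wt
      rw [hβ.2.1]
      simp
    rw [Finset.sum_congr rfl this, Finset.sum_const, nsmul_eq_mul, ENNReal.ofReal_mul (by positivity),
      ENNReal.ofReal_natCast]
  rw [h2, Finset.sum_const, nsmul_eq_mul, Int.card_Icc] at h1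
  have h3 : ((k : ℤ) + 1 - 0).toNat = k + 1 := by omega
  rw [h3, ← ENNReal.ofReal_natCast, ← ENNReal.ofReal_mul (by positivity),
    ENNReal.ofReal_le_ofReal_iff (by positivity)] at h1
  have h4 : ((BN s k H).ncard : ℝ) = F.card := by
    rw [hF, Set.ncard_eq_toFinset_card _ (BN_finite s k H)]
  rw [h4]
  have hm := pow_pos mu0_pos k
  have hx := xc_pow k
  calc (F.card : ℝ) = mu0 ^ k * ((F.card : ℝ) * (mu0⁻¹) ^ k) := by
        rw [mul_comm (mu0 ^ k), mul_assoc, hx, mul_one]
    _ ≤ mu0 ^ k * (((k + 1 : ℕ) : ℝ) * ((1 / 2) ^ N * 4)) := mul_le_mul_of_nonneg_left h1 hm.le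
    _ = _ := by push_cast; ring

end Pool.Agent.U508.ST
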