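import Pool.Agent.U508.ST.Count

set_option autoImplicit false

/-! The number of walks in a vertical strip: the upper bound. -/

namespace Pool.Agent.U508.ST

open H978R2.Hex Pool.Agent.W818.TD

theorem lev_count {n : ℕ} {w : List V} (hw : SW n w) {s : ℤ} (hs1 : 1 ≤ s)
    (hs : ∀ v ∈ w, ∀ v' ∈ w, lat v - lat v' ≤ 4 * s - 1) :
    ∃ a b : ℕ, a ≤ n ∧ b ≤ n ∧
      (n : ℤ) + 1 ≤ s * (lev (w.getD b (0, 0)) - lev (w.getD a (0, 0)) + 1) := by
  classical
  have hlen := hw.len
  have hne : w.toFinset.Nonempty := by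
    rw [List.toFinset_nonempty_iff]
    rintro rfl
    simp at hlen
  obtain ⟨u, hu, humin⟩ := w.toFinset.exists_min_image lev hne
  obtain ⟨v, hv, hvmax⟩ := w.toFinset.exists_max_image lev hne
  obtain ⟨z, hz, hzmin⟩ := w.toFinset.exists_min_image lat hne
  simp only [List.mem_toFinset] at hu hv hz humin hvmax hzmin
  obtain ⟨a, ha, hau⟩ := List.mem_iff_getElem.1 hu
  obtain ⟨b, hb, hbv⟩ := List.mem_iff_getElem.1 hv
  refine ⟨a, b, by omega, by omega, ?_⟩
  rw [List.getD_eq_getElem _ _ ha, List.getD_eq_getElem _ _ hb, hau, hbv]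
  set A := lat z with hA
  have hsub : w.toFinset ⊆ ((Finset.Icc (lev u) (lev v)) ×ˢ (Finset.range s.toNat)).image
      (fun q : ℤ × ℕ => (q.1 + (-((q.1 - A) / 4) + q.2), -((q.1 - A) / 4) + (q.2 : ℤ))) := by
    intro x hx
    rw [List.mem_toFinset] at hx
    have h1 := humin x hx
    have h2 := hvmax x hx
    have h3 := hzmin x hx
    have h4 := hs x hx z hz
    rw [Finset.mem_image]
    unfold lat at h3 h4 hA
    refine ⟨(lev x, (x.2 + (lev x - A) / 4).toNat), ?_, ?_⟩
    · rw [Finset.mem_product, Finset.mem_Icc, Finset.mem_range]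
      refine ⟨⟨h1, h2⟩, ?_⟩
      simp only
      unfold lev
      omega
    · simp only
      unfold lev
      have : (((x.2 + (x.1 - x.2 - A) / 4).toNat : ℕ) : ℤ) = x.2 + (x.1 - x.2 - A) / 4 := by
        rw [Int.toNat_of_nonneg]
        omega
      rw [this]
      apply Prod.ext
      · simp only
        omega
      · simp only
        omega
  have hcard := Finset.card_le_card hsub
  rw [List.toFinset_card_of_nodup hw.nd, hlen] at hcard
  have h5 := hcard.trans Finset.card_image_le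
  rw [Finset.card_product, Int.card_Icc, Finset.card_range] at h5
  have h6 : ((n + 1 : ℕ) : ℤ) ≤ (((lev v + 1 - lev u).toNat * s.toNat : ℕ) : ℤ) := by exact_mod_cast h5
  push_cast at h6
  have h7 : lev u ≤ lev v := humin v hv
  rw [Int.toNat_of_nonneg (by omega), Int.toNat_of_nonneg (by omega)] at h6
  linarith

theorem BN_mono {s : ℤ} {k : ℕ} {H H' : ℤ} (h : H ≤ H') : BN s k H' ⊆ BN s k H :=
  fun _ hβ => ⟨hβ.1, hβ.2.1, h.trans hβ.2.2.1, hβ.2.2.2⟩

theorem SW.rev {n : ℕ} {w : List V} (h : SW n w) : SW n w.reverse :=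
  ⟨by rw [List.length_reverse, h.len], chain_rev h.ch, List.nodup_reverse.2 h.nd⟩

theorem dec2 {n : ℕ} {w : List V} (hw : SW n w) {s : ℤ} (hs1 : 1 ≤ s)
    (hs : ∀ v ∈ w, ∀ v' ∈ w, lat v - lat v' ≤ 4 * s - 1) {N : ℕ}
    (hN : s * (5 + 16 * s * N) ≤ n + 1) :
    ∃ j, j < n + 1 ∧ ∃ i, i < j + 1 ∧ ∃ p : V, ∃ P' ∈ SA i, ∃ β ∈ BN s (j - i) (2 + 16 * s * N),
      ∃ Q' ∈ SA (n - j), w = asm p P' β Q' ∨ w.reverse = asm p P' β Q' := by
  obtain ⟨a, b, ha, hb, hab⟩ := lev_count hw hs1 hs
  have hlen := hw.len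
  set m0 := lev (w.getD a (0, 0)) with hm0
  set M0 := lev (w.getD b (0, 0)) with hM0
  have h1 : 5 + 16 * s * N ≤ M0 - m0 + 1 := by
    have h2 : s * (5 + 16 * s * N) ≤ s * (M0 - m0 + 1) := hN.trans hab
    exact le_of_mul_le_mul_left h2 (by omega)
  have hsN : 0 ≤ s * (N : ℤ) := by positivity
  have e16 : 16 * s * (N : ℤ) = 16 * (s * N) := by ring
  set m := m0 + m0 % 2 with hm
  set M := M0 - M0 % 2 with hM
  rcases Nat.le_total a b with hc | hc
  · obtain ⟨i, j, hij, hj, p, P', hP, β, hβ, Q', hQ, e⟩ := dec hw hs hc hb (m := m) (M := M)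
      (by omega) (by omega) (by omega) (by omega) (by omega)
    exact ⟨j, by omega, i, by omega, p, P', hP, β, BN_mono (by omega) hβ, Q', hQ, Or.inl e⟩
  · have hr : ∀ t, t ≤ n → w.reverse.getD (n - t) (0, 0) = w.getD t (0, 0) := by
      intro t ht
      rw [List.getD_eq_getElem _ _ (by rw [List.length_reverse]; omega),
        List.getD_eq_getElem _ _ (by omega), List.getElem_reverse]
      congr 1
      omega
    obtain ⟨i, j, hij, hj, p, P', hP, β, hβ, Q', hQ, e⟩ := dec hw.rev (s := s)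
      (fun v hv v' hv' => hs v (List.mem_reverse.1 hv) v' (List.mem_reverse.1 hv'))
      (a := n - a) (b := n - b) (by omega) (by omega) (m := m) (M := M)
      (by omega) (by omega) (by omega) (by rw [hr a ha]; omega) (by rw [hr b hb]; omega)
    exact ⟨j, by omega, i, by omega, p, P', hP, β, BN_mono (by omega) hβ, Q', hQ, Or.inr e⟩

/-- walks in a strip starting in a finite set -/
def WF (n : ℕ) (s : ℤ) (F : Finset V) : Set (List V) :=
  {w | SW n w ∧ (∀ v ∈ w, ∀ v' ∈ w, lat v - lat v' ≤ 4 * s - 1) ∧ ∃ x ∈ F, w.head? = some x}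

theorem asm_tr (p : V) (P' β Q' : List V) : asm p P' β Q' = tr p (asm 0 P' β Q') := by
  unfold asm
  have h : ∀ l l' : List V, tr p (l ++ l') = tr p l ++ tr p l' := by
    intro l l'
    unfold tr
    rw [List.map_append]
  rw [h, h, tr_tr, ← tr_rev, tr_tr, tr_tr, zero_add]
  have e : 0 + la β + p = p + la β := by abel
  rw [e]

theorem head_asm {p x : V} {l : List V} (h : (tr p l).head? = some x) : p = x - l.headD (0, 0) := by
  match l, h with
  | [], h => simp [tr] at h
  | a :: t, h =>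
    unfold tr at h
    simp only [List.map_cons, List.head?_cons, Option.some.injEq] at h
    rw [← h]
    simp

theorem last_asm {p x : V} {l : List V} (h : (tr p l).reverse.head? = some x) : p = x - la l := by
  rw [List.head?_reverse] at h
  by_cases hl : l = []
  · subst hl
    simp [tr] at h
  · have h2 := la_tr (c := p) hl
    have h3 : la (tr p l) = x := by
      unfold la
      rw [List.getLastD_eq_getLast?, h]
      rfl
    rw [h3] at h2
    rw [h2]
    abel

theorem WF_card {n : ℕ} {s : ℤ} (hs1 : 1 ≤ s) (F : Finset V) {N : ℕ}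
    (hN : s * (5 + 16 * s * N) ≤ n + 1) :
    ∃ T : Finset (List V), WF n s F ⊆ (T : Set (List V)) ∧
    T.card ≤ ∑ j ∈ Finset.range (n + 1), ∑ i ∈ Finset.range (j + 1),
      2 * (F.card * ((SA i).ncard * ((BN s (j - i) (2 + 16 * s * N)).ncard * (SA (n - j)).ncard))) := by
  classical
  let f1 : V × List V × List V × List V → List V := fun q =>
    tr (q.1 - (asm 0 q.2.1 q.2.2.1 q.2.2.2).headD (0, 0)) (asm 0 q.2.1 q.2.2.1 q.2.2.2)
  let f2 : V × List V × List V × List V → List V := fun q =>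
    (tr (q.1 - la (asm 0 q.2.1 q.2.2.1 q.2.2.2)) (asm 0 q.2.1 q.2.2.1 q.2.2.2)).reverse
  let X : ℕ → ℕ → Finset (V × List V × List V × List V) := fun j i =>
    F ×ˢ ((SA_finite i).toFinset ×ˢ ((BN_finite s (j - i) (2 + 16 * s * N)).toFinset ×ˢ
      (SA_finite (n - j)).toFinset))
  let T : Finset (List V) := (Finset.range (n + 1)).biUnion fun j =>
    (Finset.range (j + 1)).biUnion fun i => (X j i).image f1 ∪ (X j i).image f2
  have hsub : WF n s F ⊆ (T : Set (List V)) := by
    rintro w ⟨hw, hsp, x, hx, hhd⟩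
    obtain ⟨j, hj, i, hi, p, P', hP, β, hβ, Q', hQ, e⟩ := dec2 hw hs1 hsp hN
    rw [Finset.mem_coe, Finset.mem_biUnion]
    refine ⟨j, Finset.mem_range.2 hj, ?_⟩
    rw [Finset.mem_biUnion]
    refine ⟨i, Finset.mem_range.2 hi, ?_⟩
    have hmem : (x, P', β, Q') ∈ X j i := by
      simp only [X, Finset.mem_product, Set.Finite.mem_toFinset]
      exact ⟨hx, hP, hβ, hQ⟩
    rw [Finset.mem_union, Finset.mem_image, Finset.mem_image]
    rcases e with e | e
    · left
      refine ⟨_, hmem, ?_⟩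
      simp only [f1]
      rw [e, asm_tr] at hhd
      rw [← head_asm hhd, ← asm_tr, ← e]
    · right
      refine ⟨_, hmem, ?_⟩
      simp only [f2]
      have e' : w = (tr p (asm 0 P' β Q')).reverse := by
        rw [← asm_tr, ← e, List.reverse_reverse]
      have hhd' := hhd
      rw [e'] at hhd'
      rw [← last_asm hhd', ← e']
  refine ⟨T, hsub, Finset.card_biUnion_le.trans (Finset.sum_le_sum fun j _ =>
    Finset.card_biUnion_le.trans (Finset.sum_le_sum fun i _ => ?_))⟩
  have hX : (X j i).card = F.card * ((SA i).ncard * ((BN s (j - i) (2 + 16 * s * N)).ncard *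
      (SA (n - j)).ncard)) := by
    simp only [X, Finset.card_product]
    rw [Set.ncard_eq_toFinset_card _ (SA_finite i), Set.ncard_eq_toFinset_card _ (BN_finite s (j - i) _),
      Set.ncard_eq_toFinset_card _ (SA_finite (n - j))]
  calc _ ≤ ((X j i).image f1).card + ((X j i).image f2).card := Finset.card_union_le _ _
    _ ≤ (X j i).card + (X j i).card := add_le_add Finset.card_image_le Finset.card_image_le
    _ = _ := by rw [hX]; ring

/-- **upper bound** -/
theorem WF_le {n : ℕ} {s : ℤ} (hs1 : 1 ≤ s) (F : Finset V) {N : ℕ} (hN1 : 1 ≤ N)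
    (hN : s * (5 + 16 * s * N) ≤ n + 1) {D r : ℝ} (hr : mu0 ≤ r)
    (hD : ∀ i, ((saws i).ncard : ℝ) ≤ D * r ^ i) :
    ∃ T : Finset (List V), WF n s F ⊆ (T : Set (List V)) ∧
      (T.card : ℝ) ≤ 8 * F.card * D ^ 2 * (n + 1) ^ 3 * r ^ n * (1 / 2) ^ N := by
  have hm := mu0_pos
  have hr0 : 0 < r := hm.trans_le hr
  have hD0 : 0 ≤ D := by
    have := hD 0
    rw [pow_zero, mul_one] at this
    exact (Nat.cast_nonneg _).trans this
  obtain ⟨T, hT, h0⟩ := WF_card hs1 F hN
  have h1 : (T.card : ℝ) ≤ ((∑ j ∈ Finset.range (n + 1), ∑ i ∈ Finset.range (j + 1),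
      2 * (F.card * ((SA i).ncard * ((BN s (j - i) (2 + 16 * s * N)).ncard * (SA (n - j)).ncard))) : ℕ) : ℝ) := by
    exact_mod_cast h0
  refine ⟨T, hT, h1.trans ?_⟩
  push_cast
  have hterm : ∀ j ∈ Finset.range (n + 1), ∀ i ∈ Finset.range (j + 1),
      (2 : ℝ) * (F.card * ((SA i).ncard * ((BN s (j - i) (2 + 16 * s * N)).ncard *
        (SA (n - j)).ncard))) ≤ 8 * F.card * D ^ 2 * (n + 1) * r ^ n * (1 / 2) ^ N := by
    intro j hj i hi
    rw [Finset.mem_range] at hj hi
    have a1 := hD i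
    have a2 := hD (n - j)
    have a3 := BN_mass hs1 (j - i) N hN1
    rw [SA_ncard, SA_ncard]
    have a4 : mu0 ^ (j - i) ≤ r ^ (j - i) := pow_le_pow_left₀ hm.le hr _
    have a5 : ((j - i : ℕ) : ℝ) + 1 ≤ n + 1 := by
      have : j - i ≤ n := by omega
      have : ((j - i : ℕ) : ℝ) ≤ n := by exact_mod_cast this
      linarith
    have a6 : ((BN s (j - i) (2 + 16 * s * N)).ncard : ℝ) ≤
        r ^ (j - i) * ((n + 1) * (4 * (1 / 2) ^ N)) := by
      refine a3.trans ?_
      gcongr
    calc (2 : ℝ) * (F.card * ((saws i).ncard * ((BN s (j - i) (2 + 16 * s * N)).ncard *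
          (saws (n - j)).ncard)))
        ≤ 2 * (F.card * ((D * r ^ i) * ((r ^ (j - i) * ((n + 1) * (4 * (1 / 2) ^ N))) *
          (D * r ^ (n - j))))) := by gcongr
      _ = 8 * F.card * D ^ 2 * (n + 1) * (r ^ i * r ^ (j - i) * r ^ (n - j)) * (1 / 2) ^ N := by ring
      _ = _ := by
        rw [← pow_add, ← pow_add]
        have : i + (j - i) + (n - j) = n := by omega
        rw [this]
  calc _ ≤ ∑ j ∈ Finset.range (n + 1), ∑ i ∈ Finset.range (j + 1),
        8 * F.card * D ^ 2 * (n + 1) * r ^ n * (1 / 2) ^ N :=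
        Finset.sum_le_sum fun j hj => Finset.sum_le_sum fun i hi => hterm j hj i hi
    _ ≤ ∑ j ∈ Finset.range (n + 1), ((n + 1 : ℕ) : ℝ) *
        (8 * F.card * D ^ 2 * (n + 1) * r ^ n * (1 / 2) ^ N) := by
        refine Finset.sum_le_sum fun j hj => ?_
        rw [Finset.sum_const, nsmul_eq_mul, Finset.card_range]
        refine mul_le_mul_of_nonneg_right ?_ (by positivity)
        rw [Finset.mem_range] at hj
        exact_mod_cast hj
    _ = _ := by
        rw [Finset.sum_const, nsmul_eq_mul, Finset.card_range]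
        push_cast
        ring

end Pool.Agent.U508.ST
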