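import Pool.Agent.W818.TD.Refl

set_option autoImplicit false

/-! Decomposition of a walk in a vertical strip: a long bridge and two remaining pieces. -/

namespace Pool.Agent.U508.ST

open H978R2.Hex Pool.Agent.W818.TD

/-- level -/
def lev (v : V) : ℤ := v.1 - v.2
/-- lateral coordinate -/
def lat (v : V) : ℤ := v.1 + 3 * v.2

/-- walks with `n` steps, as lists -/
structure SW (n : ℕ) (w : List V) : Prop where
  len : w.length = n + 1
  ch : w.IsChain Adj
  nd : w.Nodup

/-- walks from the origin -/
def SA (n : ℕ) : Set (List V) := {w | SW n w ∧ w.head? = some (0, 0)}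

/-- narrow bridges of height at least `H` -/
def BN (s : ℤ) (k : ℕ) (H : ℤ) : Set (List V) :=
  {β | EBr β ∧ β.length = k + 1 ∧ H ≤ hl β ∧ ∀ v ∈ β, ∀ v' ∈ β, lat v - lat v' ≤ 4 * s - 1}

/-- assembly -/
def asm (p : V) (P' β Q' : List V) : List V :=
  (tr p P').reverse ++ (tr p β.tail ++ tr (p + la β) Q'.tail)

theorem idx (g : ℕ → ℤ) (a b : ℕ) (hab : a ≤ b)
    (hstep : ∀ t, a ≤ t → t < b → |g (t + 1) - g t| ≤ 1) (m M : ℤ) (ha : g a ≤ m) (hb : M ≤ g b)
    (hmM : m ≤ M) : ∃ i j, a ≤ i ∧ i ≤ j ∧ j ≤ b ∧ g i = m ∧ g j = M ∧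
      (∀ t, i < t → t ≤ j → m < g t) ∧ (∀ t, i ≤ t → t < j → g t < M) := by
  classical
  obtain ⟨i, hi, hmax⟩ := ((Finset.Icc a b).filter (fun t => g t ≤ m)).exists_max_image id
    ⟨a, by simp [hab, ha]⟩
  simp only [Finset.mem_filter, Finset.mem_Icc, id] at hi hmax
  obtain ⟨⟨hi1, hi2⟩, hi3⟩ := hi
  have hgt : ∀ t, i < t → t ≤ b → m < g t := by
    intro t h1 h2
    by_contra h
    have := hmax t ⟨⟨by omega, h2⟩, by omega⟩
    omega
  obtain ⟨j, hj, hmin⟩ := ((Finset.Icc i b).filter (fun t => M ≤ g t)).exists_min_image id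
    ⟨b, by simp [hi2, hb]⟩
  simp only [Finset.mem_filter, Finset.mem_Icc, id] at hj hmin
  obtain ⟨⟨hj1, hj2⟩, hj3⟩ := hj
  have hlt : ∀ t, i ≤ t → t < j → g t < M := by
    intro t h1 h2
    by_contra h
    have := hmin t ⟨⟨h1, by omega⟩, by omega⟩
    omega
  have hgi : g i = m := by
    rcases Nat.lt_or_ge i b with h | h
    · have h1 := hgt (i + 1) (by omega) (by omega)
      have h2 := hstep i hi1 h
      rw [abs_le] at h2
      omega
    · have : i = b := by omega
      subst this
      omega
  have hgj : g j = M := by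
    rcases Nat.eq_or_lt_of_le hj1 with h | h
    · subst h
      omega
    · have h1 := hlt (j - 1) (by omega) (by omega)
      have h2 := hstep (j - 1) (by omega) (by omega)
      rw [abs_le] at h2
      have e : j - 1 + 1 = j := by omega
      rw [e] at h2
      omega
  exact ⟨i, j, hi1, hj1, hj2, hgi, hgj, fun t h1 h2 => hgt t h1 (by omega), hlt⟩

theorem adj_lev {p q : V} (h : Adj p q) : |lev q - lev p| ≤ 1 := by
  rw [adj_iff] at h
  unfold lev
  rw [abs_le]
  omega

theorem adj_symm' {p q : V} (h : Adj p q) : Adj q p := by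
  rw [adj_iff] at *
  omega

theorem chain_rev {l : List V} (h : l.IsChain Adj) : l.reverse.IsChain Adj := by
  rw [List.isChain_reverse]
  exact h.imp fun {a b} hab => adj_symm' hab

theorem tr_zero (l : List V) : tr 0 l = l := by
  unfold tr
  simp

theorem tr_cancel (c : V) (l : List V) : tr c (tr (-c) l) = l := by
  rw [tr_tr]
  simp only [neg_add_cancel]
  exact tr_zero l

theorem tr_rev (c : V) (l : List V) : (tr c l).reverse = tr c l.reverse := by
  unfold tr
  rw [List.map_reverse]

theorem head_tr {c : V} {l : List V} {a : V} (h : l.head? = some a) : (tr c l).head? = some (a + c) := by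
  unfold tr
  rw [List.head?_map, h]
  rfl

/-- the decomposition, monotone case -/
theorem dec {n : ℕ} {w : List V} (hw : SW n w) {s : ℤ}
    (hs : ∀ v ∈ w, ∀ v' ∈ w, lat v - lat v' ≤ 4 * s - 1) {a b : ℕ} (hab : a ≤ b) (hb : b ≤ n)
    {m M : ℤ} (hm : m % 2 = 0) (hM : M % 2 = 0) (hmM : m ≤ M)
    (h1 : lev (w.getD a (0, 0)) ≤ m) (h2 : M ≤ lev (w.getD b (0, 0))) :
    ∃ i j, i ≤ j ∧ j ≤ n ∧ ∃ p : V, ∃ P' ∈ SA i, ∃ β ∈ BN s (j - i) (M - m), ∃ Q' ∈ SA (n - j),
      w = asm p P' β Q' := by
  have hlen := hw.len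
  have hstep : ∀ t, t + 1 < w.length → Adj (w.getD t (0, 0)) (w.getD (t + 1) (0, 0)) := by
    intro t ht
    rw [List.getD_eq_getElem _ _ (by omega), List.getD_eq_getElem _ _ ht]
    exact (List.isChain_iff_getElem.1 hw.ch) t ht
  obtain ⟨i, j, hi1, hij, hj, hgi, hgj, hlo, hhi⟩ := idx (fun t => lev (w.getD t (0, 0))) a b hab
    (fun t _ h => adj_lev (hstep t (by omega))) m M h1 h2 hmM
  have hiw : i < w.length := by omega
  have hjw : j < w.length := by omega
  rw [List.getD_eq_getElem _ _ hiw] at hgi
  rw [List.getD_eq_getElem _ _ hjw] at hgj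
  set wi := w[i] with hwi
  set wj := w[j] with hwj
  have pi : ((-wi).1 + (-wi).2) % 2 = 0 := by
    unfold lev at hgi
    simp only [Prod.fst_neg, Prod.snd_neg]
    omega
  have pj : ((-wj).1 + (-wj).2) % 2 = 0 := by
    unfold lev at hgj
    simp only [Prod.fst_neg, Prod.snd_neg]
    omega
  -- the middle part
  set Mid := (w.drop i).take (j - i + 1) with hMid
  have hMidl : Mid.length = j - i + 1 := by
    rw [hMid, List.length_take, List.length_drop]
    omega
  have hMidne : Mid ≠ [] := by
    intro h
    rw [h] at hMidl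
    simp at hMidl
  have hMidget : ∀ t (ht : t < Mid.length), Mid[t] = w[i + t]'(by omega) := by
    intro t ht
    simp only [hMid, List.getElem_take, List.getElem_drop]
  have hMidc : Mid = wi :: (w.drop (i + 1)).take (j - i) := by
    rw [hMid, List.drop_eq_getElem_cons hiw, List.take_succ_cons]
  have hMidlast : la Mid = wj := by
    rw [la_eq hMidne, List.getLast_eq_getElem, hMidget]
    have e : i + (Mid.length - 1) = j := by omega
    simp only [e]
    rfl
  have hMids : Mid.Sublist w := by
    rw [hMid]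
    exact (List.take_sublist _ _).trans (List.drop_sublist _ _)
  have hlevMid : ∀ v ∈ Mid, ∃ t, i ≤ t ∧ t ≤ j ∧ lev v = lev (w.getD t (0, 0)) := by
    intro v hv
    obtain ⟨t, ht, rfl⟩ := List.mem_iff_getElem.1 hv
    refine ⟨i + t, by omega, by omega, ?_⟩
    rw [hMidget, List.getD_eq_getElem _ _ (by omega)]
  have hlevTail : ∀ v ∈ Mid.tail, m < lev v := by
    intro v hv
    obtain ⟨t, ht, rfl⟩ := List.mem_iff_getElem.1 hv
    rw [List.length_tail] at ht
    rw [List.getElem_tail, hMidget]
    have := hlo (i + (t + 1)) (by omega) (by omega)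
    rw [List.getD_eq_getElem _ _ (by omega)] at this
    exact this
  set β := tr (-wi) Mid with hβ
  have hβla : la β = wj - wi := by
    rw [hβ, la_tr hMidne, hMidlast]
    abel
  have hβhl : hl β = M - m := by
    unfold hl
    rw [hβla]
    unfold lev at hgi hgj
    simp only [Prod.fst_sub, Prod.snd_sub]
    omega
  have hβE : EBr β := by
    refine ⟨?_, chain_tr pi ?_, nodup_tr (hw.nd.sublist hMids), ?_, ?_, ?_⟩
    · rw [hβ, hMidc]
      unfold tr
      simp only [List.map_cons, List.head?_cons, Option.some.injEq]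
      rw [add_neg_cancel]
      rfl
    · rw [hMid]
      exact (hw.ch.drop i).take _
    · intro u hu
      have : β.tail = tr (-wi) Mid.tail := by
        rw [hβ]
        unfold tr
        rw [List.map_tail]
      rw [this, mem_tr] at hu
      have h3 := hlevTail _ hu
      unfold lev at h3 hgi
      simp only [Prod.fst_sub, Prod.snd_sub, Prod.fst_neg, Prod.snd_neg] at h3
      omega
    · intro u hu
      rw [hβhl]
      rw [hβ, mem_tr] at hu
      obtain ⟨t, ht1, ht2, ht3⟩ := hlevMid _ hu
      have h4 : lev (w.getD t (0, 0)) ≤ M := by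
        rcases Nat.lt_or_ge t j with h | h
        · exact (hhi t ht1 h).le
        · have : t = j := by omega
          rw [this, List.getD_eq_getElem _ _ hjw]
          exact hgj.le
      unfold lev at ht3 h4 hgi
      simp only [Prod.fst_sub, Prod.snd_sub, Prod.fst_neg, Prod.snd_neg] at ht3
      omega
    · rw [hβhl]
      omega
  have hdropj : w.drop j = wj :: w.drop (j + 1) := List.drop_eq_getElem_cons hjw
  refine ⟨i, j, hij, by omega, wi, tr (-wi) (w.take (i + 1)).reverse, ?_, β, ?_,
    tr (-wj) (w.drop j), ?_, ?_⟩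
  · refine ⟨⟨?_, ?_, ?_⟩, ?_⟩
    · rw [tr_length, List.length_reverse, List.length_take]
      omega
    · exact chain_tr pi (chain_rev (hw.ch.take _))
    · exact nodup_tr (List.nodup_reverse.2 (hw.nd.sublist (List.take_sublist _ _)))
    · have : (w.take (i + 1)).reverse.head? = some wi := by
        rw [List.head?_reverse, List.getLast?_take]
        simp [hiw, hwi]
      rw [head_tr this, add_neg_cancel]
      rfl
  · refine ⟨hβE, ?_, hβhl.ge, ?_⟩
    · rw [hβ, tr_length, hMidl]
    · intro v hv v' hv'
      rw [hβ, mem_tr] at hv hv'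
      have := hs _ (hMids.subset hv) _ (hMids.subset hv')
      unfold lat at this ⊢
      simp only [Prod.fst_sub, Prod.snd_sub, Prod.fst_neg, Prod.snd_neg] at this
      omega
  · refine ⟨⟨?_, ?_, ?_⟩, ?_⟩
    · rw [tr_length, List.length_drop]
      omega
    · exact chain_tr pj (hw.ch.drop _)
    · exact nodup_tr (hw.nd.sublist (List.drop_sublist _ _))
    · have : (w.drop j).head? = some wj := by rw [hdropj]; rfl
      rw [head_tr this, add_neg_cancel]
      rfl
  · unfold asm
    rw [hβla]
    have e1 : wi + (wj - wi) = wj := by abel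
    rw [e1, tr_cancel, List.reverse_reverse]
    have e2 : tr wi β.tail = (w.drop (i + 1)).take (j - i) := by
      rw [hβ, hMidc]
      unfold tr
      simp only [List.map_cons, List.tail_cons, List.map_map]
      conv_rhs => rw [← List.map_id ((w.drop (i + 1)).take (j - i))]
      apply List.map_congr_left
      intro v _
      simp
    have e3 : tr wj (tr (-wj) (w.drop j)).tail = w.drop (j + 1) := by
      rw [hdropj]
      unfold tr
      simp only [List.map_cons, List.tail_cons, List.map_map]
      conv_rhs => rw [← List.map_id (w.drop (j + 1))]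
      apply List.map_congr_left
      intro v _
      simp
    rw [e2, e3]
    have e4 : w.drop (j + 1) = (w.drop (i + 1)).drop (j - i) := by
      rw [List.drop_drop]
      congr 1
      omega
    rw [e4, List.take_append_drop, List.take_append_drop]

end Pool.Agent.U508.ST
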