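import Pool.Agent.U508.ST.Up
import Pool.Agent.U508.ST.LowC

set_option autoImplicit false

/-! Critical mass of the long walks in a strip: counting with the height. -/

namespace Pool.Agent.U508.ST

open H978R2.Hex Pool.Agent.W818.TD

theorem dec3 {n : ℕ} {w : List V} (hw : SW n w) {s : ℤ} (hs1 : 1 ≤ s)
    (hs : ∀ v ∈ w, ∀ v' ∈ w, lat v - lat v' ≤ 4 * s - 1) {N : ℕ} {a b : ℕ} (ha : a ≤ n)
    (hb : b ≤ n) (hab : 4 + 16 * s * N ≤ lev (w.getD b (0, 0)) - lev (w.getD a (0, 0))) :
    ∃ j, j < n + 1 ∧ ∃ i, i < j + 1 ∧ ∃ p : V, ∃ P' ∈ SA i, ∃ β ∈ BN s (j - i) (2 + 16 * s * N),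
      ∃ Q' ∈ SA (n - j), w = asm p P' β Q' ∨ w.reverse = asm p P' β Q' := by
  have hlen := hw.len
  set m0 := lev (w.getD a (0, 0)) with hm0
  set M0 := lev (w.getD b (0, 0)) with hM0
  have hsN : 0 ≤ s * (N : ℤ) := by positivity
  have e16 : 16 * s * (N : ℤ) = 16 * (s * N) := by ring
  set m := m0 + m0 % 2 with hm
  set M := M0 - M0 % 2 with hM
  rcases Nat.le_total a b with hc | hc
  · obtain ⟨i, j, hij, hj, p, P', hP, β, hβ, Q', hQ, e⟩ := dec hw hs hc hb (m := m) (M := M)
      (by omega) (by omega) (by omega) (by omega) (by omega)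
    exact ⟨j, by omega, i, by omega, p, P', hP, β, BN_mono (by omega) hβ, Q', hQ, Or.inl e⟩
  · have hr : ∀ t, t ≤ n → w.reverse.getD (n - t) (0, 0) = w.getD t (0, 0) := by
      intro t ht
      rw [List.getD_eq_getElem _ _ (by rw [List.length_reverse]; omega),
        List.getD_eq_getElem _ _ (by omega), List.getElem_reverse]
      congr 1
      omega
    obtain ⟨i, j, hij, hj, p, P', hP, β, hβ, Q', hQ, e⟩ := dec hw.rev (s := s)
      (fun v hv v' hv' => hs v (List.mem_reverse.1 hv) v' (List.mem_reverse.1 hv'))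
      (a := n - a) (b := n - b) (by omega) (by omega) (m := m) (M := M)
      (by omega) (by omega) (by omega) (by rw [hr a ha]; omega) (by rw [hr b hb]; omega)
    exact ⟨j, by omega, i, by omega, p, P', hP, β, BN_mono (by omega) hβ, Q', hQ, Or.inr e⟩

/-- the walks in a strip whose levels have large extent -/
def WG (n : ℕ) (s : ℤ) (F : Finset V) (N : ℕ) : Set (List V) :=
  {w | w ∈ WF n s F ∧ ∃ a b : ℕ, a ≤ n ∧ b ≤ n ∧
    4 + 16 * s * N ≤ lev (w.getD b (0, 0)) - lev (w.getD a (0, 0))}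

theorem WF_WG {n : ℕ} {s : ℤ} (hs1 : 1 ≤ s) (F : Finset V) {N : ℕ}
    (hN : s * (5 + 16 * s * N) ≤ n + 1) : WF n s F ⊆ WG n s F N := by
  intro w hw
  obtain ⟨a, b, ha, hb, hab⟩ := lev_count hw.1 hs1 hw.2.1
  refine ⟨hw, a, b, ha, hb, ?_⟩
  have h2 : s * (5 + 16 * s * N) ≤ s * (lev (w.getD b (0, 0)) - lev (w.getD a (0, 0)) + 1) :=
    hN.trans hab
  have := le_of_mul_le_mul_left h2 (by omega)
  linarith

theorem WG_card {n : ℕ} {s : ℤ} (hs1 : 1 ≤ s) (F : Finset V) (N : ℕ) :
    ∃ T : Finset (List V), WG n s F N ⊆ (T : Set (List V)) ∧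
    T.card ≤ ∑ j ∈ Finset.range (n + 1), ∑ i ∈ Finset.range (j + 1),
      2 * (F.card * ((SA i).ncard * ((BN s (j - i) (2 + 16 * s * N)).ncard * (SA (n - j)).ncard))) := by
  classical
  let f1 : V × List V × List V × List V → List V := fun q =>
    tr (q.1 - (asm 0 q.2.1 q.2.2.1 q.2.2.2).headD (0, 0)) (asm 0 q.2.1 q.2.2.1 q.2.2.2)
  let f2 : V × List V × List V × List V → List V := fun q =>
    (tr (q.1 - la (asm 0 q.2.1 q.2.2.1 q.2.2.2)) (asm 0 q.2.1 q.2.2.1 q.2.2.2)).reverse
  let X : ℕ → ℕ → Finset (V × List V × List V × List V) := fun j i =>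
    F ×ˢ ((SA_finite i).toFinset ×ˢ ((BN_finite s (j - i) (2 + 16 * s * N)).toFinset ×ˢ
      (SA_finite (n - j)).toFinset))
  let T : Finset (List V) := (Finset.range (n + 1)).biUnion fun j =>
    (Finset.range (j + 1)).biUnion fun i => (X j i).image f1 ∪ (X j i).image f2
  have hsub : WG n s F N ⊆ (T : Set (List V)) := by
    rintro w ⟨⟨hw, hsp, x, hx, hhd⟩, a, b, ha, hb, hab⟩
    obtain ⟨j, hj, i, hi, p, P', hP, β, hβ, Q', hQ, e⟩ := dec3 hw hs1 hsp ha hb hab
    rw [Finset.mem_coe, Finset.mem_biUnion]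
    refine ⟨j, Finset.mem_range.2 hj, ?_⟩
    rw [Finset.mem_biUnion]
    refine ⟨i, Finset.mem_range.2 hi, ?_⟩
    have hmem : (x, P', β, Q') ∈ X j i := by
      simp only [X, Finset.mem_product, Set.Finite.mem_toFinset]
      exact ⟨hx, hP, hβ, hQ⟩
    rw [Finset.mem_union, Finset.mem_image, Finset.mem_image]
    rcases e with e | e
    · left
      refine ⟨_, hmem, ?_⟩
      simp only [f1]
      rw [e, asm_tr] at hhd
      rw [← head_asm hhd, ← asm_tr, ← e]
    · right
      refine ⟨_, hmem, ?_⟩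
      simp only [f2]
      have e' : w = (tr p (asm 0 P' β Q')).reverse := by
        rw [← asm_tr, ← e, List.reverse_reverse]
      have hhd' := hhd
      rw [e'] at hhd'
      rw [← last_asm hhd', ← e']
  refine ⟨T, hsub, Finset.card_biUnion_le.trans (Finset.sum_le_sum fun j _ =>
    Finset.card_biUnion_le.trans (Finset.sum_le_sum fun i _ => ?_))⟩
  have hX : (X j i).card = F.card * ((SA i).ncard * ((BN s (j - i) (2 + 16 * s * N)).ncard *
      (SA (n - j)).ncard)) := by
    simp only [X, Finset.card_product]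
    rw [Set.ncard_eq_toFinset_card _ (SA_finite i), Set.ncard_eq_toFinset_card _ (BN_finite s (j - i) _),
      Set.ncard_eq_toFinset_card _ (SA_finite (n - j))]
  calc _ ≤ ((X j i).image f1).card + ((X j i).image f2).card := Finset.card_union_le _ _
    _ ≤ (X j i).card + (X j i).card := add_le_add Finset.card_image_le Finset.card_image_le
    _ = _ := by rw [hX]; ring

theorem SA_ge_one (n : ℕ) : (1 : ℝ) ≤ (saws n).ncard := by
  have := saws_pos n
  have h : 0 < (saws n).ncard := by exact_mod_cast this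
  exact_mod_cast h

/-- walks of a strip with given extent of the levels -/
theorem WG_le {n : ℕ} {s : ℤ} (hs1 : 1 ≤ s) (F : Finset V) {N : ℕ} (hN1 : 1 ≤ N) {A : ℝ}
    (hA : ∀ i, i ≤ n → ((saws i).ncard : ℝ) ≤ A * mu0 ^ i) :
    ∃ T : Finset (List V), WG n s F N ⊆ (T : Set (List V)) ∧
      (T.card : ℝ) * (mu0⁻¹) ^ n ≤ 8 * F.card * A ^ 2 * (n + 1) ^ 3 * (1 / 2) ^ N := by
  have hm := mu0_pos
  have hA0 : 0 ≤ A := by
    have := hA 0 (by omega)
    rw [pow_zero, mul_one] at this
    exact (Nat.cast_nonneg _).trans this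
  obtain ⟨T, hT, h0⟩ := WG_card (n := n) hs1 F N
  refine ⟨T, hT, ?_⟩
  have h1 : (T.card : ℝ) ≤ ((∑ j ∈ Finset.range (n + 1), ∑ i ∈ Finset.range (j + 1),
      2 * (F.card * ((SA i).ncard * ((BN s (j - i) (2 + 16 * s * N)).ncard * (SA (n - j)).ncard))) : ℕ) : ℝ) := by
    exact_mod_cast h0
  have hterm : ∀ j ∈ Finset.range (n + 1), ∀ i ∈ Finset.range (j + 1),
      (2 : ℝ) * (F.card * ((SA i).ncard * ((BN s (j - i) (2 + 16 * s * N)).ncard *
        (SA (n - j)).ncard))) ≤ 8 * F.card * A ^ 2 * (n + 1) * mu0 ^ n * (1 / 2) ^ N := by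
    intro j hj i hi
    rw [Finset.mem_range] at hj hi
    have a1 := hA i (by omega)
    have a2 := hA (n - j) (by omega)
    have a3 := BN_mass hs1 (j - i) N hN1
    rw [SA_ncard, SA_ncard]
    have a5 : ((j - i : ℕ) : ℝ) + 1 ≤ n + 1 := by
      have : j - i ≤ n := by omega
      have : ((j - i : ℕ) : ℝ) ≤ n := by exact_mod_cast this
      linarith
    have a6 : ((BN s (j - i) (2 + 16 * s * N)).ncard : ℝ) ≤
        mu0 ^ (j - i) * ((n + 1) * (4 * (1 / 2) ^ N)) := by
      refine a3.trans ?_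
      gcongr
    calc (2 : ℝ) * (F.card * ((saws i).ncard * ((BN s (j - i) (2 + 16 * s * N)).ncard *
          (saws (n - j)).ncard)))
        ≤ 2 * (F.card * ((A * mu0 ^ i) * ((mu0 ^ (j - i) * ((n + 1) * (4 * (1 / 2) ^ N))) *
          (A * mu0 ^ (n - j))))) := by gcongr
      _ = 8 * F.card * A ^ 2 * (n + 1) * (mu0 ^ i * mu0 ^ (j - i) * mu0 ^ (n - j)) * (1 / 2) ^ N := by
          ring
      _ = _ := by
        rw [← pow_add, ← pow_add]
        have : i + (j - i) + (n - j) = n := by omega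
        rw [this]
  have h2 : (T.card : ℝ) ≤ 8 * F.card * A ^ 2 * (n + 1) ^ 3 * mu0 ^ n * (1 / 2) ^ N := by
    refine h1.trans ?_
    push_cast
    calc _ ≤ ∑ j ∈ Finset.range (n + 1), ∑ i ∈ Finset.range (j + 1),
          8 * F.card * A ^ 2 * (n + 1) * mu0 ^ n * (1 / 2) ^ N :=
          Finset.sum_le_sum fun j hj => Finset.sum_le_sum fun i hi => hterm j hj i hi
      _ ≤ ∑ j ∈ Finset.range (n + 1), ((n + 1 : ℕ) : ℝ) *
          (8 * F.card * A ^ 2 * (n + 1) * mu0 ^ n * (1 / 2) ^ N) := by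
          refine Finset.sum_le_sum fun j hj => ?_
          rw [Finset.sum_const, nsmul_eq_mul, Finset.card_range]
          refine mul_le_mul_of_nonneg_right ?_ (by positivity)
          rw [Finset.mem_range] at hj
          exact_mod_cast hj
      _ = _ := by
          rw [Finset.sum_const, nsmul_eq_mul, Finset.card_range]
          push_cast
          ring
  have hx := xc_pow n
  calc (T.card : ℝ) * (mu0⁻¹) ^ n ≤
        (8 * F.card * A ^ 2 * (n + 1) ^ 3 * mu0 ^ n * (1 / 2) ^ N) * (mu0⁻¹) ^ n := by gcongr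
    _ = 8 * F.card * A ^ 2 * (n + 1) ^ 3 * (1 / 2) ^ N * ((mu0⁻¹) ^ n * mu0 ^ n) := by ring
    _ = _ := by rw [hx, mul_one]

/-- all walks of a strip -/
theorem WF_le0 {n : ℕ} {s : ℤ} (F : Finset V) {A : ℝ} (hA1 : 1 ≤ A)
    (hA : ∀ i, i ≤ n → ((saws i).ncard : ℝ) ≤ A * mu0 ^ i) :
    ∃ T : Finset (List V), WF n s F ⊆ (T : Set (List V)) ∧
      (T.card : ℝ) * (mu0⁻¹) ^ n ≤ 8 * F.card * A ^ 2 * (n + 1) ^ 3 := by
  classical
  have hm := mu0_pos
  let T : Finset (List V) := ((F ×ˢ (SA_finite n).toFinset).image (fun q => tr q.1 q.2)) ∪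
    ((F ×ˢ (SA_finite n).toFinset).image (fun q => rf q.1 q.2))
  refine ⟨T, ?_, ?_⟩
  · rintro w ⟨hw, -, x, hx, hhd⟩
    rw [Finset.mem_coe, Finset.mem_union]
    rcases Int.emod_two_eq_zero_or_one (x.1 + x.2) with h | h
    · left
      rw [Finset.mem_image]
      refine ⟨(x, tr (-x) w), ?_, tr_cancel x w⟩
      rw [Finset.mem_product, Set.Finite.mem_toFinset]
      refine ⟨hx, ⟨⟨by rw [tr_length, hw.len], chain_tr ?_ hw.ch, nodup_tr hw.nd⟩, ?_⟩⟩
      · simp only [Prod.fst_neg, Prod.snd_neg]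
        omega
      · rw [head_tr hhd, add_neg_cancel]
        rfl
    · right
      rw [Finset.mem_image]
      refine ⟨(x, rf x w), ?_, ?_⟩
      · rw [Finset.mem_product, Set.Finite.mem_toFinset]
        refine ⟨hx, ⟨⟨?_, ?_, nodup_rf hw.nd⟩, ?_⟩⟩
        · unfold rf
          rw [List.length_map, hw.len]
        · unfold rf
          rw [List.isChain_map]
          exact hw.ch.imp fun {a b} hab => adj_symm' (adj_rf h hab)
        · unfold rf
          rw [List.head?_map, hhd]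
          simp only [Option.map_some, sub_self]
          rfl
      · unfold rf
        rw [List.map_map]
        conv_rhs => rw [← List.map_id w]
        apply List.map_congr_left
        intro v _
        simp
  · have h1 : T.card ≤ 2 * (F.card * (SA n).ncard) := by
      refine (Finset.card_union_le _ _).trans ?_
      have h2 : (F ×ˢ (SA_finite n).toFinset).card = F.card * (SA n).ncard := by
        rw [Finset.card_product, Set.ncard_eq_toFinset_card _ (SA_finite n)]
      have h3 := Finset.card_image_le (s := F ×ˢ (SA_finite n).toFinset) (f := fun q => tr q.1 q.2)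
      have h4 := Finset.card_image_le (s := F ×ˢ (SA_finite n).toFinset) (f := fun q => rf q.1 q.2)
      omega
    have h2 : (T.card : ℝ) ≤ 2 * (F.card * (saws n).ncard) := by
      rw [← SA_ncard]
      exact_mod_cast h1
    have h3 := hA n le_rfl
    have hx := xc_pow n
    have hn : (1 : ℝ) ≤ (n + 1 : ℝ) ^ 3 := one_le_pow₀ (by linarith [Nat.cast_nonneg (α := ℝ) n])
    calc (T.card : ℝ) * (mu0⁻¹) ^ n ≤ (2 * (F.card * (A * mu0 ^ n))) * (mu0⁻¹) ^ n := by
          gcongr
          exact h2.trans (by gcongr)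
      _ = 2 * F.card * A * ((mu0⁻¹) ^ n * mu0 ^ n) := by ring
      _ = 2 * F.card * A := by rw [hx, mul_one]
      _ ≤ 8 * F.card * A ^ 2 * (n + 1) ^ 3 := by
          have h4 : (0 : ℝ) ≤ F.card := Nat.cast_nonneg _
          have h5 : A ≤ A ^ 2 := by nlinarith
          calc 2 * (F.card : ℝ) * A ≤ 8 * F.card * A ^ 2 * 1 := by nlinarith [mul_nonneg h4 (sq_nonneg A), mul_le_mul_of_nonneg_left h5 h4]
            _ ≤ _ := by
              apply mul_le_mul_of_nonneg_left hn
              positivity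

end Pool.Agent.U508.ST
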