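import Pool.Agent.U508.ST.Gap1

set_option autoImplicit false

/-! Exponential decay of the critical mass along a strip. -/

namespace Pool.Agent.U508.ST

open H978R2.Hex Pool.Agent.W818.TD

/-- self-avoiding walks in the strip of width `L` from the row `0` to the row `h` -/
def Sr (L h : ℕ) : Set (List (ℤ × ℤ)) :=
  {l | l.Nodup ∧ l.IsChain Nbr ∧ (∀ p ∈ l, 0 ≤ p.1 ∧ p.1 < L) ∧
    ∃ a b, l.head? = some a ∧ l.getLast? = some b ∧ a.2 = 0 ∧ b.2 = h}

theorem log_sq_le (K : ℝ) (hK : 0 ≤ K) : ∃ C : ℝ, 0 ≤ C ∧ ∀ L : ℝ, 2 ≤ L → ∀ n : ℕ,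
    K * Real.log (n + 2) ^ 2 ≤ 18 * K * Real.log L ^ 2 + Real.log 2 / 64 * (n + 2) / L ^ 2 + C := by
  have hl2 : 0 < Real.log 2 := Real.log_pos (by norm_num)
  set δ := Real.log 2 / 64 with hδ
  have hδ0 : 0 < δ := by positivity
  refine ⟨(16 * K) ^ 2 / δ, by positivity, fun L hL n => ?_⟩
  have hL0 : 0 < L := by linarith
  have hlL : 0 ≤ Real.log L := Real.log_nonneg (by linarith)
  set v : ℝ := (n + 2) / L ^ 3 with hv
  have hv0 : 0 < v := by positivity
  have h1 : Real.log (n + 2) = 3 * Real.log L + Real.log v := by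
    rw [hv, Real.log_div (by positivity) (by positivity), Real.log_pow]
    push_cast
    ring
  have hn0 : 0 ≤ Real.log ((n : ℝ) + 2) := Real.log_nonneg (by linarith [Nat.cast_nonneg (α := ℝ) n])
  have h2 : Real.log (n + 2) ^ 2 ≤ 18 * Real.log L ^ 2 + 2 * (max 0 (Real.log v)) ^ 2 := by
    have h3 : Real.log (n + 2) ≤ 3 * Real.log L + max 0 (Real.log v) := by
      rw [h1]
      linarith [le_max_right 0 (Real.log v)]
    have h4 : 0 ≤ max 0 (Real.log v) := le_max_left _ _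
    nlinarith [sq_nonneg (3 * Real.log L - max 0 (Real.log v))]
  have h5 : (max 0 (Real.log v)) ^ 2 ≤ 16 * Real.sqrt v := by
    have h6 : max 0 (Real.log v) ≤ 4 * v ^ (1 / 4 : ℝ) := by
      apply max_le (by positivity)
      have := Real.log_le_rpow_div hv0.le (show (0 : ℝ) < 1 / 4 by norm_num)
      linarith
    calc (max 0 (Real.log v)) ^ 2 ≤ (4 * v ^ (1 / 4 : ℝ)) ^ 2 :=
          pow_le_pow_left₀ (le_max_left _ _) h6 2
      _ = 16 * Real.sqrt v := by
          rw [mul_pow, ← Real.rpow_natCast (v ^ (1 / 4 : ℝ)), ← Real.rpow_mul hv0.le, Real.sqrt_eq_rpow]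
          norm_num
  have hs := Real.sq_sqrt hv0.le
  have h7 : 32 * K * Real.sqrt v ≤ δ * v + (16 * K) ^ 2 / δ := by
    have e : δ * v + (16 * K) ^ 2 / δ - 32 * K * Real.sqrt v = (δ * Real.sqrt v - 16 * K) ^ 2 / δ := by
      field_simp
      rw [← hs]
      rw [Real.sqrt_sq (Real.sqrt_nonneg v)]
      ring
    have : 0 ≤ (δ * Real.sqrt v - 16 * K) ^ 2 / δ := by positivity
    linarith
  have h8 : δ * v ≤ δ * (n + 2) / L ^ 2 := by
    rw [hv, mul_div_assoc]
    apply mul_le_mul_of_nonneg_left _ hδ0.le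
    apply div_le_div_of_nonneg_left (by positivity) (by positivity)
    exact pow_le_pow_right₀ (by linarith) (by norm_num)
  calc K * Real.log (n + 2) ^ 2 ≤ K * (18 * Real.log L ^ 2 + 2 * (max 0 (Real.log v)) ^ 2) := by gcongr
    _ ≤ K * (18 * Real.log L ^ 2 + 2 * (16 * Real.sqrt v)) := by gcongr
    _ = 18 * K * Real.log L ^ 2 + 32 * K * Real.sqrt v := by ring
    _ ≤ _ := by linarith

/-- the two floor functions -/
theorem floors (S : ℕ) (hS : 1 ≤ S) (h n : ℕ) :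
    (h : ℝ) / (8 * S) - 2 ≤ ((2 * h - 5) / (16 * S) : ℕ) ∧
    ((n : ℝ) + 1) / (16 * S ^ 2) - 2 ≤ (((n + 1) / S - 5) / (16 * S) : ℕ) := by
  have hS' : (1 : ℝ) ≤ S := by exact_mod_cast hS
  have hS0 : (0 : ℝ) < S := by linarith
  constructor
  · set N := (2 * h - 5) / (16 * S) with hN
    have h1 : 2 * h - 5 < 16 * S * (N + 1) := by
      rw [hN]
      exact Nat.lt_mul_div_succ _ (by omega)
    have h2 : 2 * h < 16 * S * (N + 1) + 5 := by omega
    have h3 : (2 : ℝ) * h < 16 * S * (N + 1) + 5 := by exact_mod_cast h2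
    rw [sub_le_iff_le_add, div_le_iff₀ (by positivity)]
    nlinarith
  · set q := (n + 1) / S with hq
    set N := (q - 5) / (16 * S) with hN
    have h1 : q - 5 < 16 * S * (N + 1) := by
      rw [hN]
      exact Nat.lt_mul_div_succ _ (by omega)
    have h0 : n + 1 < S * (q + 1) := by
      rw [hq]
      exact Nat.lt_mul_div_succ _ (by omega)
    have h2 : q + 1 ≤ 16 * S * (N + 1) + 5 := by omega
    have h3 : (q : ℝ) + 1 ≤ 16 * S * (N + 1) + 5 := by exact_mod_cast h2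
    have h4 : (n : ℝ) + 1 < S * (q + 1) := by exact_mod_cast h0
    rw [sub_le_iff_le_add, div_le_iff₀ (by positivity)]
    nlinarith [mul_le_mul_of_nonneg_left h3 hS0.le, sq_nonneg ((S : ℝ) - 1)]

theorem floors_cond (S : ℕ) (hS : 1 ≤ S) (h n : ℕ) :
    (1 ≤ (2 * h - 5) / (16 * S) → 4 + 16 * S * ((2 * h - 5) / (16 * S)) + 1 ≤ 2 * h) ∧
    (1 ≤ ((n + 1) / S - 5) / (16 * S) → S * (5 + 16 * S * (((n + 1) / S - 5) / (16 * S))) ≤ n + 1) := by
  constructor
  · intro h1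
    have h2 := Nat.mul_div_le (2 * h - 5) (16 * S)
    have h3 : 16 * S * 1 ≤ 16 * S * ((2 * h - 5) / (16 * S)) := Nat.mul_le_mul_left _ h1
    omega
  · intro h1
    set q := (n + 1) / S with hq
    have h2 := Nat.mul_div_le (q - 5) (16 * S)
    have h3 : 16 * S * 1 ≤ 16 * S * ((q - 5) / (16 * S)) := Nat.mul_le_mul_left _ h1
    have h4 : 5 + 16 * S * ((q - 5) / (16 * S)) ≤ q := by omega
    calc _ ≤ S * q := Nat.mul_le_mul_left _ h4
      _ ≤ n + 1 := by rw [hq]; exact Nat.mul_div_le _ _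

/-- the walks with `n` steps -/
theorem Sr_card {K C1 : ℝ} (hK : 0 ≤ K) (hC1 : 1 ≤ C1)
    (hup : ∀ i n : ℕ, i ≤ n → ((saws i).ncard : ℝ) ≤ C1 * Real.exp (K * Real.log (n + 2) ^ 2) * mu0 ^ i)
    {L h : ℕ} (hL : 2 ≤ L) (n : ℕ) (F0 : Finset (List (ℤ × ℤ)))
    (hF : ∀ l ∈ F0, l ∈ Sr L h ∧ l.length = n + 1) :
    (F0.card : ℝ) * (mu0⁻¹) ^ n ≤ 16 * L * (C1 * Real.exp (K * Real.log (n + 2) ^ 2)) ^ 2 *
      (n + 1) ^ 3 * (4 * ((2 : ℝ) ^ (-((h : ℝ) / (16 * L))) * (2 : ℝ) ^ (-(((n : ℝ) + 1) / (32 * L ^ 2))))) := by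
  classical
  set s : ℤ := (L : ℤ) / 2 + 1 with hs
  have hs1 : 1 ≤ s := by omega
  obtain ⟨S, hS⟩ : ∃ S : ℕ, s = S := ⟨s.toNat, by omega⟩
  have hS1 : 1 ≤ S := by omega
  have hSL : S ≤ L := by omega
  set F : Finset V := ((Finset.Ico (0 : ℤ) L).image (fun x : ℤ => ri (x, 0))) with hFdef
  have hFc : (F.card : ℝ) ≤ L := by
    have h1 := Finset.card_image_le (s := Finset.Ico (0 : ℤ) L) (f := fun x : ℤ => ri (x, 0))
    rw [Int.card_Ico] at h1
    have h2 : F.card ≤ L := by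
      rw [hFdef]
      refine h1.trans (by omega)
    exact_mod_cast h2
  set A := C1 * Real.exp (K * Real.log (n + 2) ^ 2) with hA
  have hA1 : 1 ≤ A := by
    have : 1 ≤ Real.exp (K * Real.log (n + 2) ^ 2) := Real.one_le_exp (by positivity)
    rw [hA]
    nlinarith
  have hAi : ∀ i, i ≤ n → ((saws i).ncard : ℝ) ≤ A * mu0 ^ i := fun i hi => hup i n hi
  -- the image
  have hmem : ∀ l ∈ F0, l.map ri ∈ WF n s F ∧ 2 * (h : ℤ) - 1 ≤
      lev ((l.map ri).getD n (0, 0)) - lev ((l.map ri).getD 0 (0, 0)) := by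
    intro l hl
    obtain ⟨⟨h1, h2, h3, a, b, h4, h5, h6, h7⟩, h8⟩ := hF l hl
    refine ⟨⟨⟨by rw [List.length_map, h8], ?_, h1.map ri_inj⟩, ?_, ri a, ?_, ?_⟩, ?_⟩
    · rw [List.isChain_map]
      exact h2.imp fun {x y} hxy => ri_adj (nbr_adj.1 hxy)
    · intro v hv v' hv'
      rw [List.mem_map] at hv hv'
      obtain ⟨p, hp, rfl⟩ := hv
      obtain ⟨p', hp', rfl⟩ := hv'
      have a1 := h3 p hp
      have a2 := h3 p' hp'
      unfold lat ri
      simp only
      omega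
    · rw [hFdef, Finset.mem_image]
      have ha : a ∈ l := List.mem_of_mem_head? (by rw [h4]; rfl)
      have a1 := h3 a ha
      refine ⟨a.1, Finset.mem_Ico.2 ⟨a1.1, a1.2⟩, ?_⟩
      congr 1
      exact Prod.ext rfl h6.symm
    · rw [List.head?_map, h4]
      rfl
    · have e0 : (l.map ri).getD 0 (0, 0) = ri a := by
        rw [List.getD_eq_getElem _ _ (by rw [List.length_map]; omega), List.getElem_map]
        congr 1
        have := h4
        rw [List.head?_eq_getElem?, List.getElem?_eq_getElem (by omega)] at this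
        simpa using this
      have e1 : (l.map ri).getD n (0, 0) = ri b := by
        rw [List.getD_eq_getElem _ _ (by rw [List.length_map]; omega), List.getElem_map]
        congr 1
        have := h5
        rw [List.getLast?_eq_getElem?, List.getElem?_eq_getElem (by omega)] at this
        have e : l.length - 1 = n := by omega
        simp only [e] at this
        simpa using this
      rw [e0, e1]
      unfold lev ri
      simp only
      omega
  have hinj : Set.InjOn (fun l : List (ℤ × ℤ) => l.map ri) (F0 : Set (List (ℤ × ℤ))) :=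
    (List.map_injective_iff.2 ri_inj).injOn
  have hcard : ∀ T : Finset (List V), (∀ l ∈ F0, l.map ri ∈ T) → (F0.card : ℝ) ≤ T.card := by
    intro T hT
    have := Finset.card_le_card_of_injOn (s := F0) (t := T) (fun l => l.map ri) hT hinj
    exact_mod_cast this
  have hm := mu0_pos
  have hb : ∀ N : ℕ, ((1 ≤ N → ∀ l ∈ F0, l.map ri ∈ WG n s F N)) →
      (F0.card : ℝ) * (mu0⁻¹) ^ n ≤ 8 * L * A ^ 2 * (n + 1) ^ 3 * (1 / 2) ^ N := by
    intro N hN
    rcases Nat.eq_zero_or_pos N with h0 | h0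
    · obtain ⟨T, hT, hTc⟩ := WF_le0 (n := n) (s := s) F hA1 hAi
      rw [h0, pow_zero, mul_one]
      calc (F0.card : ℝ) * (mu0⁻¹) ^ n ≤ T.card * (mu0⁻¹) ^ n :=
            mul_le_mul_of_nonneg_right (hcard T fun l hl => hT (hmem l hl).1) (by positivity)
        _ ≤ _ := hTc
        _ ≤ _ := by gcongr
    · obtain ⟨T, hT, hTc⟩ := WG_le (n := n) hs1 F h0 hAi
      calc (F0.card : ℝ) * (mu0⁻¹) ^ n ≤ T.card * (mu0⁻¹) ^ n :=
            mul_le_mul_of_nonneg_right (hcard T fun l hl => hT (hN h0 l hl)) (by positivity)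
        _ ≤ _ := hTc
        _ ≤ _ := by gcongr
  obtain ⟨c1, c2⟩ := floors_cond S hS1 h n
  obtain ⟨f1, f2⟩ := floors S hS1 h n
  set N1 := (2 * h - 5) / (16 * S) with hN1
  set N2 := ((n + 1) / S - 5) / (16 * S) with hN2
  have b1 := hb N1 (fun h1 l hl => by
    obtain ⟨a1, a2⟩ := hmem l hl
    refine ⟨a1, 0, n, by omega, le_rfl, ?_⟩
    have h2 := c1 h1
    have h3 : (4 + 16 * S * N1 + 1 : ℤ) ≤ 2 * h := by exact_mod_cast h2
    rw [hS]
    linarith)
  have b2 := hb N2 (fun h1 l hl => by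
    apply WF_WG hs1 F _ (hmem l hl).1
    have h2 := c2 h1
    rw [hS]
    exact_mod_cast h2)
  set X := 8 * L * A ^ 2 * (n + 1 : ℝ) ^ 3 with hX
  have hX0 : 0 ≤ X := by positivity
  have hmax : (F0.card : ℝ) * (mu0⁻¹) ^ n ≤ X * (2 : ℝ) ^ (-(((N1 : ℝ) + N2) / 2)) := by
    have e : ∀ N : ℕ, ((1 : ℝ) / 2) ^ N = (2 : ℝ) ^ (-(N : ℝ)) := by
      intro N
      rw [Real.rpow_neg (by norm_num), Real.rpow_natCast, one_div, inv_pow]
    rw [e] at b1 b2
    rcases le_total N1 N2 with h1 | h1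
    · refine b2.trans (mul_le_mul_of_nonneg_left ?_ hX0)
      apply Real.rpow_le_rpow_of_exponent_le (by norm_num)
      have : (N1 : ℝ) ≤ N2 := by exact_mod_cast h1
      linarith
    · refine b1.trans (mul_le_mul_of_nonneg_left ?_ hX0)
      apply Real.rpow_le_rpow_of_exponent_le (by norm_num)
      have : (N2 : ℝ) ≤ N1 := by exact_mod_cast h1
      linarith
  refine hmax.trans ?_
  have hS0 : (0 : ℝ) < S := by exact_mod_cast hS1
  have hSL' : (S : ℝ) ≤ L := by exact_mod_cast hSL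
  have hL0 : (0 : ℝ) < L := hS0.trans_le hSL'
  have g1 : (h : ℝ) / (16 * L) - 1 ≤ (N1 : ℝ) / 2 := by
    have : (h : ℝ) / (16 * L) ≤ h / (16 * S) := by
      apply div_le_div_of_nonneg_left (Nat.cast_nonneg _) (by positivity)
      linarith
    have e : (h : ℝ) / (8 * S) = 2 * (h / (16 * S)) := by field_simp; ring
    linarith
  have g2 : ((n : ℝ) + 1) / (32 * L ^ 2) - 1 ≤ (N2 : ℝ) / 2 := by
    have : ((n : ℝ) + 1) / (32 * L ^ 2) ≤ (n + 1) / (32 * S ^ 2) := by
      apply div_le_div_of_nonneg_left (by positivity) (by positivity)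
      gcongr
    have e : ((n : ℝ) + 1) / (16 * S ^ 2) = 2 * ((n + 1) / (32 * S ^ 2)) := by field_simp; ring
    linarith
  have g3 : (2 : ℝ) ^ (-(((N1 : ℝ) + N2) / 2)) ≤
      4 * ((2 : ℝ) ^ (-((h : ℝ) / (16 * L))) * (2 : ℝ) ^ (-(((n : ℝ) + 1) / (32 * L ^ 2)))) := by
    have e4 : (4 : ℝ) = (2 : ℝ) ^ (2 : ℝ) := by norm_num
    rw [← Real.rpow_add (by norm_num), e4, ← Real.rpow_add (by norm_num)]
    apply Real.rpow_le_rpow_of_exponent_le (by norm_num)
    linarith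
  calc X * (2 : ℝ) ^ (-(((N1 : ℝ) + N2) / 2)) ≤ X * _ := mul_le_mul_of_nonneg_left g3 hX0
    _ ≤ (16 * L * A ^ 2 * (n + 1 : ℝ) ^ 3) * _ := by
      apply mul_le_mul_of_nonneg_right _ (by positivity)
      rw [hX]
      gcongr
      norm_num

end Pool.Agent.U508.ST
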