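import Pool.Agent.U508.ST.Gap2

set_option autoImplicit false

/-! Exponential decay of the critical mass along a strip: summation. -/

namespace Pool.Agent.U508.ST

open H978R2.Hex Pool.Agent.W818.TD

theorem saws_upper' : ∃ K C1 : ℝ, 0 ≤ K ∧ 1 ≤ C1 ∧ ∀ i n : ℕ, i ≤ n →
    ((saws i).ncard : ℝ) ≤ C1 * Real.exp (K * Real.log (n + 2) ^ 2) * mu0 ^ i := by
  obtain ⟨K, hK, h⟩ := saws_upper
  have hm1 : 1 ≤ mu0 := by
    unfold mu0
    rw [Real.one_le_sqrt]
    have := Real.sqrt_nonneg 2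
    linarith
  refine ⟨K, 1 + (saws 0).ncard + (saws 1).ncard, hK, ?_, fun i n hin => ?_⟩
  · have h0 := saws_pos 0
    have h1 := saws_pos 1
    linarith
  · have h0 := saws_pos 0
    have h1 := saws_pos 1
    have hn : 1 ≤ Real.exp (K * Real.log (n + 2) ^ 2) := Real.one_le_exp (by positivity)
    have hmi : 1 ≤ mu0 ^ i := one_le_pow₀ hm1
    have hi0 : (0 : ℝ) < (saws i).ncard := saws_pos i
    rcases Nat.lt_or_ge i 2 with hi | hi
    · have h2 : ((saws i).ncard : ℝ) ≤ 1 + (saws 0).ncard + (saws 1).ncard := by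
        interval_cases i
        · linarith
        · linarith
      calc ((saws i).ncard : ℝ) ≤ (1 + (saws 0).ncard + (saws 1).ncard) * 1 * 1 := by linarith
        _ ≤ _ := by gcongr
    · have h2 := h i hi
      have hi1 : (1 : ℝ) ≤ i := by exact_mod_cast (by omega : 1 ≤ i)
      have h3 : Real.log i ^ 2 ≤ Real.log (n + 2) ^ 2 := by
        have h4 : 0 ≤ Real.log i := Real.log_nonneg hi1
        have h5 : Real.log i ≤ Real.log (n + 2) := by
          apply Real.log_le_log (by linarith)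
          have : (i : ℝ) ≤ n := by exact_mod_cast hin
          linarith
        exact pow_le_pow_left₀ h4 h5 2
      calc ((saws i).ncard : ℝ) ≤ mu0 ^ i * Real.exp (K * Real.log i ^ 2) := h2
        _ ≤ mu0 ^ i * Real.exp (K * Real.log (n + 2) ^ 2) := by gcongr
        _ = 1 * Real.exp (K * Real.log (n + 2) ^ 2) * mu0 ^ i := by ring
        _ ≤ _ := by
          gcongr
          linarith

/-- **decay** -/
theorem Sr_sum : ∃ K : ℝ, 0 ≤ K ∧ ∀ L : ℕ, 2 ≤ L → ∀ h : ℕ, ∀ F0 : Finset (List (ℤ × ℤ)),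
    (∀ l ∈ F0, l ∈ Sr L h) →
      ∑ l ∈ F0, (mu0⁻¹) ^ (l.length - 1) ≤
        Real.exp (K * Real.log L ^ 2 - Real.log 2 / 16 * (h / L)) := by
  classical
  obtain ⟨K0, C1, hK0, hC1, hup⟩ := saws_upper'
  obtain ⟨C, hC, hlog⟩ := log_sq_le (2 * K0 + 3) (by positivity)
  have hl2 : 0 < Real.log 2 := Real.log_pos (by norm_num)
  have hl2' : Real.log 2 ≤ 1 := by linarith [Real.log_two_lt_d9]
  set Q : ℝ := 64 * C1 ^ 2 * Real.exp (3 + C) * (128 / Real.log 2) with hQ
  have hQ1 : 1 ≤ Q := by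
    have a1 : 1 ≤ C1 ^ 2 := one_le_pow₀ hC1
    have a2 : 1 ≤ Real.exp (3 + C) := Real.one_le_exp (by positivity)
    have a3 : 1 ≤ 128 / Real.log 2 := by
      rw [le_div_iff₀ hl2]
      linarith
    rw [hQ]
    calc (1 : ℝ) ≤ 64 * 1 * 1 * 1 := by norm_num
      _ ≤ _ := by gcongr
  refine ⟨18 * (2 * K0 + 3) + 3 / Real.log 2 + Real.log Q / Real.log 2 ^ 2, ?_, ?_⟩
  · have := Real.log_nonneg hQ1
    positivity
  intro L hL h F0 hF
  have hL2 : (2 : ℝ) ≤ L := by exact_mod_cast hL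
  have hL0 : (0 : ℝ) < L := by linarith
  have hlL : Real.log 2 ≤ Real.log L := Real.log_le_log (by norm_num) hL2
  have hm := inv_pos.2 mu0_pos
  set q : ℝ := Real.exp (-(Real.log 2 / 64 / L ^ 2)) with hq
  have hq0 : 0 < q := Real.exp_pos _
  set G : ℝ := 64 * L * C1 ^ 2 * Real.exp (3 + C) * Real.exp (18 * (2 * K0 + 3) * Real.log L ^ 2) *
    (2 : ℝ) ^ (-((h : ℝ) / (16 * L))) with hG
  have hG0 : 0 < G := by positivity
  -- the terms
  have hterm : ∀ n : ℕ, 16 * L * (C1 * Real.exp (K0 * Real.log (n + 2) ^ 2)) ^ 2 *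
      ((n : ℝ) + 1) ^ 3 * (4 * ((2 : ℝ) ^ (-((h : ℝ) / (16 * L))) *
        (2 : ℝ) ^ (-(((n : ℝ) + 1) / (32 * L ^ 2))))) ≤ G * q ^ n := by
    intro n
    have hn2 : (0 : ℝ) < n + 2 := by positivity
    have a1 : ((n : ℝ) + 1) ^ 3 ≤ Real.exp (3 * Real.log (n + 2) ^ 2 + 3) := by
      calc ((n : ℝ) + 1) ^ 3 ≤ ((n : ℝ) + 2) ^ 3 := by gcongr; norm_num
        _ = Real.exp (3 * Real.log (n + 2)) := by
          rw [← Real.exp_log (show (0 : ℝ) < (n + 2) ^ 3 by positivity), Real.log_pow]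
          norm_num
        _ ≤ _ := by
          apply Real.exp_le_exp.2
          nlinarith [sq_nonneg (Real.log ((n : ℝ) + 2) - 1)]
    have a2 : (2 : ℝ) ^ (-(((n : ℝ) + 1) / (32 * L ^ 2))) =
        Real.exp (-(Real.log 2 * ((n + 1) / (32 * L ^ 2)))) := by
      rw [Real.rpow_def_of_pos (by norm_num)]
      congr 1
      ring
    have a3 := hlog L hL2 n
    have a4 : q ^ n = Real.exp (-(Real.log 2 / 64 * n / L ^ 2)) := by
      rw [hq, ← Real.exp_nat_mul]
      congr 1
      ring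
    rw [a2]
    calc 16 * L * (C1 * Real.exp (K0 * Real.log (n + 2) ^ 2)) ^ 2 *
        ((n : ℝ) + 1) ^ 3 * (4 * ((2 : ℝ) ^ (-((h : ℝ) / (16 * L))) *
        Real.exp (-(Real.log 2 * ((n + 1) / (32 * L ^ 2))))))
        ≤ 16 * L * (C1 * Real.exp (K0 * Real.log (n + 2) ^ 2)) ^ 2 *
          Real.exp (3 * Real.log (n + 2) ^ 2 + 3) * (4 * ((2 : ℝ) ^ (-((h : ℝ) / (16 * L))) *
          Real.exp (-(Real.log 2 * ((n + 1) / (32 * L ^ 2)))))) := by gcongr
      _ = 64 * L * C1 ^ 2 * (2 : ℝ) ^ (-((h : ℝ) / (16 * L))) *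
          (Real.exp (K0 * Real.log (n + 2) ^ 2) * Real.exp (K0 * Real.log (n + 2) ^ 2) *
          Real.exp (3 * Real.log (n + 2) ^ 2 + 3) *
          Real.exp (-(Real.log 2 * ((n + 1) / (32 * L ^ 2))))) := by ring
      _ = 64 * L * C1 ^ 2 * (2 : ℝ) ^ (-((h : ℝ) / (16 * L))) *
          Real.exp (K0 * Real.log (n + 2) ^ 2 + K0 * Real.log (n + 2) ^ 2 +
            (3 * Real.log (n + 2) ^ 2 + 3) + -(Real.log 2 * ((n + 1) / (32 * L ^ 2)))) := by
          rw [Real.exp_add _ (-(Real.log 2 * ((n + 1) / (32 * L ^ 2)))),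
            Real.exp_add _ (3 * Real.log (n + 2) ^ 2 + 3), Real.exp_add (K0 * Real.log (n + 2) ^ 2)]
      _ ≤ 64 * L * C1 ^ 2 * (2 : ℝ) ^ (-((h : ℝ) / (16 * L))) *
          Real.exp ((3 + C) + 18 * (2 * K0 + 3) * Real.log L ^ 2 +
            -(Real.log 2 / 64 * n / L ^ 2)) := by
          apply mul_le_mul_of_nonneg_left _ (by positivity)
          apply Real.exp_le_exp.2
          have e : Real.log 2 / 64 * ((n : ℝ) + 2) / L ^ 2 - Real.log 2 * ((n + 1) / (32 * L ^ 2)) =
              -(Real.log 2 / 64 * n / L ^ 2) := by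
            field_simp
            ring
          nlinarith
      _ = G * q ^ n := by
          rw [Real.exp_add, Real.exp_add, hG, a4]
          ring
  -- grouping
  have hlen : ∀ l ∈ F0, 1 ≤ l.length := by
    intro l hl
    obtain ⟨-, -, -, a, b, h4, -⟩ := hF l hl
    match l, h4 with
    | _ :: _, _ => simp
  obtain ⟨X, hX⟩ : ∃ X : ℕ, ∀ l ∈ F0, l.length - 1 < X := ⟨F0.sup (fun l => l.length) + 1,
    fun l hl => by
      have := Finset.le_sup (f := fun l : List (ℤ × ℤ) => l.length) hl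
      omega⟩
  have hsplit : ∑ l ∈ F0, (mu0⁻¹) ^ (l.length - 1) =
      ∑ n ∈ Finset.range X, ∑ l ∈ F0 with l.length - 1 = n, (mu0⁻¹) ^ (l.length - 1) := by
    rw [Finset.sum_fiberwise_of_maps_to]
    intro l hl
    exact Finset.mem_range.2 (hX l hl)
  have hsum : ∑ l ∈ F0, (mu0⁻¹) ^ (l.length - 1) ≤ ∑ n ∈ Finset.range X, G * q ^ n := by
    rw [hsplit]
    refine Finset.sum_le_sum fun n _ => ?_
    refine le_trans (le_of_eq ?_) ((Sr_card hK0 hC1 hup hL n (F0.filter (fun l => l.length - 1 = n))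
      (h := h) ?_).trans (hterm n))
    · rw [Finset.sum_congr rfl (g := fun _ => (mu0⁻¹) ^ n)
        (fun l hl => by rw [(Finset.mem_filter.1 hl).2]), Finset.sum_const, nsmul_eq_mul]
    · intro l hl
      rw [Finset.mem_filter] at hl
      have := hlen l hl.1
      exact ⟨hF l hl.1, by omega⟩
  refine hsum.trans ?_
  -- geometric series
  set y : ℝ := Real.log 2 / 64 / L ^ 2 with hy
  have hy0 : 0 < y := by positivity
  have hy1 : y ≤ 1 := by
    rw [hy, div_div, div_le_one (by positivity)]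
    nlinarith
  have hq1 : q ≤ 1 / (1 + y) := by
    rw [hq, Real.exp_neg, ← one_div]
    apply one_div_le_one_div_of_le (by positivity)
    linarith [Real.add_one_le_exp y]
  have hq2 : y / 2 ≤ 1 - q := by
    have : 1 / (1 + y) ≤ 1 - y / 2 := by
      rw [div_le_iff₀ (by positivity)]
      nlinarith
    linarith
  have hq3 : q < 1 := by linarith
  have hgeo : ∑ n ∈ Finset.range X, q ^ n ≤ 2 / y := by
    have h1 := (summable_geometric_of_lt_one hq0.le hq3).sum_le_tsum (Finset.range X)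
      (fun n _ => by positivity)
    rw [tsum_geometric_of_lt_one hq0.le hq3] at h1
    refine h1.trans ?_
    rw [← one_div, div_le_div_iff₀ (by linarith) hy0]
    linarith
  have h2y : 2 / y = 128 / Real.log 2 * L ^ 2 := by
    rw [hy]
    field_simp
    norm_num
  rw [← Finset.mul_sum]
  calc G * ∑ n ∈ Finset.range X, q ^ n ≤ G * (128 / Real.log 2 * L ^ 2) := by
        rw [← h2y]
        gcongr
    _ = Q * (L : ℝ) ^ 3 * Real.exp (18 * (2 * K0 + 3) * Real.log L ^ 2) *
        (2 : ℝ) ^ (-((h : ℝ) / (16 * L))) := by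
        rw [hG, hQ]
        ring
    _ ≤ Real.exp (Real.log Q / Real.log 2 ^ 2 * Real.log L ^ 2) *
        Real.exp (3 / Real.log 2 * Real.log L ^ 2) *
        Real.exp (18 * (2 * K0 + 3) * Real.log L ^ 2) *
        Real.exp (-(Real.log 2 / 16 * (h / L))) := by
        have b1 : Q ≤ Real.exp (Real.log Q / Real.log 2 ^ 2 * Real.log L ^ 2) := by
          rw [← Real.log_le_iff_le_exp (by linarith), div_mul_eq_mul_div, le_div_iff₀ (by positivity)]
          have := Real.log_nonneg hQ1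
          gcongr
        have b2 : (L : ℝ) ^ 3 ≤ Real.exp (3 / Real.log 2 * Real.log L ^ 2) := by
          rw [← Real.log_le_iff_le_exp (by positivity), Real.log_pow, div_mul_eq_mul_div,
            le_div_iff₀ hl2]
          push_cast
          nlinarith
        have b3 : (2 : ℝ) ^ (-((h : ℝ) / (16 * L))) = Real.exp (-(Real.log 2 / 16 * (h / L))) := by
          rw [Real.rpow_def_of_pos (by norm_num)]
          congr 1
          field_simp
        rw [b3]
        gcongr
    _ = _ := by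
        rw [← Real.exp_add, ← Real.exp_add, ← Real.exp_add]
        congr 1
        ring

end Pool.Agent.U508.ST
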