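import Pool.Agent.U508.ST.Gap2
import Pool.Agent.W818.TD.Renew

set_option autoImplicit false

/-! Lower bound of the critical mass along a strip. -/

namespace Pool.Agent.U508.ST

open H978R2.Hex Pool.Agent.W818.TD
open scoped ENNReal

/-- chains of bridges of total height `H` -/
def EE (W H : ℤ) : Set (List V) :=
  {γ | EBr γ ∧ hl γ = H ∧ |lat (la γ)| ≤ W ∧ ∀ v ∈ γ, |lat v| ≤ 2 * W + 2}

/-- bridges of height `2 T` with displacement of sign `ε` -/
def AB (ε : ℤ) (T : ℕ) (W : ℤ) : Set (List V) := {β | β ∈ BB T W ∧ 0 ≤ ε * lat (la β)}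

theorem flp_Wt (ε : ℤ) (p : V) (β : List V) : Wt (flp ε p β) = Wt β := by
  unfold Wt
  rw [flp_len]

theorem hl_flp {ε : ℤ} {p : V} {β : List V} (h : EBr β) : hl (flp ε p β) = hl β := by
  unfold flp
  split_ifs
  · unfold hl
    rw [la_mir h.ne, sg_lev]
  · rfl

theorem append_split {p : V → Prop} [DecidablePred p] {l1 t1 l2 t2 : List V}
    (h : l1 ++ t1 = l2 ++ t2) (h1 : ∀ v ∈ l1, p v) (h2 : ∀ v ∈ l2, p v) (h3 : ∀ v ∈ t1, ¬ p v)
    (h4 : ∀ v ∈ t2, ¬ p v) : l1 = l2 := by
  have key : ∀ l t : List V, (∀ v ∈ l, p v) → (∀ v ∈ t, ¬ p v) →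
      (l ++ t).takeWhile (fun v => decide (p v)) = l := by
    intro l t hl ht
    rw [List.takeWhile_append_of_pos (fun v hv => by simpa using hl v hv)]
    have : t.takeWhile (fun v => decide (p v)) = [] := by
      match t, ht with
      | [], _ => rfl
      | a :: t', ht =>
        rw [List.takeWhile_cons_of_neg]
        simpa using ht a List.mem_cons_self
    rw [this, List.append_nil]
  rw [← key l1 t1 h1 h3, ← key l2 t2 h2 h4, h]

theorem step_mass {ε W H : ℤ} (hε : ε = 1 ∨ ε = -1) (T : ℕ) :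
    M (EE W H) * M (AB ε T W) ≤ M (EE W (H + 2 * T)) := by
  have hmem : ∀ γ ∈ EE W H, ∀ β ∈ AB ε T W, cat γ (flp ε (la γ) β) ∈ EE W (H + 2 * T) := by
    intro γ hγ β hβ
    obtain ⟨g1, g2, g3, g4⟩ := hγ
    obtain ⟨⟨b1, b2, b3⟩, b4⟩ := hβ
    have hlen : 1 ≤ β.length := List.length_pos_of_ne_nil b1.ne
    have hlenγ : 1 ≤ γ.length := List.length_pos_of_ne_nil g1.ne
    have hE := flp_EBr (ε := ε) (p := la γ) b1
    have hlatla : |lat (la β)| ≤ W := b3 _ (la_mem b1.ne)
    have hev := b1.la_even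
    rw [abs_le] at g3 hlatla
    refine ⟨cat_EBr g1 hE, ?_, ?_, ?_⟩
    · rw [hl_cat hE, g2, hl_flp b1, b2]
    · rw [la_cat hE]
      have e : lat (la (flp ε (la γ) β) + la γ) = lat (la (flp ε (la γ) β)) + lat (la γ) := by
        unfold lat
        simp only [Prod.fst_add, Prod.snd_add]
        ring
      rw [e]
      unfold flp
      split_ifs with h
      · rw [la_mir b1.ne, sg_lat, abs_le]
        rcases hε with rfl | rfl <;> omega
      · rw [abs_le]
        rcases hε with rfl | rfl <;> omega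
    · intro v hv
      unfold cat at hv
      rw [List.mem_append] at hv
      rcases hv with hv | hv
      · exact g4 v hv
      · rw [mem_tr] at hv
        have hv' := List.mem_of_mem_tail hv
        have e : lat v = lat (v - la γ) + lat (la γ) := by
          unfold lat
          simp only [Prod.fst_sub, Prod.snd_sub]
          ring
        rw [e]
        unfold flp at hv'
        split_ifs at hv' with h
        · unfold mir at hv'
          rw [List.mem_map] at hv'
          obtain ⟨u, hu, hu2⟩ := hv'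
          rw [← hu2, sg_lat]
          have h5 := b3 u hu
          rw [abs_le] at h5 ⊢
          rcases hε with rfl | rfl <;> omega
        · have h5 := b3 _ hv'
          rw [abs_le] at h5 ⊢
          rcases hε with rfl | rfl <;> omega
  unfold M
  rw [← ENNReal.tsum_mul_right]
  have e1 : ∀ a : EE W H, Wt a * ∑' b : AB ε T W, Wt b =
      ∑' b : AB ε T W, Wt (cat a (flp ε (la a) b)) := by
    intro a
    rw [← ENNReal.tsum_mul_left]
    refine tsum_congr fun b => ?_
    rw [Wt_cat a.2.1.ne (flp_EBr b.2.1.1).ne, flp_Wt]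
  rw [tsum_congr e1, ← ENNReal.tsum_prod (f := fun (a : EE W H) (b : AB ε T W) =>
    Wt (cat a (flp ε (la a) b)))]
  let f : (EE W H) × (AB ε T W) → EE W (H + 2 * T) := fun q =>
    ⟨cat q.1 (flp ε (la q.1) q.2), hmem _ q.1.2 _ q.2.2⟩
  have hf : Function.Injective f := by
    rintro ⟨⟨γ, hγ⟩, ⟨β, hβ⟩⟩ ⟨⟨γ', hγ'⟩, ⟨β', hβ'⟩⟩ h
    have h1 : cat γ (flp ε (la γ) β) = cat γ' (flp ε (la γ') β') := congrArg Subtype.val h
    have hlow : ∀ δ ∈ EE W H, ∀ v ∈ δ, v.1 - v.2 ≤ H := by
      intro δ hδ v hv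
      have := hδ.1.top v hv
      rw [hδ.2.1] at this
      exact this
    have hhigh : ∀ δ ∈ EE W H, ∀ η, EBr η → ∀ v ∈ tr (la δ) η.tail, ¬ (v.1 - v.2 ≤ H) := by
      intro δ hδ η hη v hv
      rw [mem_tr] at hv
      have h2 := hη.pos _ hv
      have h3 := hδ.2.1
      unfold hl at h3
      simp only [Prod.fst_sub, Prod.snd_sub] at h2
      omega
    unfold cat at h1
    have e2 : γ = γ' := append_split (p := fun v => v.1 - v.2 ≤ H) h1 (hlow γ hγ) (hlow γ' hγ')
      (hhigh γ hγ _ (flp_EBr hβ.1.1)) (hhigh γ' hγ' _ (flp_EBr hβ'.1.1))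
    subst e2
    have e3 := List.append_cancel_left h1
    have e4 : (flp ε (la γ) β).tail = (flp ε (la γ) β').tail := by
      unfold tr at e3
      exact List.map_injective_iff.2 (fun a b hab => by simpa using hab) e3
    obtain ⟨t, ht⟩ := (flp_EBr (ε := ε) (p := la γ) hβ.1.1).cons
    obtain ⟨t', ht'⟩ := (flp_EBr (ε := ε) (p := la γ) hβ'.1.1).cons
    rw [ht, ht'] at e4
    simp only [List.tail_cons] at e4
    have e5 : flp ε (la γ) β = flp ε (la γ) β' := by rw [ht, ht', e4]
    have e6 := flp_inj _ _ e5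
    subst e6
    rfl
  exact ENNReal.tsum_comp_le_tsum_of_injective hf (fun γ : EE W (H + 2 * T) => Wt γ)

theorem AB_mass {T : ℕ} {W : ℤ} (h : ENNReal.ofReal (1 / (8 * (T : ℝ))) ≤ M (BB T W)) :
    ∃ ε : ℤ, (ε = 1 ∨ ε = -1) ∧ ENNReal.ofReal (1 / (16 * (T : ℝ))) ≤ M (AB ε T W) := by
  by_contra hno
  push Not at hno
  have h1 := hno 1 (Or.inl rfl)
  have h2 := hno (-1) (Or.inr rfl)
  have hsub : BB T W ⊆ AB 1 T W ∪ AB (-1) T W := by
    intro β hβ
    rcases le_total 0 (lat (la β)) with h | h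
    · left
      exact ⟨hβ, by omega⟩
    · right
      exact ⟨hβ, by omega⟩
  have h3 := (M_mono hsub).trans (M_union_le _ _)
  have h4 : M (AB 1 T W) + M (AB (-1) T W) < ENNReal.ofReal (1 / (16 * (T : ℝ))) +
      ENNReal.ofReal (1 / (16 * (T : ℝ))) := ENNReal.add_lt_add h1 h2
  rw [← ENNReal.ofReal_add (by positivity) (by positivity)] at h4
  have e : 1 / (16 * (T : ℝ)) + 1 / (16 * T) = 1 / (8 * T) := by
    rcases Nat.eq_zero_or_pos T with h0 | h0
    · subst h0; simp
    · have : (0 : ℝ) < T := by exact_mod_cast h0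
      field_simp
      norm_num
  rw [e] at h4
  exact absurd (h.trans h3) (not_le.2 h4)

/-- height one row -/
theorem BB_one {W : ℤ} (hW : 3 ≤ W) : ENNReal.ofReal (1 / (8 * ((1 : ℕ) : ℝ))) ≤ M (BB 1 W) := by
  have hE : EBr [(0, 0), (1, 0), (2, 0)] := by
    refine ⟨rfl, ?_, ?_, ?_, ?_, ?_⟩
    · simp only [List.isChain_cons_cons, List.isChain_singleton, and_true]
      rw [adj_iff, adj_iff]
      simp
    · simp
    · intro w hw
      simp only [List.tail_cons, List.mem_cons, List.not_mem_nil, or_false] at hw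
      rcases hw with rfl | rfl <;> simp
    · intro w hw
      simp only [List.mem_cons, List.not_mem_nil, or_false] at hw
      have e : hl [((0, 0) : V), (1, 0), (2, 0)] = 2 := by simp [hl, la]
      rw [e]
      rcases hw with rfl | rfl | rfl <;> simp
    · simp [hl, la]
  have hmem : [((0, 0) : V), (1, 0), (2, 0)] ∈ BB 1 W := by
    refine ⟨hE, by simp [hl, la], ?_⟩
    intro u hu
    simp only [List.mem_cons, List.not_mem_nil, or_false] at hu
    unfold lat
    rw [abs_le]
    rcases hu with rfl | rfl | rfl <;> simp only <;> omega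
  have h1 := le_M (S := BB 1 W) {[((0, 0) : V), (1, 0), (2, 0)]} (by
    intro β hβ
    rw [Finset.mem_singleton] at hβ
    rw [hβ]
    exact hmem)
  rw [Finset.sum_singleton] at h1
  refine le_trans ?_ h1
  unfold Wt
  apply ENNReal.ofReal_le_ofReal
  simp only [List.length_cons, List.length_nil]
  have hs : Real.sqrt 2 ≤ 2 := by
    rw [Real.sqrt_le_left (by norm_num)]
    norm_num
  have hm : mu0 ^ 2 ≤ 4 := by
    unfold mu0
    rw [Real.sq_sqrt (by positivity)]
    linarith
  have hm0 := mu0_pos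
  have hgoal : 1 / (8 * ((1 : ℕ) : ℝ)) ≤ 1 / mu0 ^ 2 := by
    apply one_div_le_one_div_of_le (by positivity)
    push_cast
    linarith
  refine hgoal.trans (le_of_eq ?_)
  rw [one_div, inv_pow]

theorem BB_ge {T T' : ℕ} (hT' : 1 ≤ T') (h : T' ≤ T) {W : ℤ}
    (hW : 256 * Real.log T * T + 3 ≤ W) : ENNReal.ofReal (1 / (8 * (T' : ℝ))) ≤ M (BB T' W) := by
  have h1 : (1 : ℝ) ≤ T' := by exact_mod_cast hT'
  have h2 : (T' : ℝ) ≤ T := by exact_mod_cast h
  have h3 : 0 ≤ Real.log T' := Real.log_nonneg h1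
  have h4 : Real.log T' ≤ Real.log T := Real.log_le_log (by linarith) h2
  have h5 : 256 * Real.log T' * T' + 3 ≤ W := by
    refine le_trans ?_ hW
    have : Real.log T' * T' ≤ Real.log T * T := by gcongr
    linarith
  rcases Nat.lt_or_ge T' 2 with h6 | h6
  · have : T' = 1 := by omega
    subst this
    apply BB_one
    have : (3 : ℝ) ≤ W := by
      have : 0 ≤ 256 * Real.log ((1 : ℕ) : ℝ) * ((1 : ℕ) : ℝ) := by positivity
      linarith
    exact_mod_cast this
  · exact crossings h6 h5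

theorem EE_step {T T' : ℕ} (hT' : 1 ≤ T') (h : T' ≤ T) {W : ℤ}
    (hW : 256 * Real.log T * T + 3 ≤ W) (H : ℤ) :
    ENNReal.ofReal (1 / (16 * (T : ℝ))) * M (EE W H) ≤ M (EE W (H + 2 * T')) := by
  obtain ⟨ε, hε, h1⟩ := AB_mass (BB_ge hT' h hW)
  have h2 : ENNReal.ofReal (1 / (16 * (T : ℝ))) ≤ M (AB ε T' W) := by
    refine le_trans (ENNReal.ofReal_le_ofReal ?_) h1
    apply one_div_le_one_div_of_le
    · have : (0 : ℝ) < T' := by exact_mod_cast hT'
      positivity
    · have : (T' : ℝ) ≤ T := by exact_mod_cast h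
      linarith
  calc _ ≤ M (AB ε T' W) * M (EE W H) := by gcongr
    _ = M (EE W H) * M (AB ε T' W) := mul_comm _ _
    _ ≤ _ := step_mass hε T'

theorem EE_zero {W : ℤ} (hW : 0 ≤ W) : 1 ≤ M (EE W 0) := by
  have h : [((0, 0) : V)] ∈ EE W 0 := by
    refine ⟨EBr_triv, by simp [hl, la], ?_, ?_⟩
    · simp [la, lat, hW]
    · intro v hv
      rw [List.mem_singleton.1 hv]
      simp [lat]
      omega
  have h1 := le_M (S := EE W 0) {[((0, 0) : V)]} (by
    intro β hβ
    rw [Finset.mem_singleton] at hβ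
    rw [hβ]
    exact h)
  rw [Finset.sum_singleton] at h1
  refine le_trans ?_ h1
  unfold Wt
  simp

theorem EE_mass {T : ℕ} (hT : 1 ≤ T) {W : ℤ} (hW : 256 * Real.log T * T + 3 ≤ W) (hW0 : 0 ≤ W)
    (h : ℕ) : ENNReal.ofReal (1 / (16 * (T : ℝ))) ^ (h / T + 1) ≤ M (EE W (2 * h)) := by
  set a := ENNReal.ofReal (1 / (16 * (T : ℝ))) with ha
  have ha1 : a ≤ 1 := by
    rw [ha, ← ENNReal.ofReal_one]
    apply ENNReal.ofReal_le_ofReal
    have : (1 : ℝ) ≤ T := by exact_mod_cast hT
    rw [div_le_one (by positivity)]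
    linarith
  induction h using Nat.strong_induction_on with
  | _ h ih =>
    rcases Nat.lt_or_ge h T with h1 | h1
    · rw [Nat.div_eq_of_lt h1, zero_add, pow_one]
      rcases Nat.eq_zero_or_pos h with h0 | h0
      · subst h0
        exact ha1.trans (by simpa using EE_zero hW0)
      · have h2 := EE_step h0 h1.le hW 0
        rw [zero_add] at h2
        calc a = a * 1 := (mul_one _).symm
          _ ≤ a * M (EE W 0) := by gcongr; exact EE_zero hW0
          _ ≤ _ := h2
    · have h2 := ih (h - T) (by omega)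
      have h3 := EE_step hT le_rfl hW (2 * ((h - T : ℕ) : ℤ))
      have e : 2 * ((h - T : ℕ) : ℤ) + 2 * T = 2 * h := by omega
      rw [e] at h3
      have e2 : h / T = (h - T) / T + 1 := by
        rw [Nat.div_eq_sub_div (by omega) h1]
      rw [e2, pow_succ, mul_comm]
      exact (mul_le_mul_right h2 a).trans h3

/-- from bridges to walks of the strip -/
theorem EE_Sr {W : ℤ} {L h : ℕ} (hL : 2 * W + 5 ≤ L) :
    M (EE W (2 * h)) ≤ ∑' l : Sr L h, ENNReal.ofReal ((mu0⁻¹) ^ (l.1.length - 1)) := by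
  set m : ℤ := W + 2 + W % 2 with hm
  set g : V → ℤ × ℤ := fun v => ri v + (m, 0) with hg
  have hginj : Function.Injective g := fun a b hab => ri_inj (add_right_cancel hab)
  have hmem : ∀ γ ∈ EE W (2 * h), γ.map g ∈ Sr L h := by
    rintro γ ⟨h1, h2, -, h4⟩
    refine ⟨h1.nd.map hginj, ?_, ?_, g (0, 0), g (la γ), ?_, ?_, ?_, ?_⟩
    · rw [List.isChain_map]
      refine h1.ch.imp fun {x y} hxy => nbr_adj.2 (adj_tr ?_ (ri_adj hxy))
      simp only
      omega
    · intro p hp
      rw [List.mem_map] at hp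
      obtain ⟨v, hv, rfl⟩ := hp
      have h6 := h4 v hv
      rw [abs_le] at h6
      unfold lat at h6
      simp only [hg, Prod.fst_add]
      unfold ri
      simp only
      omega
    · rw [List.head?_map, h1.hd]
      rfl
    · rw [List.getLast?_map, List.getLast?_eq_getLast_of_ne_nil h1.ne, la_eq h1.ne]
      rfl
    · simp only [hg, Prod.snd_add]
      unfold ri
      simp
    · have h5 := h1.la_even
      unfold hl at h2
      simp only [hg, Prod.snd_add]
      unfold ri
      simp only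
      omega
  let f : EE W (2 * h) → Sr L h := fun γ => ⟨γ.1.map g, hmem _ γ.2⟩
  have hf : Function.Injective f := by
    intro γ γ' hγ
    have := congrArg Subtype.val hγ
    exact Subtype.ext (List.map_injective_iff.2 hginj this)
  have h6 := ENNReal.tsum_comp_le_tsum_of_injective hf
    (fun l : Sr L h => ENNReal.ofReal ((mu0⁻¹) ^ (l.1.length - 1)))
  refine le_trans (le_of_eq ?_) h6
  unfold M
  refine tsum_congr fun γ => ?_
  simp only [f]
  unfold Wt
  rw [List.length_map]

end Pool.Agent.U508.ST
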