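import Pool.Agent.U508.ST.Gap3
import Pool.Agent.U508.ST.Gap4
import Pool.Agent.U508.ST.Lo

set_option autoImplicit false

/-! The critical mass along a strip: both bounds. -/

namespace Pool.Agent.U508.ST

open H978R2.Hex Pool.Agent.W818.TD Filter
open scoped ENNReal Topology

/-- the zigzag path of the strip of width two -/
def zz : ℕ → List (ℤ × ℤ)
  | 0 => [(0, 0)]
  | h + 1 => zz h ++ [((h : ℤ) % 2, (h : ℤ) + 1), (((h : ℤ) + 1) % 2, (h : ℤ) + 1)]

theorem zz_len (h : ℕ) : (zz h).length = 2 * h + 1 := by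
  induction h with
  | zero => rfl
  | succ h ih =>
    rw [zz, List.length_append, ih]
    simp only [List.length_cons, List.length_nil]
    ring

theorem zz_mem (h : ℕ) : ∀ p ∈ zz h, 0 ≤ p.1 ∧ p.1 < 2 ∧ p.2 ≤ h := by
  induction h with
  | zero =>
    intro p hp
    rw [zz, List.mem_singleton] at hp
    subst hp
    simp
  | succ h ih =>
    intro p hp
    rw [zz, List.mem_append] at hp
    rcases hp with hp | hp
    · have := ih p hp
      push_cast
      omega
    · simp only [List.mem_cons, List.not_mem_nil, or_false] at hp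
      rcases hp with rfl | rfl
      · simp only
        push_cast
        omega
      · simp only
        push_cast
        omega

theorem zz_last (h : ℕ) : (zz h).getLast? = some ((h : ℤ) % 2, (h : ℤ)) := by
  cases h with
  | zero => rfl
  | succ h =>
    rw [zz, List.getLast?_append]
    simp

theorem zz_head (h : ℕ) : (zz h).head? = some (0, 0) := by
  induction h with
  | zero => rfl
  | succ h ih =>
    rw [zz, List.head?_append, ih]
    rfl

theorem zz_Sr {L : ℕ} (hL : 2 ≤ L) (h : ℕ) : zz h ∈ Sr L h := by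
  refine ⟨?_, ?_, ?_, (0, 0), ((h : ℤ) % 2, (h : ℤ)), zz_head h, zz_last h, rfl, rfl⟩
  · induction h with
    | zero => simp [zz]
    | succ h ih =>
      rw [zz, List.nodup_append]
      refine ⟨ih, ?_, ?_⟩
      · simp only [List.nodup_cons, List.mem_singleton, Prod.mk.injEq, List.not_mem_nil,
          not_false_eq_true, List.nodup_nil, and_self, and_true]
        omega
      · intro a ha b hb hab
        subst hab
        have h1 := zz_mem h a ha
        simp only [List.mem_cons, List.not_mem_nil, or_false] at hb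
        rcases hb with rfl | rfl
        · simp only at h1
          omega
        · simp only at h1
          omega
  · induction h with
    | zero => simp [zz]
    | succ h ih =>
      rw [zz, List.isChain_append]
      refine ⟨ih, ?_, ?_⟩
      · simp only [List.isChain_cons_cons, List.isChain_singleton, and_true]
        rw [nbr_iff]
        refine Or.inl ⟨rfl, ?_⟩
        show (h : ℤ) % 2 - ((h : ℤ) + 1) % 2 = 1 ∨ ((h : ℤ) + 1) % 2 - (h : ℤ) % 2 = 1
        omega
      · intro x hx y hy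
        rw [zz_last, Option.mem_some_iff] at hx
        simp only [List.head?_cons, Option.mem_some_iff] at hy
        subst hx
        subst hy
        rw [nbr_iff]
        refine Or.inr ⟨rfl, Or.inl ⟨rfl, ?_⟩⟩
        show ((h : ℤ) % 2 + h) % 2 = 0
        omega
  · intro p hp
    have h1 := zz_mem h p hp
    omega

theorem Tsum_upper : ∃ K : ℝ, 0 ≤ K ∧ ∀ L : ℕ, 2 ≤ L → ∀ h : ℕ,
    ∑' l : Sr L h, ENNReal.ofReal ((mu0⁻¹) ^ (l.1.length - 1)) ≤
      ENNReal.ofReal (Real.exp (K * Real.log L ^ 2 - Real.log 2 / 16 * (h / L))) := by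
  obtain ⟨K, hK, h1⟩ := Sr_sum
  refine ⟨K, hK, fun L hL h => ?_⟩
  rw [ENNReal.tsum_eq_iSup_sum]
  refine iSup_le fun F => ?_
  have h2 := h1 L hL h (F.map ⟨Subtype.val, Subtype.val_injective⟩) (by
    intro l hl
    rw [Finset.mem_map] at hl
    obtain ⟨x, -, rfl⟩ := hl
    exact x.2)
  rw [Finset.sum_map] at h2
  have hm : 0 ≤ mu0⁻¹ := inv_nonneg.2 mu0_pos.le
  rw [← ENNReal.ofReal_sum_of_nonneg (fun i _ => by positivity)]
  exact ENNReal.ofReal_le_ofReal h2

theorem Tsum_lower_big : ∃ K : ℝ, 0 ≤ K ∧ ∀ᶠ L : ℕ in atTop, ∀ h : ℕ,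
    ENNReal.ofReal (Real.exp (-(K * Real.log L ^ 2 * (1 + h / L)))) ≤
      ∑' l : Sr L h, ENNReal.ofReal ((mu0⁻¹) ^ (l.1.length - 1)) := by
  refine ⟨10240, by norm_num, ?_⟩
  filter_upwards [ev3 1 one_pos le_rfl, eventually_ge_atTop 2] with L h1 hL2 h
  obtain ⟨T, hTy, hT1, hT2, -⟩ := h1
  have hL2' : (2 : ℝ) ≤ L := by exact_mod_cast hL2
  have hL0 : (0 : ℝ) < L := by linarith
  have hlL : 0 < Real.log L := Real.log_pos (by linarith)
  have hTpos : (0 : ℝ) < T := lt_of_lt_of_le (by positivity) hTy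
  have hT1n : 1 ≤ T := by
    have : 0 < T := by exact_mod_cast hTpos
    omega
  have hT1' : (1 : ℝ) ≤ T := by exact_mod_cast hT1n
  have hlogT : 0 ≤ Real.log T := Real.log_nonneg hT1'
  set W : ℤ := ⌈256 * Real.log T * T⌉ + 3 with hW
  have hW1 : 256 * Real.log T * T + 3 ≤ W := by
    rw [hW]
    push_cast
    linarith [Int.le_ceil (256 * Real.log T * T)]
  have hW2 : (W : ℝ) < 256 * Real.log T * T + 4 := by
    rw [hW]
    push_cast
    linarith [(Int.ceil_lt_add_one (256 * Real.log T * T))]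
  have hW0 : 0 ≤ W := by
    have : (0 : ℝ) ≤ W := by
      have : 0 ≤ 256 * Real.log T * T := by positivity
      linarith
    exact_mod_cast this
  have hWL : 2 * W + 5 ≤ L := by
    have h3 : 2 * (W : ℝ) + 5 < L + 1 := by linarith
    have h4 : 2 * W + 5 < L + 1 := by exact_mod_cast h3
    omega
  have h5 := (EE_mass hT1n hW1 hW0 h).trans (EE_Sr (h := h) hWL)
  refine le_trans ?_ h5
  rw [← ENNReal.ofReal_pow (by positivity)]
  apply ENNReal.ofReal_le_ofReal
  have hTL : (T : ℝ) ≤ L := by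
    have : T ≤ L := by omega
    exact_mod_cast this
  have e1 : (1 / (16 * (T : ℝ))) ^ (h / T + 1) =
      Real.exp (-(((h / T : ℕ) : ℝ) + 1) * Real.log (16 * T)) := by
    rw [one_div, inv_pow, ← Real.exp_log (show (0 : ℝ) < ((16 * (T : ℝ)) ^ (h / T + 1))⁻¹ by positivity),
      Real.log_inv, Real.log_pow]
    push_cast
    ring_nf
  rw [e1]
  apply Real.exp_le_exp.2
  have h6 : ((h / T : ℕ) : ℝ) ≤ h / T := Nat.cast_div_le
  have h7 : (h : ℝ) / T ≤ h * (2048 * Real.log L / L) := by
    rw [div_le_iff₀ hTpos]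
    rw [div_le_iff₀ (by positivity)] at hTy
    have h8 : 1 ≤ 2048 * Real.log L / L * T := by
      rw [div_mul_eq_mul_div, le_div_iff₀ hL0]
      linarith
    calc (h : ℝ) = h * 1 := (mul_one _).symm
      _ ≤ h * (2048 * Real.log L / L * T) := by gcongr
      _ = _ := by ring
  have hl2 : 1 / 2 ≤ Real.log L := by
    have h9 := Real.log_two_gt_d9
    have h10 := Real.log_le_log (by norm_num) hL2'
    linarith
  have h8 : Real.log (16 * T) ≤ 5 * Real.log L := by
    rw [show 5 * Real.log L = Real.log ((L : ℝ) ^ 5) by rw [Real.log_pow]; norm_num]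
    apply Real.log_le_log (by positivity)
    have h2 : (16 : ℝ) ≤ (L : ℝ) ^ 4 := by
      calc (16 : ℝ) = 2 ^ 4 := by norm_num
        _ ≤ _ := by gcongr
    calc 16 * (T : ℝ) ≤ (L : ℝ) ^ 4 * L := by gcongr
      _ = _ := by ring
  have h9 : 0 ≤ Real.log (16 * T) := Real.log_nonneg (by linarith)
  have h10 : (((h / T : ℕ) : ℝ) + 1) * Real.log (16 * T) ≤
      (h * (2048 * Real.log L / L) + 1) * (5 * Real.log L) := by
    have : ((h / T : ℕ) : ℝ) + 1 ≤ h * (2048 * Real.log L / L) + 1 := by linarith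
    gcongr
  have h11 : (h * (2048 * Real.log L / L) + 1) * (5 * Real.log L) ≤
      10240 * Real.log L ^ 2 * (1 + h / L) := by
    have e : 10240 * Real.log L ^ 2 * (1 + h / L) - (h * (2048 * Real.log L / L) + 1) * (5 * Real.log L)
        = 5 * Real.log L * (2048 * Real.log L - 1) := by
      field_simp
      ring
    have h12 : 0 ≤ 5 * Real.log L * (2048 * Real.log L - 1) := by
      apply mul_nonneg (by positivity)
      linarith
    linarith
  linarith

theorem Tsum_lower : ∃ K : ℝ, 0 ≤ K ∧ ∀ L : ℕ, 2 ≤ L → ∀ h : ℕ,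
    ENNReal.ofReal (Real.exp (-(K * Real.log L ^ 2 * (1 + h / L)))) ≤
      ∑' l : Sr L h, ENNReal.ofReal ((mu0⁻¹) ^ (l.1.length - 1)) := by
  obtain ⟨K, hK, h1⟩ := Tsum_lower_big
  obtain ⟨L0, hL0⟩ := eventually_atTop.1 h1
  have hm := mu0_pos
  have hm1 : 1 ≤ mu0 := by
    unfold mu0
    rw [Real.one_le_sqrt]
    have := Real.sqrt_nonneg 2
    linarith
  have hlm : 0 ≤ Real.log mu0 := Real.log_nonneg hm1
  have hl2 : 0 < Real.log 2 := Real.log_pos (by norm_num)
  refine ⟨K + 2 * L0 * Real.log mu0 / Real.log 2 ^ 2, by positivity, fun L hL h => ?_⟩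
  have hL2' : (2 : ℝ) ≤ L := by exact_mod_cast hL
  have hLpos : (0 : ℝ) < L := by linarith
  have hlL : Real.log 2 ≤ Real.log L := Real.log_le_log (by norm_num) hL2'
  rcases Nat.lt_or_ge L L0 with h2 | h2
  · have h3 : ENNReal.ofReal ((mu0⁻¹) ^ ((zz h).length - 1)) ≤
        ∑' l : Sr L h, ENNReal.ofReal ((mu0⁻¹) ^ (l.1.length - 1)) :=
      ENNReal.le_tsum (f := fun l : Sr L h => ENNReal.ofReal ((mu0⁻¹) ^ (l.1.length - 1)))
        ⟨zz h, zz_Sr hL h⟩
    refine le_trans (ENNReal.ofReal_le_ofReal ?_) h3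
    rw [zz_len, Nat.add_sub_cancel]
    have e : (mu0⁻¹) ^ (2 * h) = Real.exp (-(2 * h * Real.log mu0)) := by
      rw [inv_pow, ← Real.exp_log (show (0 : ℝ) < (mu0 ^ (2 * h))⁻¹ by positivity), Real.log_inv,
        Real.log_pow]
      push_cast
      ring_nf
    rw [e]
    apply Real.exp_le_exp.2
    apply neg_le_neg
    have h4 : (L : ℝ) ≤ L0 := by exact_mod_cast h2.le
    have h5 : (1 : ℝ) * h ≤ L0 * (h / L) := by
      rw [mul_div_assoc', le_div_iff₀ hLpos]
      nlinarith [Nat.cast_nonneg (α := ℝ) h]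
    have h6 : Real.log 2 ^ 2 ≤ Real.log L ^ 2 := by gcongr
    have h7 : 2 * (h : ℝ) * Real.log mu0 ≤
        2 * L0 * Real.log mu0 / Real.log 2 ^ 2 * Real.log L ^ 2 * (1 + h / L) := by
      have h8 : 2 * L0 * Real.log mu0 ≤
          2 * L0 * Real.log mu0 / Real.log 2 ^ 2 * Real.log L ^ 2 := by
        rw [div_mul_eq_mul_div, le_div_iff₀ (by positivity)]
        gcongr
      calc 2 * (h : ℝ) * Real.log mu0 = 2 * Real.log mu0 * (1 * h) := by ring
        _ ≤ 2 * Real.log mu0 * (L0 * (h / L)) := by gcongr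
        _ = 2 * L0 * Real.log mu0 * (h / L) := by ring
        _ ≤ 2 * L0 * Real.log mu0 * (1 + h / L) := by gcongr; linarith
        _ ≤ _ := by gcongr
    have h9 : 0 ≤ K * Real.log L ^ 2 * (1 + h / L) := by positivity
    have e2 : (K + 2 * L0 * Real.log mu0 / Real.log 2 ^ 2) * Real.log L ^ 2 * (1 + h / L) =
        K * Real.log L ^ 2 * (1 + h / L) +
        2 * L0 * Real.log mu0 / Real.log 2 ^ 2 * Real.log L ^ 2 * (1 + h / L) := by ring
    rw [e2]
    linarith
  · refine le_trans (ENNReal.ofReal_le_ofReal ?_) (hL0 L h2 h)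
    apply Real.exp_le_exp.2
    apply neg_le_neg
    have : 0 ≤ 2 * L0 * Real.log mu0 / Real.log 2 ^ 2 := by positivity
    gcongr
    linarith

end Pool.Agent.U508.ST
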