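import Pool.Agent.U508.ST.Count2
import Pool.Agent.U508.ST.Mir
import Pool.Agent.W832.HR.AllScale

set_option autoImplicit false

/-! Critical mass of the bridges near to a vertical line. -/

namespace Pool.Agent.U508.ST

open H978R2.Hex Pool.Agent.W818.TD Pool.Agent.W832.HR
open scoped ENNReal

/-- bridges of height `2 T` near to the vertical line -/
def BB (T : ℕ) (W : ℤ) : Set (List V) :=
  {β | EBr β ∧ hl β = 2 * (T : ℤ) ∧ ∀ u ∈ β, |lat u| ≤ W}

theorem crossings {T : ℕ} (hT : 2 ≤ T) {W : ℤ} (hW : 256 * Real.log T * T + 3 ≤ W) :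
    ENNReal.ofReal (1 / (8 * (T : ℝ))) ≤ M (BB T W) := by
  have hT1 : 1 ≤ T := by omega
  have hT0 : (0 : ℝ) < T := by positivity
  set k : ℝ := 256 * (1 : ℕ) * Real.log T with hk
  have hk' : k = 256 * Real.log T := by rw [hk]; push_cast; ring
  set g : List V → Prop := fun l => WidL (k * T) l with hg
  have hall := all_scales hT (s := 1) le_rfl
  have h1 : ma (LK (Dm T .no .no) 0) = ma (Cr T g) + ma (Cr T (fun l => ¬ g l)) := by
    rw [← ma_union]
    · congr 1
      ext w
      constructor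
      · intro hw
        by_cases hc : g (w.tail.dropLast)
        · exact Or.inl ⟨hw, hc⟩
        · exact Or.inr ⟨hw, hc⟩
      · rintro (hw | hw)
        · exact hw.1
        · exact hw.1
    · rw [Set.disjoint_left]
      rintro w ⟨_, h2⟩ ⟨_, h3⟩
      exact h3 h2
  have h2 : Br T = (ma (Cr T g)).toReal + (ma (Cr T (fun l => ¬ g l))).toReal := by
    rw [← ENNReal.toReal_add (Cr_ne_top hT1 _) (Cr_ne_top hT1 _), ← h1]
    rfl
  have h3 : (ma (Cr T (fun l => ¬ g l))).toReal ≤ 1 / (T : ℝ) ^ 1 * Br T := by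
    refine le_trans (ENNReal.toReal_mono (Cr_ne_top hT1 _) (ma_mono ?_)) hall
    rintro w ⟨h4, h5⟩
    exact ⟨h4, Or.inr h5⟩
  have hB := Br_ge hT1
  have hB0 : 0 < Br T := lt_of_lt_of_le (by positivity) hB
  have h4 : 1 / (8 * (T : ℝ)) ≤ (ma (Cr T g)).toReal := by
    have hT2 : (2 : ℝ) ≤ T := by exact_mod_cast hT
    have h5 : 1 / (T : ℝ) ^ 1 * Br T ≤ 1 / 2 * Br T := by
      apply mul_le_mul_of_nonneg_right _ hB0.le
      rw [pow_one]
      exact one_div_le_one_div_of_le (by norm_num) hT2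
    have h6 : 1 / (8 * (T : ℝ)) = 1 / 2 * (1 / (4 * T)) := by
      field_simp
      norm_num
    rw [h6]
    linarith
  have h5 : ma (Cr T g) ≤ M (BB T W) := by
    have hspec : ∀ w ∈ Cr T g, ∃ z y K, w = z :: y :: K ∧ Val (fun v => 1 ≤ v.1 - v.2) w ∧
        EBr (Psi w) ∧ hl (Psi w) = 2 * (T : ℤ) ∧ ∀ u ∈ Psi w, |lat u| ≤ W := by
      rintro w ⟨hw, hwid⟩
      rw [LK0_iff hT1] at hw
      obtain ⟨hv, hz⟩ := hw
      obtain ⟨y, t, e, ha, hy, M1, hM1⟩ := val_shape' hv (z := w.headD (0, 0)) rfl (by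
        intro e
        rw [e] at hz
        simp only at hz
        omega)
      set z := w.headD (0, 0) with hzdef
      have htl : w.tail.dropLast = y :: t := by
        rw [e, List.tail_cons]
        have : y :: (t ++ [((0, 0) : V)]) = (y :: t) ++ [(0, 0)] := rfl
        rw [this, List.dropLast_concat]
      have hval : Val (fun v => 1 ≤ v.1 - v.2) w := Val_mono (fun v hv => hv.1) hv
      have hmem : ∀ v ∈ y :: t, Dm T .no .no v := by
        intro v hv'
        have h7 := (Val_tail hv).2 v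
        apply h7
        rw [htl]
        exact hv'
      have hps := Psi_spec (d := 2 * (T : ℤ)) (by omega) (by omega) (z := z) (w := y)
        (K := t ++ [(0, 0)]) (by rw [← e]; exact hval) hz (by
          intro v hv'
          have : y :: (t ++ [((0, 0) : V)]) = (y :: t) ++ [(0, 0)] := rfl
          rw [this, List.dropLast_concat] at hv'
          exact (hmem v hv').2.1)
      refine ⟨z, y, t ++ [(0, 0)], e, hval, ?_⟩
      rw [← e] at hps
      refine ⟨hps.1, hps.2, ?_⟩
      intro u hu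
      have hdl : w.dropLast = z :: y :: t := by
        rw [e]
        have : z :: y :: (t ++ [((0, 0) : V)]) = (z :: y :: t) ++ [(0, 0)] := rfl
        rw [this, List.dropLast_concat]
      have hwpos : (0 : ℝ) ≤ 256 * Real.log T * T := by
        have := Real.log_nonneg (show (1 : ℝ) ≤ T by exact_mod_cast hT1)
        positivity
      unfold Psi at hu
      rw [← hzdef, mem_rf, hdl] at hu
      rcases List.mem_cons.1 hu with hu0 | hu1
      · have : u = 0 := by
          have h8 : z - u = z := hu0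
          simpa using h8
        rw [this]
        have h9 : ((3 : ℤ) : ℝ) ≤ W := by push_cast; linarith
        have h10 : (3 : ℤ) ≤ W := by exact_mod_cast h9
        simp only [lat, Prod.fst_zero, Prod.snd_zero]
        norm_num
        omega
      · have hyy : y ∈ w.tail.dropLast := by rw [htl]; exact List.mem_cons_self
        have huu : z - u ∈ w.tail.dropLast := by rw [htl]; exact hu1
        have a1 := hwid _ hyy _ huu
        have a2 := hwid _ huu _ hyy
        rw [hk'] at a1 a2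
        have a3 : (((y.1 + 3 * y.2) - ((z - u).1 + 3 * (z - u).2) : ℤ) : ℝ) + 3 ≤ (W : ℝ) := by linarith
        have a4 : ((((z - u).1 + 3 * (z - u).2) - (y.1 + 3 * y.2) : ℤ) : ℝ) + 3 ≤ (W : ℝ) := by linarith
        have a5 : ((y.1 + 3 * y.2) - ((z - u).1 + 3 * (z - u).2)) + 3 ≤ W := by exact_mod_cast a3
        have a6 : (((z - u).1 + 3 * (z - u).2) - (y.1 + 3 * y.2)) + 3 ≤ W := by exact_mod_cast a4
        rw [adj_iff] at ha
        simp only [Prod.fst_sub, Prod.snd_sub] at a5 a6
        unfold lat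
        rw [abs_le]
        omega
    let f : Cr T g → BB T W := fun w => ⟨Psi w.1, by
      obtain ⟨z, y, K, -, -, b1, b2, b3⟩ := hspec w.1 w.2
      exact ⟨b1, b2, b3⟩⟩
    have hf : Function.Injective f := by
      intro w w' h
      have h6 : Psi w.1 = Psi w'.1 := congrArg Subtype.val h
      obtain ⟨z, y, K, e, b, -⟩ := hspec w.1 w.2
      obtain ⟨z', y', K', e', b', -⟩ := hspec w'.1 w'.2
      apply Subtype.ext
      rw [e, e'] at h6 ⊢
      exact Psi_inj (by rw [← e]; exact b) (by rw [← e']; exact b') h6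
    have h6 := ENNReal.tsum_comp_le_tsum_of_injective hf (fun β : BB T W => Wt β.1)
    refine le_trans (le_of_eq ?_) h6
    unfold ma
    refine tsum_congr fun w => ?_
    simp only [f]
    unfold Wt wt Psi rf
    congr 2
    simp only [List.length_map, List.length_dropLast]
    omega
  refine le_trans ?_ h5
  rw [← ENNReal.ofReal_toReal (Cr_ne_top hT1 g)]
  exact ENNReal.ofReal_le_ofReal h4

/-- the bridges with `N` steps -/
def BL (T : ℕ) (W : ℤ) (N : ℕ) : Set (List V) := {β | β ∈ BB T W ∧ β.length = N + 1}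

theorem BL_sub (T : ℕ) (W : ℤ) (N : ℕ) : BL T W N ⊆ SA N :=
  fun _ h => ⟨⟨h.2, h.1.1.ch, h.1.1.nd⟩, h.1.1.hd⟩

theorem BL_finite (T : ℕ) (W : ℤ) (N : ℕ) : (BL T W N).Finite := (SA_finite N).subset (BL_sub T W N)

theorem BB_len {T : ℕ} {W : ℤ} (hW : 1 ≤ W) {β : List V} (h : β ∈ BB T W) :
    ∃ N : ℕ, β.length = N + 1 ∧ (N : ℤ) + 1 ≤ W * (2 * T + 1) ∧ 2 * T ≤ N := by
  obtain ⟨h1, h2, h3⟩ := h
  have hpos := List.length_pos_of_ne_nil h1.ne
  refine ⟨β.length - 1, by omega, ?_, ?_⟩
  · have hsw : SW (β.length - 1) β := ⟨by omega, h1.ch, h1.nd⟩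
    obtain ⟨a, b, ha, hb, hab⟩ := lev_count hsw hW (by
      intro v hv v' hv'
      have a1 := h3 v hv
      have a2 := h3 v' hv'
      rw [abs_le] at a1 a2
      omega)
    rw [List.getD_eq_getElem _ _ (by omega), List.getD_eq_getElem _ _ (by omega)] at hab
    have a1 := h1.top β[b] (List.getElem_mem _)
    have a2 := h1.nonneg β[a] (List.getElem_mem _)
    rw [h2] at a1
    refine hab.trans (mul_le_mul_of_nonneg_left ?_ (by omega))
    unfold lev
    omega
  · have := hl_le h1.ch h1.hd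
    rw [h2] at this
    omega

/-- the mass as a sum over the number of steps -/
theorem BB_sum {T : ℕ} {W : ℤ} (hW : 1 ≤ W) {X : ℕ} (hX : W * (2 * T + 1) ≤ X) :
    M (BB T W) ≤ ENNReal.ofReal (∑ N ∈ Finset.Ico (2 * T) X,
      ((BL T W N).ncard : ℝ) * (mu0⁻¹) ^ N) := by
  classical
  have hm := inv_pos.2 mu0_pos
  apply M_le_of
  intro F hF
  have hsplit : ∑ β ∈ F, Wt β = ∑ N ∈ Finset.Ico (2 * T) X, ∑ β ∈ F with β.length - 1 = N, Wt β := by
    rw [Finset.sum_fiberwise_of_maps_to]
    intro β hβ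
    obtain ⟨N, h1, h2, h3⟩ := BB_len hW (hF β hβ)
    rw [Finset.mem_Ico]
    omega
  rw [hsplit, ENNReal.ofReal_sum_of_nonneg (fun N _ => by positivity)]
  refine Finset.sum_le_sum fun N _ => ?_
  have h2 : ∀ β ∈ F.filter (fun β => β.length - 1 = N), Wt β = ENNReal.ofReal ((mu0⁻¹) ^ N) := by
    intro β hβ
    rw [Finset.mem_filter] at hβ
    unfold Wt
    rw [hβ.2]
  rw [Finset.sum_congr rfl h2, Finset.sum_const, nsmul_eq_mul, ENNReal.ofReal_mul (by positivity),
    ENNReal.ofReal_natCast]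
  gcongr
  rw [← Set.ncard_coe_finset]
  apply Set.ncard_le_ncard _ (BL_finite T W N)
  intro β hβ
  rw [Finset.mem_coe, Finset.mem_filter] at hβ
  refine ⟨hF β hβ.1, ?_⟩
  have := List.length_pos_of_ne_nil (hF β hβ.1).1.ne
  omega

/-- one of the two signs -/
theorem BL_AA (T : ℕ) (W : ℤ) (N : ℕ) :
    (BL T W N).ncard ≤ (AA 1 W N).ncard + (AA (-1) W N).ncard := by
  have hsub : BL T W N ⊆ AA 1 W N ∪ AA (-1) W N := by
    rintro β ⟨⟨h1, -, h3⟩, h4⟩
    rcases le_total 0 (lat (la β)) with h | h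
    · left
      exact ⟨h1, h4, h3, by omega⟩
    · right
      exact ⟨h1, h4, h3, by omega⟩
  exact (Set.ncard_le_ncard hsub (((SA_finite N).subset (AA_sub 1 W N)).union
    ((SA_finite N).subset (AA_sub (-1) W N)))).trans (Set.ncard_union_le _ _)

end Pool.Agent.U508.ST
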