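import Pool.Agent.U508.ST.Conv

set_option autoImplicit false

/-! Upper bound of the growth constant of a strip. -/

namespace Pool.Agent.U508.ST

open H978R2.Hex Pool.Agent.W818.TD Filter
open scoped Topology

/-- walks of the strip as lists -/
theorem walks_WF (L : ℕ) : ∃ F : Finset V, ∀ n : ℕ, ∀ T : Finset (List V),
    WF n ((L : ℤ) / 2 + 1) F ⊆ (T : Set (List V)) → (walks L n).ncard ≤ T.card := by
  classical
  refine ⟨((Finset.Icc (0 : ℤ) L) ×ˢ (Finset.Icc (0 : ℤ) 1)).image ri, fun n T hT => ?_⟩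
  rw [← Set.ncard_coe_finset]
  refine Set.ncard_le_ncard_of_injOn (fun ω : Fin (n + 1) → ℤ × ℤ => List.ofFn (fun i => ri (ω i)))
    ?_ ?_ (Finset.finite_toSet T)
  · rintro ω ⟨h0, h1, h2, h3⟩
    apply hT
    refine ⟨⟨by simp, ?_, ?_⟩, ?_, ?_⟩
    · rw [List.isChain_iff_getElem]
      intro i hi
      simp only [List.length_ofFn] at hi
      simp only [List.getElem_ofFn]
      exact ri_adj (nbr_adj.1 (h2 ⟨i, by omega⟩))
    · exact List.nodup_ofFn.2 (ri_inj.comp h1)
    · intro v hv v' hv'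
      rw [List.mem_ofFn] at hv hv'
      obtain ⟨i, rfl⟩ := hv
      obtain ⟨j, rfl⟩ := hv'
      have h4 := h3 i
      have h5 := h3 j
      unfold lat ri
      simp only
      omega
    · refine ⟨ri (ω 0), ?_, ?_⟩
      · apply Finset.mem_image_of_mem
        have h4 := h3 0
        rw [Finset.mem_product, Finset.mem_Icc, Finset.mem_Icc]
        omega
      · rw [List.ofFn_succ, List.head?_cons]
  · rintro ω - ω' - h
    have h2 := List.ofFn_injective h
    funext i
    exact ri_inj (congrFun h2 i)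

/-- all the numbers of walks are bounded by `D r ^ n` for every `r > μ` -/
theorem saws_exp {ε : ℝ} (hε : 0 < ε) : ∃ D : ℝ, ∀ i : ℕ,
    ((saws i).ncard : ℝ) ≤ D * (mu0 * Real.exp ε) ^ i := by
  have hm := mu0_pos
  have h1 : ∀ᶠ n : ℕ in atTop, ((saws n).ncard : ℝ) ≤ (mu0 * Real.exp ε) ^ n := by
    have h2 := Rn_div.eventually (gt_mem_nhds hε)
    filter_upwards [h2, eventually_ge_atTop 1] with n hn hn1
    have hn0 : (0 : ℝ) < n := by exact_mod_cast hn1
    rw [div_lt_iff₀ hn0] at hn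
    unfold Rn at hn
    have hs := saws_pos n
    rw [mul_pow, ← Real.exp_nat_mul, ← Real.exp_log (pow_pos hm n), ← Real.exp_add,
      ← Real.exp_log hs, Real.log_pow]
    apply Real.exp_le_exp.2
    linarith
  obtain ⟨n0, hn0⟩ := eventually_atTop.1 h1
  have hr : 1 ≤ mu0 * Real.exp ε := by
    have h3 : 1 ≤ mu0 := by
      unfold mu0
      rw [Real.one_le_sqrt]
      have := Real.sqrt_nonneg 2
      linarith
    have h4 : 1 ≤ Real.exp ε := Real.one_le_exp hε.le
    nlinarith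
  refine ⟨1 + ∑ i ∈ Finset.range n0, ((saws i).ncard : ℝ), fun i => ?_⟩
  have hsum : 0 ≤ ∑ i ∈ Finset.range n0, ((saws i).ncard : ℝ) :=
    Finset.sum_nonneg fun i _ => Nat.cast_nonneg _
  have hri : 1 ≤ (mu0 * Real.exp ε) ^ i := one_le_pow₀ hr
  rcases Nat.lt_or_ge i n0 with h | h
  · have h5 : ((saws i).ncard : ℝ) ≤ ∑ i ∈ Finset.range n0, ((saws i).ncard : ℝ) :=
      Finset.single_le_sum (f := fun i => ((saws i).ncard : ℝ)) (fun i _ => Nat.cast_nonneg _)
        (Finset.mem_range.2 h)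
    nlinarith
  · have := hn0 i h
    nlinarith

/-- polynomial growth -/
theorem growth {q A : ℝ} (hA : 0 ≤ A) (a b : ℕ) (ha : 1 ≤ a)
    (h : ∀ N : ℕ, 1 ≤ N → q ^ (a * N + b) ≤ A * ((a * N + b : ℕ) + 1 : ℝ) ^ 3) : q ≤ 1 := by
  by_contra hq
  push Not at hq
  have h1 := tendsto_pow_const_mul_const_pow_of_abs_lt_one 3 (r := q⁻¹)
    (by rw [abs_of_pos (by positivity)]; exact inv_lt_one_of_one_lt₀ hq)
  have h2 : Tendsto (fun N : ℕ => a * N + b) atTop atTop :=
    tendsto_atTop_mono (fun N => by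
      show N ≤ a * N + b
      nlinarith) tendsto_id
  have h3 := (h1.comp h2).const_mul (8 * A + 1)
  rw [mul_zero] at h3
  have h4 := h3.eventually (gt_mem_nhds one_pos)
  obtain ⟨N0, hN0⟩ := eventually_atTop.1 h4
  have h5 := hN0 (max N0 1) (le_max_left _ _)
  have h6 := h (max N0 1) (le_max_right _ _)
  simp only [Function.comp_apply] at h5
  set m := a * max N0 1 + b with hm
  have hm1 : 1 ≤ m := by
    have : 1 ≤ max N0 1 := le_max_right _ _
    nlinarith
  have hm1' : (1 : ℝ) ≤ m := by exact_mod_cast hm1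
  have h7 : ((m : ℝ) + 1) ^ 3 ≤ 8 * (m : ℝ) ^ 3 := by
    have : (m : ℝ) + 1 ≤ 2 * m := by linarith
    calc ((m : ℝ) + 1) ^ 3 ≤ (2 * m) ^ 3 := pow_le_pow_left₀ (by positivity) this 3
      _ = _ := by ring
  have hqm : 0 < q ^ m := by positivity
  have h8 : q ^ m ≤ (8 * A + 1) * (m : ℝ) ^ 3 := by
    have : 0 ≤ (m : ℝ) ^ 3 := by positivity
    nlinarith
  have h9 : (8 * A + 1) * ((m : ℝ) ^ 3 * q⁻¹ ^ m) = (8 * A + 1) * (m : ℝ) ^ 3 / q ^ m := by
    rw [inv_pow]
    field_simp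
  rw [h9, div_lt_one hqm] at h5
  linarith

/-- **upper bound** -/
theorem kappa_le {L : ℕ} {κ : ℝ} (hκ : ∀ n : ℕ, 1 ≤ n → κ ^ n ≤ (walks L n).ncard) :
    κ ≤ mu0 * (2 : ℝ) ^ (-(1 / (4 * ((L : ℝ) + 2) ^ 2))) := by
  have hm := mu0_pos
  set s : ℤ := (L : ℤ) / 2 + 1 with hs
  have hs1 : 1 ≤ s := by omega
  obtain ⟨S, hS⟩ : ∃ S : ℕ, s = S := ⟨s.toNat, by omega⟩
  have hS1 : 1 ≤ S := by omega
  have hS1' : (1 : ℝ) ≤ S := by exact_mod_cast hS1
  obtain ⟨F, hF⟩ := walks_WF L
  set b : ℝ := (2 : ℝ) ^ (-(1 / (16 * (S : ℝ) ^ 2))) with hb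
  have hb0 : 0 < b := Real.rpow_pos_of_pos (by norm_num) _
  have hb1 : b ^ (16 * S ^ 2) = 1 / 2 := by
    rw [hb, ← Real.rpow_natCast, ← Real.rpow_mul (by norm_num)]
    have : -(1 / (16 * (S : ℝ) ^ 2)) * ((16 * S ^ 2 : ℕ) : ℝ) = -1 := by
      push_cast
      field_simp
    rw [this, Real.rpow_neg_one]
    norm_num
  have key : ∀ ε : ℝ, 0 < ε → κ ≤ mu0 * Real.exp ε * b := by
    intro ε hε
    obtain ⟨D, hD⟩ := saws_exp hε
    set r := mu0 * Real.exp ε with hr
    have hmr : mu0 ≤ r := by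
      rw [hr]
      exact le_mul_of_one_le_right hm.le (Real.one_le_exp hε.le)
    have hr0 : 0 < r := hm.trans_le hmr
    have hg := growth (q := κ / (r * b)) (A := 8 * F.card * D ^ 2 * (b⁻¹) ^ (5 * S - 1))
      (by positivity) (16 * S ^ 2) (5 * S - 1) (by nlinarith) (by
        intro N hN
        set n := 16 * S ^ 2 * N + (5 * S - 1) with hn
        have hn1 : 1 ≤ n := by omega
        have hcond : s * (5 + 16 * s * N) ≤ n + 1 := by
          rw [hS]
          have : S * (5 + 16 * S * N) = n + 1 := by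
            rw [hn]
            have : 5 * S - 1 + 1 = 5 * S := by omega
            rw [add_assoc, this]
            ring
          exact_mod_cast this.le
        obtain ⟨T, hT, hTc⟩ := WF_le hs1 F hN hcond hmr hD
        have h1 := hκ n hn1
        have h2 : ((walks L n).ncard : ℝ) ≤ T.card := by exact_mod_cast hF n T hT
        have h3 : κ ^ n ≤ 8 * F.card * D ^ 2 * (n + 1) ^ 3 * r ^ n * (1 / 2) ^ N :=
          h1.trans (h2.trans hTc)
        have h4 : (1 / 2 : ℝ) ^ N * (b ^ (5 * S - 1)) = b ^ n := by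
          rw [hn, pow_add, pow_mul, hb1]
        have h5 : (1 / 2 : ℝ) ^ N = b ^ n * (b⁻¹) ^ (5 * S - 1) := by
          rw [← h4, mul_assoc, ← mul_pow, mul_inv_cancel₀ hb0.ne', one_pow, mul_one]
        rw [div_pow, div_le_iff₀ (by positivity), mul_pow]
        rw [h5] at h3
        refine h3.trans (le_of_eq ?_)
        ring)
    rw [div_le_one (by positivity)] at hg
    exact hg
  have h6 : κ ≤ mu0 * b := by
    by_contra hc
    push Not at hc
    have hb' : 0 < mu0 * b := by positivity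
    have hκ0 : 0 < κ := hb'.trans hc
    have hlog : 0 < Real.log (κ / (mu0 * b)) := Real.log_pos (by rwa [one_lt_div hb'])
    have h7 := key (Real.log (κ / (mu0 * b)) / 2) (by positivity)
    have h8 : Real.exp (Real.log (κ / (mu0 * b)) / 2) < κ / (mu0 * b) := by
      rw [← Real.lt_log_iff_exp_lt (by positivity)]
      linarith
    have h9 : mu0 * Real.exp (Real.log (κ / (mu0 * b)) / 2) * b < κ := by
      calc _ = Real.exp (Real.log (κ / (mu0 * b)) / 2) * (mu0 * b) := by ring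
        _ < κ / (mu0 * b) * (mu0 * b) := by gcongr
        _ = κ := by field_simp
    linarith
  refine h6.trans ?_
  apply mul_le_mul_of_nonneg_left _ hm.le
  rw [hb]
  apply Real.rpow_le_rpow_of_exponent_le (by norm_num)
  have h10 : 2 * (S : ℝ) ≤ L + 2 := by
    have : 2 * S ≤ L + 2 := by omega
    exact_mod_cast this
  have h11 : 16 * (S : ℝ) ^ 2 ≤ 4 * ((L : ℝ) + 2) ^ 2 := by nlinarith
  apply neg_le_neg
  apply one_div_le_one_div_of_le (by positivity) h11

end Pool.Agent.U508.ST
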